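import Mathlib

set_option autoImplicit false

namespace Pool.Agent.Helper760.Kolm

open Nat.Partrec (Code)
open Encodable

/-! ### Stepped approximation of partial recursive functions -/

theorem exists_stepped {α σ : Type*} [Primcodable α] [Primcodable σ] {f : α →. σ}
    (hf : Partrec f) :
    ∃ F : ℕ → α → Option σ, Primrec₂ F ∧ (∀ a s, s ∈ f a ↔ ∃ t, F t a = some s) ∧
      (∀ t t' a s, t ≤ t' → F t a = some s → F t' a = some s) := by
  obtain ⟨c, hc⟩ := Code.exists_code.1 hf
  have hev : ∀ a : α, c.eval (encode a) = (f a).map encode := by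
    intro a
    rw [hc]
    simp
  refine ⟨fun t a => (Code.evaln t c (encode a)).bind (fun n => decode n), ?_, ?_, ?_⟩
  · have h1 : Primrec (fun p : ℕ × α => Code.evaln p.1 c (encode p.2)) :=
      Code.primrec_evaln.comp
        (Primrec.pair (Primrec.pair Primrec.fst (Primrec.const c))
          (Primrec.encode.comp Primrec.snd))
    exact Primrec.option_bind h1 (Primrec.decode.comp Primrec.snd).to₂
  · intro a s
    constructor
    · intro hs
      have : encode s ∈ c.eval (encode a) := by
        rw [hev]
        exact Part.mem_map encode hs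
      obtain ⟨k, hk⟩ := Code.evaln_complete.1 this
      refine ⟨k, ?_⟩
      have hk' : Code.evaln k c (encode a) = some (encode s) := hk
      simp [hk']
    · rintro ⟨t, ht⟩
      simp only [Option.bind_eq_some_iff] at ht
      obtain ⟨n, hn, hd⟩ := ht
      have h2 : n ∈ c.eval (encode a) := Code.evaln_sound hn
      rw [hev] at h2
      simp only [Part.mem_map_iff] at h2
      obtain ⟨s', hs', rfl⟩ := h2
      rw [encodek] at hd
      cases hd
      exact hs'
  · intro t t' a s htt h
    simp only [Option.bind_eq_some_iff] at h ⊢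
    obtain ⟨n, hn, hd⟩ := h
    exact ⟨n, Code.evaln_mono htt hn, hd⟩

/-! ### Binary values of strings -/

/-- value of a bit string, least significant bit first -/
def val (l : List Bool) : ℕ := l.foldr (fun b n => 2 * n + b.toNat) 0

@[simp] theorem val_nil : val [] = 0 := rfl

@[simp] theorem val_cons (b : Bool) (l : List Bool) : val (b :: l) = 2 * val l + b.toNat := rfl

theorem val_bits (n : ℕ) : val (Nat.bits n) = n := by
  induction n using Nat.binaryRec' with
  | zero => simp
  | bit b n h ih =>
    rw [Nat.bits_append_bit n b h, val_cons, ih, Nat.bit_val]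

theorem exists_val (i m : ℕ) (h : i < 2 ^ m) : ∃ p : List Bool, p.length ≤ m ∧ val p = i := by
  refine ⟨Nat.bits i, ?_, val_bits i⟩
  rw [Nat.size_eq_bits_len]
  exact Nat.size_le.2 h

theorem primrec_val : Primrec val := by
  have h1 : Primrec₂ (fun (_ : List Bool) (x : Bool × ℕ) => 2 * x.2 + x.1.toNat) := by
    have h1 : Primrec (fun x : List Bool × (Bool × ℕ) => x.2.1.toNat) :=
      (Primrec.dom_bool Bool.toNat).comp (Primrec.fst.comp Primrec.snd)
    exact (Primrec.nat_add.comp (Primrec.nat_mul.comp (Primrec.const 2)
      (Primrec.snd.comp Primrec.snd)) h1).to₂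
  have h2 := Primrec.list_foldr (Primrec.id (α := List Bool)) (Primrec.const 0) h1
  exact h2.of_eq (fun l => rfl)

/-- takeWhile of leading ones -/
def ones (q : List Bool) : ℕ := (q.takeWhile id).length

/-- the rest after the leading ones and one separator -/
def afterOnes (q : List Bool) : List Bool := q.drop (ones q + 1)

theorem ones_replicate (k : ℕ) (p : List Bool) :
    ones (List.replicate k true ++ false :: p) = k := by
  unfold ones
  induction k with
  | zero => simp
  | succ k ih => simp [List.replicate_succ]

theorem afterOnes_replicate (k : ℕ) (p : List Bool) :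
    afterOnes (List.replicate k true ++ false :: p) = p := by
  unfold afterOnes
  rw [ones_replicate]
  have : List.replicate k true ++ false :: p = (List.replicate k true ++ [false]) ++ p := by simp
  rw [this]
  apply List.drop_left'
  simp

theorem primrec_ones : Primrec ones :=
  Primrec.list_length.comp (Primrec.list_takeWhile Primrec.id)

theorem primrec_afterOnes : Primrec afterOnes :=
  Primrec.list_drop.comp (Primrec.succ.comp primrec_ones) Primrec.id

/-- the first number stored in a self-delimiting way -/
def numOf (q : List Bool) : ℕ := val ((afterOnes q).take (ones q))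

/-- the string after the first stored number -/
def restOf (q : List Bool) : List Bool := (afterOnes q).drop (ones q)

theorem primrec_numOf : Primrec numOf :=
  primrec_val.comp (Primrec.list_take.comp primrec_ones primrec_afterOnes)

theorem primrec_restOf : Primrec restOf :=
  Primrec.list_drop.comp primrec_ones primrec_afterOnes

/-- self-delimiting encoding of a number in front of a string -/
def putNum (a : ℕ) (p : List Bool) : List Bool :=
  List.replicate a.size true ++ false :: (Nat.bits a ++ p)

theorem numOf_putNum (a : ℕ) (p : List Bool) : numOf (putNum a p) = a := by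
  unfold numOf putNum
  rw [ones_replicate, afterOnes_replicate, ← Nat.size_eq_bits_len, List.take_left, val_bits]

theorem restOf_putNum (a : ℕ) (p : List Bool) : restOf (putNum a p) = p := by
  unfold restOf putNum
  rw [ones_replicate, afterOnes_replicate, ← Nat.size_eq_bits_len, List.drop_left]

theorem length_putNum (a : ℕ) (p : List Bool) :
    (putNum a p).length = 2 * a.size + 1 + p.length := by
  unfold putNum
  simp [Nat.size_eq_bits_len]
  omega

/-! ### The universal machine -/

/-- a universal conditional machine -/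
def M (q : List Bool) (y : ℕ) : Part ℕ :=
  Code.eval (Denumerable.ofNat Code (ones q)) (Nat.pair (encode (afterOnes q)) y)

theorem partrec_M : Partrec₂ M := by
  unfold M
  have h1 : Computable (fun x : List Bool × ℕ => Denumerable.ofNat Code (ones x.1)) :=
    (Computable.ofNat Code).comp (primrec_ones.comp Primrec.fst).to_comp
  have h2 : Computable (fun x : List Bool × ℕ => Nat.pair (encode (afterOnes x.1)) x.2) :=
    (Primrec₂.natPair.comp (Primrec.encode.comp (primrec_afterOnes.comp Primrec.fst))
      Primrec.snd).to_comp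
  exact Code.eval_part.comp h1 h2

theorem M_opt (φ : List Bool → ℕ →. ℕ) (hφ : Partrec₂ φ) :
    ∃ c, ∀ p y s, s ∈ φ p y → s ∈ M (List.replicate c true ++ false :: p) y := by
  obtain ⟨c, hc⟩ := Code.exists_code.1 hφ
  refine ⟨encode c, ?_⟩
  intro p y s hs
  unfold M
  rw [ones_replicate, afterOnes_replicate, Denumerable.ofNat_encode, hc]
  have h : Nat.pair (encode p) y = encode ((p, y) : List Bool × ℕ) := by simp
  rw [h]
  simp [hs]

theorem M_total (s y : ℕ) : ∃ p : List Bool, s ∈ M p y := by
  have hφ : Partrec₂ (fun (p : List Bool) (_ : ℕ) => (Part.some (val p) : Part ℕ)) :=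
    (primrec_val.comp Primrec.fst).to_comp.partrec
  obtain ⟨c, hc⟩ := M_opt _ hφ
  exact ⟨_, hc (Nat.bits s) y s (by simp [val_bits])⟩

/-- Complexity of `a` given `b` for objects of encodable types. -/
noncomputable def K {α β : Type*} [Encodable α] [Encodable β] (a : α) (b : β) : ℕ :=
  sInf {m | ∃ p : List Bool, encode a ∈ M p (encode b) ∧ p.length = m}

section
variable {α β γ δ : Type*} [Primcodable α] [Primcodable β] [Primcodable γ] [Primcodable δ]

theorem K_spec (a : α) (b : β) : ∃ p : List Bool, encode a ∈ M p (encode b) ∧ p.length = K a b := by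
  have h : {m | ∃ p : List Bool, encode a ∈ M p (encode b) ∧ p.length = m}.Nonempty := by
    obtain ⟨p, hp⟩ := M_total (encode a) (encode b)
    exact ⟨p.length, p, hp, rfl⟩
  exact Nat.sInf_mem h

theorem K_le (a : α) (b : β) (p : List Bool) (h : encode a ∈ M p (encode b)) :
    K a b ≤ p.length :=
  Nat.sInf_le ⟨p, h, rfl⟩

/-- Master upper bound. -/
theorem K_param (φ : γ × List Bool × β →. α) (hφ : Partrec φ) :
    ∃ c : ℕ, ∀ g p b a, a ∈ φ (g, p, b) → K a b ≤ p.length + 2 * Nat.size (encode g) + c := by
  classical
  -- decode everything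
  let ψ : List Bool → ℕ →. ℕ := fun q y =>
    (Part.ofOption (decode (α := γ) (numOf q))).bind fun g =>
      (Part.ofOption (decode (α := β) y)).bind fun b => (φ (g, restOf q, b)).map encode
  have hψ : Partrec₂ ψ := by
    have hd1 : Partrec (fun x : List Bool × ℕ => (Part.ofOption (decode (α := γ) (numOf x.1)) : Part γ)) :=
      ((Primrec.decode.comp (primrec_numOf.comp Primrec.fst)).to_comp).ofOption
    have hd2 : Partrec (fun x : (List Bool × ℕ) × γ => (Part.ofOption (decode (α := β) x.1.2) : Part β)) :=
      ((Primrec.decode.comp (Primrec.snd.comp Primrec.fst)).to_comp).ofOption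
    refine Partrec.bind hd1 (Partrec.bind hd2 ?_)
    refine Partrec.map ?_ (Computable.encode.comp Computable.snd).to₂
    refine hφ.comp ?_
    refine Computable.pair (Computable.snd.comp Computable.fst) (Computable.pair ?_ Computable.snd)
    exact (primrec_restOf.to_comp).comp (Computable.fst.comp (Computable.fst.comp Computable.fst))
  obtain ⟨c, hc⟩ := M_opt ψ hψ
  refine ⟨c + 2, ?_⟩
  intro g p b a h
  have h1 : encode a ∈ ψ (putNum (encode g) p) (encode b) := by
    simp only [ψ, numOf_putNum, restOf_putNum, encodek, Part.coe_some, Part.bind_some,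
      Part.mem_map_iff]
    exact ⟨a, by simpa using h, rfl⟩
  have h2 := K_le a b _ (hc _ _ _ h1)
  rw [List.length_append, List.length_replicate, List.length_cons, length_putNum] at h2
  omega

end

/-! ### Lists of all strings -/

/-- all strings of length `n` -/
def allLen (n : ℕ) : List (List Bool) :=
  Nat.rec [[]] (fun _ L => L.map (List.cons false) ++ L.map (List.cons true)) n

@[simp] theorem allLen_zero : allLen 0 = [[]] := rfl

theorem allLen_succ (n : ℕ) :
    allLen (n + 1) = (allLen n).map (List.cons false) ++ (allLen n).map (List.cons true) := rfl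

theorem mem_allLen (n : ℕ) (l : List Bool) : l ∈ allLen n ↔ l.length = n := by
  induction n generalizing l with
  | zero => simp
  | succ n ih =>
    rw [allLen_succ]
    cases l with
    | nil => simp
    | cons b l => cases b <;> simp [ih]

theorem length_allLen (n : ℕ) : (allLen n).length = 2 ^ n := by
  induction n with
  | zero => simp
  | succ n ih => rw [allLen_succ]; simp [ih]; ring

theorem nodup_allLen (n : ℕ) : (allLen n).Nodup := by
  induction n with
  | zero => simp
  | succ n ih =>
    rw [allLen_succ]
    refine List.Nodup.append (ih.map (List.cons_injective)) (ih.map (List.cons_injective)) ?_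
    intro x hx hy
    simp only [List.mem_map] at hx hy
    obtain ⟨a, _, rfl⟩ := hx
    obtain ⟨b, _, hb⟩ := hy
    simp at hb

theorem primrec_allLen : Primrec allLen := by
  have hc : ∀ b : Bool, Primrec₂ (fun (_ : ℕ × List (List Bool)) (x : List Bool) => b :: x) :=
    fun b => (Primrec.list_cons.comp (Primrec.const b) Primrec.snd).to₂
  have h1 : Primrec₂ (fun (_ : ℕ) (L : List (List Bool)) =>
      L.map (List.cons false) ++ L.map (List.cons true)) := by
    exact ((Primrec.list_append (α := List Bool)).comp
      (Primrec.list_map (Primrec.snd (α := ℕ) (β := List (List Bool))) (hc false))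
      (Primrec.list_map (Primrec.snd (α := ℕ) (β := List (List Bool))) (hc true))).to₂
  exact Primrec.nat_rec₁ _ h1

/-- all strings of length at most `n` -/
def allLe (n : ℕ) : List (List Bool) := (List.range (n + 1)).flatMap allLen

theorem mem_allLe (n : ℕ) (l : List Bool) : l ∈ allLe n ↔ l.length ≤ n := by
  unfold allLe
  simp only [List.mem_flatMap, List.mem_range, mem_allLen]
  constructor
  · rintro ⟨a, ha, rfl⟩; omega
  · intro h; exact ⟨l.length, by omega, rfl⟩

theorem length_allLe (n : ℕ) : (allLe n).length + 1 = 2 ^ (n + 1) := by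
  unfold allLe
  induction n with
  | zero => simp
  | succ n ih =>
    rw [List.range_succ, List.flatMap_append, List.length_append]
    simp only [List.flatMap_cons, List.flatMap_nil, List.append_nil, length_allLen]
    rw [pow_succ 2 (n + 1)]
    omega

theorem primrec_allLe : Primrec allLe := by
  have h := Primrec.list_flatMap (f := fun n : ℕ => List.range (n + 1))
    (g := fun (_ : ℕ) (k : ℕ) => allLen k)
    (Primrec.list_range.comp Primrec.succ) (primrec_allLen.comp Primrec.snd).to₂
  exact h

/-- Fewer than `2 ^ (m + 1)` objects have complexity at most `m`. -/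
theorem card_le {α β : Type*} [Primcodable α] [Primcodable β] (b : β) (m : ℕ) (S : Finset α)
    (hS : ∀ a ∈ S, K a b ≤ m) : S.card < 2 ^ (m + 1) := by
  classical
  have hf : ∀ a : α, ∃ p : List Bool, encode a ∈ M p (encode b) ∧ p.length = K a b :=
    fun a => K_spec a b
  choose f hf1 hf2 using hf
  have h1 : S.card ≤ ((allLe m).toFinset).card := by
    refine Finset.card_le_card_of_injOn f ?_ ?_
    · intro a ha
      have := hS a ha
      simp only [List.coe_toFinset, Set.mem_ofPred_eq, mem_allLe, hf2]
      exact this
    · intro a _ a' _ h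
      have h2 := hf1 a
      rw [h] at h2
      exact encode_injective (Part.mem_unique h2 (hf1 a'))
  have h2 : ((allLe m).toFinset).card ≤ (allLe m).length := List.toFinset_card_le _
  have h3 := length_allLe m
  omega

theorem card_lt {α β : Type*} [Primcodable α] [Primcodable β] (b : β) (m : ℕ) (S : Finset α)
    (hS : ∀ a ∈ S, K a b < m) : S.card < 2 ^ m := by
  cases m with
  | zero =>
    have : S = ∅ := by
      apply Finset.eq_empty_of_forall_notMem
      intro a ha
      exact absurd (hS a ha) (by omega)
    simp [this]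
  | succ m => exact card_le b m S (fun a ha => by have := hS a ha; omega)

/-! ### Enumerations without repetition -/

section collect
variable {α : Type*} [DecidableEq α]

/-- elements enumerated in the first `t` steps, without repetition, in order of appearance -/
def collect (e : ℕ → Option α) (t : ℕ) : List α :=
  Nat.rec [] (fun i L => (e i).elim L (fun a => if a ∈ L then L else L ++ [a])) t

@[simp] theorem collect_zero (e : ℕ → Option α) : collect e 0 = [] := rfl

theorem collect_succ (e : ℕ → Option α) (t : ℕ) :
    collect e (t + 1) =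
      (e t).elim (collect e t) (fun a => if a ∈ collect e t then collect e t else collect e t ++ [a]) :=
  rfl

theorem collect_prefix_succ (e : ℕ → Option α) (t : ℕ) : collect e t <+: collect e (t + 1) := by
  rw [collect_succ]
  cases h : e t with
  | none => simp
  | some a =>
    simp only [Option.elim_some]
    split_ifs
    · simp
    · exact List.prefix_append _ _

theorem collect_prefix (e : ℕ → Option α) {t t' : ℕ} (h : t ≤ t') :
    collect e t <+: collect e t' := by
  induction t', h using Nat.le_induction with
  | base => exact List.prefix_rfl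
  | succ n _ ih => exact ih.trans (collect_prefix_succ e n)

theorem nodup_collect (e : ℕ → Option α) (t : ℕ) : (collect e t).Nodup := by
  induction t with
  | zero => simp
  | succ t ih =>
    rw [collect_succ]
    cases h : e t with
    | none => simpa using ih
    | some a =>
      simp only [Option.elim_some]
      split_ifs with ha
      · exact ih
      · rw [List.nodup_append]
        refine ⟨ih, by simp, ?_⟩
        intro x hx y hy
        simp only [List.mem_singleton] at hy
        rintro rfl
        exact ha (hy ▸ hx)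

theorem mem_collect (e : ℕ → Option α) (t : ℕ) (a : α) :
    a ∈ collect e t ↔ ∃ i < t, e i = some a := by
  induction t with
  | zero => simp
  | succ t ih =>
    rw [collect_succ]
    constructor
    · intro h
      cases he : e t with
      | none =>
        simp only [he, Option.elim_none] at h
        obtain ⟨i, hi, h⟩ := ih.1 h
        exact ⟨i, by omega, h⟩
      | some b =>
        simp only [he, Option.elim_some] at h
        split_ifs at h with hb
        · obtain ⟨i, hi, h⟩ := ih.1 h
          exact ⟨i, by omega, h⟩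
        · rw [List.mem_append] at h
          rcases h with h | h
          · obtain ⟨i, hi, h⟩ := ih.1 h
            exact ⟨i, by omega, h⟩
          · simp only [List.mem_singleton] at h
            subst h
            exact ⟨t, by omega, he⟩
    · rintro ⟨i, hi, h⟩
      rcases Nat.lt_succ_iff_lt_or_eq.1 hi with hi | rfl
      · have h1 := ih.2 ⟨i, hi, h⟩
        cases he : e t with
        | none => simpa using h1
        | some b =>
          simp only [Option.elim_some]
          split_ifs
          · exact h1
          · exact List.mem_append_left _ h1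
      · rw [h]
        simp only [Option.elim_some]
        split_ifs with hb
        · exact hb
        · simp

/-- the `i`-th enumerated element -/
def nth (e : ℕ → Option α) (i : ℕ) : Part α := Nat.rfindOpt (fun t => (collect e t)[i]?)

theorem mem_nth (e : ℕ → Option α) (i : ℕ) (a : α) :
    a ∈ nth e i ↔ ∃ t, (collect e t)[i]? = some a := by
  unfold nth
  rw [Nat.rfindOpt_mono]
  · rfl
  · intro a m n hmn h
    obtain ⟨l, hl⟩ := collect_prefix e hmn
    have h' : (collect e m)[i]? = some a := h
    show (collect e n)[i]? = some a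
    rw [← hl, List.getElem?_append_left]
    · exact h'
    · exact (List.getElem?_eq_some_iff.1 h').1

end collect

section
variable {α β γ δ : Type*} [Primcodable α] [Primcodable β] [Primcodable γ] [Primcodable δ]

theorem primrec_collect [DecidableEq α] {en : γ → ℕ → Option α} (hen : Primrec₂ en) :
    Primrec₂ (fun g t => collect (en g) t) := by
  unfold collect
  have hmem : PrimrecRel (fun (a : α) (L : List α) => a ∈ L) := by
    have := (PrimrecRel.exists_mem_list (R := fun (x : α) (a : α) => x = a) Primrec.eq)
    refine (this.swap).of_eq ?_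
    intro a L
    simp [Function.swap]
  have hstep : Primrec₂ (fun (g : γ) (x : ℕ × List α) =>
      (en g x.1).elim x.2 (fun a => if a ∈ x.2 then x.2 else x.2 ++ [a])) := by
    have h1 : Primrec (fun y : γ × (ℕ × List α) => en y.1 y.2.1) :=
      hen.comp Primrec.fst (Primrec.fst.comp Primrec.snd)
    have h2 : Primrec (fun y : γ × (ℕ × List α) => y.2.2) := Primrec.snd.comp Primrec.snd
    have h3 : Primrec₂ (fun (y : γ × (ℕ × List α)) (a : α) =>
        if a ∈ y.2.2 then y.2.2 else y.2.2 ++ [a]) := by
      have hL : Primrec (fun z : (γ × (ℕ × List α)) × α => z.1.2.2) :=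
        Primrec.snd.comp (Primrec.snd.comp Primrec.fst)
      exact Primrec.ite (hmem.comp Primrec.snd hL) hL
        (Primrec.list_concat.comp hL Primrec.snd)
    refine (Primrec.option_casesOn h1 h2 h3).to₂.of_eq ?_
    rintro g ⟨i, L⟩
    dsimp only
    cases en g i <;> rfl
  have hstep' : Primrec₂ (fun (p : γ × ℕ) (x : ℕ × List α) =>
      (en p.1 x.1).elim x.2 (fun a => if a ∈ x.2 then x.2 else x.2 ++ [a])) :=
    hstep.comp (Primrec.fst.comp Primrec.fst) Primrec.snd
  exact Primrec.nat_rec' Primrec.snd (Primrec.const []) hstep'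
end

/-! ### The index lemma -/

section
variable {α β γ δ : Type*} [Primcodable α] [Primcodable β] [Primcodable γ] [Primcodable δ]

/-- Elements of a uniformly enumerated set of size at most `2 ^ m` have complexity about `m`. -/
theorem K_index [DecidableEq α] {en : γ × β → ℕ → Option α} (hen : Primrec₂ en) :
    ∃ c : ℕ, ∀ (g : γ) (b : β) (m : ℕ),
      (∀ S : Finset α, (∀ a ∈ S, ∃ t, en (g, b) t = some a) → S.card ≤ 2 ^ m) →
      ∀ a, (∃ t, en (g, b) t = some a) → K a b ≤ m + 2 * Nat.size (encode g) + c := by
  let φ : γ × List Bool × β →. α := fun x => nth (en (x.1, x.2.2)) (val x.2.1)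
  have hφ : Partrec φ := by
    have h1 : Computable₂ (fun (x : γ × List Bool × β) (t : ℕ) =>
        (collect (en (x.1, x.2.2)) t)[val x.2.1]?) := by
      refine Primrec.to_comp ?_
      refine Primrec.list_getElem?.comp ?_ ?_
      · exact (primrec_collect hen).comp
          (Primrec.pair (Primrec.fst.comp Primrec.fst)
            (Primrec.snd.comp (Primrec.snd.comp Primrec.fst))) Primrec.snd
      · exact primrec_val.comp (Primrec.fst.comp (Primrec.snd.comp Primrec.fst))
    exact Partrec.rfindOpt h1
  obtain ⟨c, hc⟩ := K_param φ hφ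
  refine ⟨c, ?_⟩
  intro g b m hS a ha
  obtain ⟨t, ht⟩ := ha
  have hmem : a ∈ collect (en (g, b)) (t + 1) := (mem_collect _ _ _).2 ⟨t, by omega, ht⟩
  obtain ⟨i, hi, hia⟩ := List.getElem_of_mem hmem
  have hcard : (collect (en (g, b)) (t + 1)).length ≤ 2 ^ m := by
    have h1 := hS (collect (en (g, b)) (t + 1)).toFinset (by
      intro x hx
      rw [List.mem_toFinset, mem_collect] at hx
      obtain ⟨j, _, hj⟩ := hx
      exact ⟨j, hj⟩)
    rwa [List.toFinset_card_of_nodup (nodup_collect _ _)] at h1
  obtain ⟨p, hp1, hp2⟩ := exists_val i m (by omega)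
  have h2 := hc g p b a (by
    show a ∈ nth (en (g, b)) (val p)
    rw [mem_nth]
    refine ⟨t + 1, ?_⟩
    rw [hp2, List.getElem?_eq_getElem hi, hia])
  omega

/-! ### Stepped complexity -/

/-- time-bounded run of the universal machine -/
def MS (t : ℕ) (q : List Bool) (y : ℕ) : Option ℕ :=
  Code.evaln t (Denumerable.ofNat Code (ones q)) (Nat.pair (encode (afterOnes q)) y)

theorem mem_M_iff (q : List Bool) (y s : ℕ) : s ∈ M q y ↔ ∃ t, MS t q y = some s :=
  Code.evaln_complete

theorem MS_mono {t t' : ℕ} (h : t ≤ t') {q : List Bool} {y s : ℕ} (hs : MS t q y = some s) :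
    MS t' q y = some s :=
  Code.evaln_mono h hs

theorem primrec_MS : Primrec (fun x : ℕ × List Bool × ℕ => MS x.1 x.2.1 x.2.2) := by
  unfold MS
  refine Code.primrec_evaln.comp (Primrec.pair (Primrec.pair Primrec.fst ?_) ?_)
  · exact (Primrec.ofNat Code).comp (primrec_ones.comp (Primrec.fst.comp Primrec.snd))
  · exact Primrec₂.natPair.comp
      (Primrec.encode.comp (primrec_afterOnes.comp (Primrec.fst.comp Primrec.snd)))
      (Primrec.snd.comp Primrec.snd)

/-- `K a b ≤ m` is witnessed in time `t` -/
def Kle (t m : ℕ) (a : α) (b : β) : Prop :=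
  ∃ p ∈ allLe m, MS t p (encode b) = some (encode a)

instance (t m : ℕ) (a : α) (b : β) : Decidable (Kle t m a b) := by
  unfold Kle; infer_instance

theorem K_le_iff (m : ℕ) (a : α) (b : β) : K a b ≤ m ↔ ∃ t, Kle t m a b := by
  constructor
  · intro h
    obtain ⟨p, hp, hl⟩ := K_spec a b
    obtain ⟨t, ht⟩ := (mem_M_iff _ _ _).1 hp
    exact ⟨t, p, (mem_allLe _ _).2 (by omega), ht⟩
  · rintro ⟨t, p, hp, ht⟩
    have h1 := K_le a b p ((mem_M_iff _ _ _).2 ⟨t, ht⟩)
    have h2 := (mem_allLe _ _).1 hp
    omega

theorem Kle_mono {t t' m : ℕ} (h : t ≤ t') {a : α} {b : β} (hk : Kle t m a b) :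
    Kle t' m a b := by
  obtain ⟨p, hp, ht⟩ := hk
  exact ⟨p, hp, MS_mono h ht⟩

theorem primrec_Kle :
    PrimrecPred (fun x : ℕ × ℕ × α × β => Kle x.1 x.2.1 x.2.2.1 x.2.2.2) := by
  have hR : PrimrecRel (fun (p : List Bool) (x : ℕ × ℕ × ℕ) => MS x.1 p x.2.1 = some x.2.2) := by
    refine Primrec.eq.comp₂ ?_ ?_
    · exact (primrec_MS.comp (Primrec.pair (Primrec.fst.comp Primrec.snd)
        (Primrec.pair Primrec.fst (Primrec.fst.comp (Primrec.snd.comp Primrec.snd))))).to₂
    · exact (Primrec.option_some.comp (Primrec.snd.comp (Primrec.snd.comp Primrec.snd))).to₂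
  have h2 := hR.exists_mem_list
  have h3 := h2.comp (f := fun x : ℕ × ℕ × α × β => allLe x.2.1)
    (g := fun x : ℕ × ℕ × α × β => ((x.1, encode x.2.2.2, encode x.2.2.1) : ℕ × ℕ × ℕ))
    (primrec_allLe.comp (Primrec.fst.comp Primrec.snd))
    (Primrec.pair Primrec.fst (Primrec.pair
      (Primrec.encode.comp (Primrec.snd.comp (Primrec.snd.comp Primrec.snd)))
      (Primrec.encode.comp (Primrec.fst.comp (Primrec.snd.comp Primrec.snd)))))
  exact h3

end

/-! ### Sizes -/

theorem size_pair_le (a b : ℕ) : Nat.size (Nat.pair a b) ≤ 2 * max (Nat.size a) (Nat.size b) := by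
  rw [Nat.size_le]
  have h1 := Nat.pair_lt_max_add_one_sq a b
  have h2 : max a b + 1 ≤ 2 ^ max (Nat.size a) (Nat.size b) := by
    have ha : a < 2 ^ Nat.size a := Nat.lt_size_self a
    have hb : b < 2 ^ Nat.size b := Nat.lt_size_self b
    have ha' : 2 ^ Nat.size a ≤ 2 ^ max (Nat.size a) (Nat.size b) :=
      Nat.pow_le_pow_right (by norm_num) (le_max_left _ _)
    have hb' : 2 ^ Nat.size b ≤ 2 ^ max (Nat.size a) (Nat.size b) :=
      Nat.pow_le_pow_right (by norm_num) (le_max_right _ _)
    have : max a b < 2 ^ max (Nat.size a) (Nat.size b) := max_lt (by omega) (by omega)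
    omega
  calc Nat.pair a b < (max a b + 1) ^ 2 := h1
    _ ≤ (2 ^ max (Nat.size a) (Nat.size b)) ^ 2 := Nat.pow_le_pow_left h2 2
    _ = 2 ^ (2 * max (Nat.size a) (Nat.size b)) := by rw [← pow_mul]; ring_nf

theorem size_mono {a b : ℕ} (h : a ≤ b) : Nat.size a ≤ Nat.size b := Nat.size_le_size h

theorem size_add_le (a b : ℕ) : Nat.size (a + b) ≤ max (Nat.size a) (Nat.size b) + 1 := by
  rw [Nat.size_le, pow_succ]
  have ha : a < 2 ^ Nat.size a := Nat.lt_size_self a
  have hb : b < 2 ^ Nat.size b := Nat.lt_size_self b
  have ha' : 2 ^ Nat.size a ≤ 2 ^ max (Nat.size a) (Nat.size b) :=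
    Nat.pow_le_pow_right (by norm_num) (le_max_left _ _)
  have hb' : 2 ^ Nat.size b ≤ 2 ^ max (Nat.size a) (Nat.size b) :=
    Nat.pow_le_pow_right (by norm_num) (le_max_right _ _)
  omega

theorem size_mul_le (a b : ℕ) : Nat.size (a * b) ≤ Nat.size a + Nat.size b := by
  rw [Nat.size_le, pow_add]
  exact Nat.mul_lt_mul'' (Nat.lt_size_self a) (Nat.lt_size_self b)

theorem size_le_self (a : ℕ) : Nat.size a ≤ a := by
  rw [Nat.size_le]; exact Nat.lt_two_pow_self

/-! ### Basic inequalities -/

section
variable {α β γ δ : Type*} [Primcodable α] [Primcodable β] [Primcodable γ] [Primcodable δ]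

@[simp] theorem size_encode_unit (u : Unit) : Nat.size (encode u) = 0 := by
  cases u; simp

/-- Computable postprocessing and preprocessing. -/
theorem K_comp (F : δ → β → α) (hF : Computable₂ F) (G : β → γ) (hG : Computable G) :
    ∃ c : ℕ, ∀ d b, K (F d b) b ≤ K d (G b) + c := by
  let φ : Unit × List Bool × β →. α := fun x =>
    (M x.2.1 (encode (G x.2.2))).bind fun d' =>
      (Part.ofOption (decode (α := δ) d')).map fun d => F d x.2.2
  have hφ : Partrec φ := by
    refine Partrec.bind ?_ ?_
    · exact partrec_M.comp (Computable.fst.comp Computable.snd)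
        (Computable.encode.comp (hG.comp (Computable.snd.comp Computable.snd)))
    · refine Partrec.map ?_ ?_
      · exact (Computable.decode.comp Computable.snd).ofOption
      · exact (hF.comp Computable.snd
          (Computable.snd.comp (Computable.snd.comp (Computable.fst.comp Computable.fst)))).to₂
  obtain ⟨c, hc⟩ := K_param φ hφ
  refine ⟨c, fun d b => ?_⟩
  obtain ⟨p, hp, hl⟩ := K_spec d (G b)
  have h := hc () p b (F d b) (by
    simp only [φ, Part.mem_bind_iff]
    refine ⟨encode d, hp, ?_⟩
    simp)
  simp only [size_encode_unit] at h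
  omega

/-- Chain rule, easy direction, with condition. -/
theorem K_chain : ∃ c : ℕ, ∀ (a : α) (b : β) (y : γ),
    K b y ≤ K a y + K b (a, y) + 2 * Nat.size (K a y) + c := by
  let φ : ℕ × List Bool × γ →. β := fun x =>
    (M (x.2.1.take x.1) (encode x.2.2)).bind fun a' =>
      (M (x.2.1.drop x.1) (Nat.pair a' (encode x.2.2))).bind fun b' =>
        Part.ofOption (decode (α := β) b')
  have hφ : Partrec φ := by
    refine Partrec.bind ?_ (Partrec.bind ?_ ?_)
    · refine partrec_M.comp ?_ ?_
      · exact (Primrec.list_take.comp Primrec.fst (Primrec.fst.comp Primrec.snd)).to_comp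
      · exact (Primrec.encode.comp (Primrec.snd.comp Primrec.snd)).to_comp
    · refine partrec_M.comp ?_ ?_
      · exact (Primrec.list_drop.comp (Primrec.fst.comp Primrec.fst)
          (Primrec.fst.comp (Primrec.snd.comp Primrec.fst))).to_comp
      · exact (Primrec₂.natPair.comp Primrec.snd
          (Primrec.encode.comp (Primrec.snd.comp (Primrec.snd.comp Primrec.fst)))).to_comp
    · exact (Computable.decode.comp Computable.snd).ofOption
  obtain ⟨c, hc⟩ := K_param φ hφ
  refine ⟨c, fun a b y => ?_⟩
  obtain ⟨p, hp, hl⟩ := K_spec a y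
  obtain ⟨q, hq, hl'⟩ := K_spec b (a, y)
  have h := hc p.length (p ++ q) y b (by
    simp only [φ, Part.mem_bind_iff, List.take_left, List.drop_left]
    refine ⟨encode a, hp, encode b, by simpa using hq, by simp⟩)
  simp only [List.length_append, encode_nat] at h
  rw [hl, hl'] at h
  omega

/-- Symmetry of information, hard direction, for `a = f b`, with a condition `y`. -/
theorem K_hard [DecidableEq α] [DecidableEq β] (f : β → α) (hf : Primrec f) : ∃ c : ℕ, ∀ (b : β) (y : γ),
    K (f b) y + K b (f b, y) ≤ K b y + 6 * Nat.size (K b y) + c := by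
  -- first enumeration
  let en1 : ℕ × (α × γ) → ℕ → Option β := fun x t =>
    (decode (α := ℕ × β) t).bind fun z =>
      if f z.2 = x.2.1 ∧ Kle z.1 x.1 z.2 x.2.2 then some z.2 else none
  have hen1 : Primrec₂ en1 := by
    refine Primrec.option_bind (Primrec.decode.comp Primrec.snd) ?_
    refine Primrec.ite (PrimrecPred.and ?_ ?_) ?_ (Primrec.const none)
    · exact Primrec.eq.comp (hf.comp (Primrec.snd.comp Primrec.snd))
        (Primrec.fst.comp (Primrec.snd.comp (Primrec.fst.comp Primrec.fst)))
    · exact primrec_Kle.comp (Primrec.pair (Primrec.fst.comp Primrec.snd)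
        (Primrec.pair (Primrec.fst.comp (Primrec.fst.comp Primrec.fst))
          (Primrec.pair (Primrec.snd.comp Primrec.snd)
            (Primrec.snd.comp (Primrec.snd.comp (Primrec.fst.comp Primrec.fst))))))
    · exact Primrec.option_some.comp (Primrec.snd.comp Primrec.snd)
  have mem1 : ∀ m a y b, (∃ t, en1 (m, (a, y)) t = some b) ↔ (f b = a ∧ K b y ≤ m) := by
    intro m a y b
    constructor
    · rintro ⟨t, ht⟩
      simp only [en1, Option.bind_eq_some_iff] at ht
      obtain ⟨z, _, hz⟩ := ht
      split_ifs at hz with h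
      cases hz
      exact ⟨h.1, (K_le_iff _ _ _).2 ⟨_, h.2⟩⟩
    · rintro ⟨h1, h2⟩
      obtain ⟨t, ht⟩ := (K_le_iff _ _ _).1 h2
      refine ⟨encode (t, b), ?_⟩
      simp only [en1, encodek, Option.bind_some]
      rw [if_pos ⟨h1, ht⟩]
  obtain ⟨c1, hc1⟩ := K_index hen1
  -- second enumeration
  let en2 : (ℕ × ℕ) × γ → ℕ → Option α := fun x t =>
    (decode (α := ℕ × α) t).bind fun z =>
      if 2 ^ x.1.2 < (collect (en1 (x.1.1, (z.2, x.2))) z.1).length then some z.2 else none
  have hpow : Primrec₂ (fun a b : ℕ => a ^ b) := Primrec₂.unpaired'.1 Nat.Primrec.pow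
  have hen2 : Primrec₂ en2 := by
    refine Primrec.option_bind (Primrec.decode.comp Primrec.snd) ?_
    refine Primrec.ite ?_ ?_ (Primrec.const none)
    · refine Primrec.nat_lt.comp ?_ ?_
      · exact hpow.comp (Primrec.const 2)
          (Primrec.snd.comp (Primrec.fst.comp (Primrec.fst.comp Primrec.fst)))
      · refine Primrec.list_length.comp ((primrec_collect hen1).comp ?_ ?_)
        · exact Primrec.pair (Primrec.fst.comp (Primrec.fst.comp (Primrec.fst.comp Primrec.fst)))
            (Primrec.pair (Primrec.snd.comp Primrec.snd)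
              (Primrec.snd.comp (Primrec.fst.comp Primrec.fst)))
        · exact Primrec.fst.comp Primrec.snd
    · exact Primrec.option_some.comp (Primrec.snd.comp Primrec.snd)
  obtain ⟨c2, hc2⟩ := K_index hen2
  obtain ⟨c3, hc3⟩ := K_comp (fun (b : β) (_ : γ) => f b)
    (hf.comp Primrec.fst).to_comp.to₂ (fun y : γ => y) Computable.id
  refine ⟨c1 + c2 + c3 + 10, ?_⟩
  intro b y
  set m := K b y with hm
  set J := K b (f b, y) with hJ
  by_cases hsmall : J ≤ 2 * Nat.size m + c1
  · have := hc3 b y
    omega
  push Not at hsmall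
  obtain ⟨T, hT⟩ : ∃ T, J = T + 2 * Nat.size m + c1 + 1 :=
    ⟨J - (2 * Nat.size m + c1 + 1), by omega⟩
  -- property of elements of en2
  have big : ∀ a, (∃ t, en2 ((m, T), y) t = some a) →
      ∃ S : Finset β, (∀ b' ∈ S, f b' = a ∧ K b' y ≤ m) ∧ 2 ^ T < S.card := by
    rintro a ⟨t, ht⟩
    simp only [en2, Option.bind_eq_some_iff] at ht
    obtain ⟨z, _, hz⟩ := ht
    split_ifs at hz with h
    cases hz
    refine ⟨(collect (en1 (m, (z.2, y))) z.1).toFinset, ?_, ?_⟩
    · intro b' hb'
      rw [List.mem_toFinset, mem_collect] at hb'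
      obtain ⟨i, _, hi⟩ := hb'
      exact (mem1 _ _ _ _).1 ⟨i, hi⟩
    · rwa [List.toFinset_card_of_nodup (nodup_collect _ _)]
  have cardA : ∀ A : Finset α, (∀ a ∈ A, ∃ t, en2 ((m, T), y) t = some a) →
      A.card * 2 ^ T ≤ 2 ^ (m + 1) := by
    intro A hA
    have hch : ∀ a, ∃ S : Finset β, a ∈ A → ((∀ b' ∈ S, f b' = a ∧ K b' y ≤ m) ∧ 2 ^ T < S.card) := by
      intro a
      by_cases ha : a ∈ A
      · obtain ⟨S, hS⟩ := big a (hA a ha)
        exact ⟨S, fun _ => hS⟩
      · exact ⟨∅, fun h => absurd h ha⟩
    choose S hS using hch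
    have hdisj : ∀ a ∈ A, ∀ a' ∈ A, a ≠ a' → Disjoint (S a) (S a') := by
      intro a ha a' ha' hne
      rw [Finset.disjoint_left]
      intro x hx hx'
      apply hne
      rw [← ((hS a ha).1 x hx).1, ((hS a' ha').1 x hx').1]
    have h1 := card_le y m (A.biUnion S) (by
      intro x hx
      rw [Finset.mem_biUnion] at hx
      obtain ⟨a, ha, hx⟩ := hx
      exact ((hS a ha).1 x hx).2)
    rw [Finset.card_biUnion hdisj] at h1
    have h2 : A.card * 2 ^ T ≤ ∑ a ∈ A, (S a).card := by
      rw [← smul_eq_mul]
      exact Finset.card_nsmul_le_sum _ _ _ (fun a ha => (hS a ha).2.le)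
    omega
  -- the element f b is in en2
  have hex : ∃ t, en2 ((m, T), y) t = some (f b) := by
    by_contra hcon
    have hW : ∀ S : Finset β, (∀ a ∈ S, ∃ t, en1 (m, (f b, y)) t = some a) → S.card ≤ 2 ^ T := by
      intro S hS
      by_contra hlt
      push Not at hlt
      apply hcon
      -- find a time at which all elements of S have appeared
      have : ∃ N, ∀ a ∈ S, a ∈ collect (en1 (m, (f b, y))) N := by
        choose! g hg using hS
        refine ⟨(S.sup g) + 1, fun a ha => (mem_collect _ _ _).2 ⟨g a, ?_, hg a ha⟩⟩
        exact Nat.lt_succ_of_le (Finset.le_sup ha)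
      obtain ⟨N, hN⟩ := this
      refine ⟨encode (N, f b), ?_⟩
      simp only [en2, encodek, Option.bind_some]
      rw [if_pos]
      calc 2 ^ T < S.card := hlt
        _ ≤ (collect (en1 (m, (f b, y))) N).toFinset.card :=
          Finset.card_le_card (fun a ha => List.mem_toFinset.2 (hN a ha))
        _ ≤ _ := List.toFinset_card_le _
    have h3 := hc1 m (f b, y) T hW b ((mem1 _ _ _ _).2 ⟨rfl, le_rfl⟩)
    simp only [encode_nat] at h3
    omega
  have hTm : T ≤ m + 1 := by
    have h1 := cardA {f b} (by
      intro a ha
      rw [Finset.mem_singleton] at ha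
      rw [ha]; exact hex)
    simp only [Finset.card_singleton, one_mul] at h1
    exact (Nat.pow_le_pow_iff_right (by norm_num)).1 h1
  have hA : ∀ A : Finset α, (∀ a ∈ A, ∃ t, en2 ((m, T), y) t = some a) →
      A.card ≤ 2 ^ (m + 1 - T) := by
    intro A hA
    have h1 := cardA A hA
    have h2 : 2 ^ (m + 1) = 2 ^ (m + 1 - T) * 2 ^ T := by
      rw [← pow_add]; congr 1; omega
    rw [h2] at h1
    exact Nat.le_of_mul_le_mul_right h1 (by positivity)
  have h4 := hc2 (m, T) y (m + 1 - T) hA (f b) hex
  have h5 : Nat.size (encode ((m, T) : ℕ × ℕ)) ≤ 2 * (Nat.size m + 2) := by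
    rw [encode_prod_val]
    simp only [encode_nat]
    refine (size_pair_le _ _).trans ?_
    have h6 : Nat.size T ≤ Nat.size m + 2 := by
      refine (size_mono hTm).trans ((size_add_le m 1).trans ?_)
      have : Nat.size 1 = 1 := Nat.size_one
      rw [this]
      omega
    omega
  omega

end

end Pool.Agent.Helper760.Kolm
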