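import Mathlib
import Pool.Agent.Helper760.Kolm

set_option autoImplicit false

namespace Pool.Agent.Helper760.Kolm

open Encodable

section
variable {α β γ δ : Type*} [Primcodable α] [Primcodable β] [Primcodable γ] [Primcodable δ]

theorem K_chain0 : ∃ c : ℕ, ∀ (a : α) (b : β),
    K b () ≤ K a () + K b a + 2 * Nat.size (K a ()) + c := by
  obtain ⟨c1, h1⟩ := K_chain (α := α) (β := β) (γ := Unit)
  obtain ⟨c2, h2⟩ := K_comp (fun (b : β) (_ : α × Unit) => b) (Computable.fst).to₂
    (fun a : α × Unit => a.1) Computable.fst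
  refine ⟨c1 + c2, fun a b => ?_⟩
  have e1 := h1 a b ()
  have e2 : K b (a, ()) ≤ K b a + c2 := h2 b (a, ())
  omega

theorem K_hard0 [DecidableEq α] [DecidableEq β] (f : β → α) (hf : Primrec f) : ∃ c : ℕ, ∀ (b : β),
    K (f b) () + K b (f b) ≤ K b () + 6 * Nat.size (K b ()) + c := by
  obtain ⟨c1, h1⟩ := K_hard (γ := Unit) f hf
  obtain ⟨c2, h2⟩ := K_comp (fun (b : β) (_ : α) => b) (Computable.fst).to₂
    (fun a : α => (a, ())) (Computable.pair Computable.id (Computable.const ()))
  refine ⟨c1 + c2, fun b => ?_⟩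
  have := h1 b ()
  have := h2 b (f b)
  omega

end

/-- search for the index of an element in an enumeration -/
def idxIn {α : Type*} [DecidableEq α] (e : ℕ → Option α) (a : α) : Part ℕ :=
  Nat.rfindOpt (fun t => if a ∈ collect e t then some ((collect e t).idxOf a) else none)

theorem mem_idxIn {α : Type*} [DecidableEq α] (e : ℕ → Option α) (a : α) (i t : ℕ)
    (h : (collect e t)[i]? = some a) : i ∈ idxIn e a := by
  unfold idxIn
  rw [Nat.rfindOpt_mono]
  · refine ⟨t, ?_⟩
    obtain ⟨hi, hia⟩ := List.getElem?_eq_some_iff.1 h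
    have hmem : a ∈ collect e t := hia ▸ List.getElem_mem hi
    rw [if_pos hmem]
    have : (collect e t).idxOf a = i := by
      rw [← hia]
      exact (nodup_collect e t).idxOf_getElem i hi
    rw [this]
    rfl
  · intro j m n hmn hj
    obtain ⟨l, hl⟩ := collect_prefix e hmn
    have hj' : (if a ∈ collect e m then some ((collect e m).idxOf a) else none) = some j := hj
    show (if a ∈ collect e n then some ((collect e n).idxOf a) else none) = some j
    split_ifs at hj' with hm
    rw [← hl, if_pos (List.mem_append_left _ hm), List.idxOf_append_of_mem hm]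
    exact hj'

/-- sub-tuple selected by a list of indices -/
def sel (idx : List ℕ) (W : List (List Bool)) : List (List Bool) :=
  idx.map (fun i => W.getD i [])

/-- first component -/
def hd (W : List (List Bool)) : List Bool := W.getD 0 []

theorem primrec_sel : Primrec₂ sel := by
  unfold sel
  have h : Primrec₂ (fun (x : List ℕ × List (List Bool)) (i : ℕ) => x.2.getD i []) :=
    (Primrec.list_getD []).comp (Primrec.snd.comp Primrec.fst) Primrec.snd
  exact Primrec.list_map Primrec.fst h

theorem primrec_hd : Primrec hd :=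
  (Primrec.list_getD []).comp Primrec.id (Primrec.const 0)

theorem exists_unif {ι : Type*} (L : List ι) (P : ι → ℕ → Prop)
    (hmono : ∀ i c c', c ≤ c' → P i c → P i c') (h : ∀ i ∈ L, ∃ c, P i c) :
    ∃ c, ∀ i ∈ L, P i c := by
  induction L with
  | nil => exact ⟨0, by simp⟩
  | cons a L ih =>
    obtain ⟨c1, h1⟩ := ih (fun i hi => h i (List.mem_cons_of_mem _ hi))
    obtain ⟨c2, h2⟩ := h a List.mem_cons_self
    refine ⟨max c1 c2, ?_⟩
    intro i hi
    rcases List.mem_cons.1 hi with rfl | hi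
    · exact hmono _ _ _ (le_max_right _ _) h2
    · exact hmono _ _ _ (le_max_left _ _) (h1 i hi)

/-- the enumerated set of typical tuples -/
def Typ (Idx : List (List ℕ)) (len A0 B0 : ℕ) (AB : List (ℕ × ℕ)) (W : List (List Bool)) : Prop :=
  W.length = len ∧ K (hd W) () ≤ A0 ∧ K W (hd W) ≤ B0 ∧
    ∀ r ∈ Idx.zip AB, K (sel r.1 W) () ≤ r.2.1 ∧ K W (sel r.1 W) ≤ r.2.2

/-- stage `t` version -/
def TypS (Idx : List (List ℕ)) (len : ℕ) (g : ℕ × ℕ × List (ℕ × ℕ)) (t : ℕ)
    (W : List (List Bool)) : Prop :=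
  W.length = len ∧ Kle t g.1 (hd W) () ∧ Kle t g.2.1 W (hd W) ∧
    ∀ r ∈ Idx.zip g.2.2, Kle t r.2.1 (sel r.1 W) () ∧ Kle t r.2.2 W (sel r.1 W)

instance (Idx : List (List ℕ)) (len : ℕ) (g : ℕ × ℕ × List (ℕ × ℕ)) (t : ℕ)
    (W : List (List Bool)) : Decidable (TypS Idx len g t W) := by
  unfold TypS; infer_instance

theorem Typ_iff (Idx : List (List ℕ)) (len A0 B0 : ℕ) (AB : List (ℕ × ℕ)) (W : List (List Bool)) :
    Typ Idx len A0 B0 AB W ↔ ∃ t, TypS Idx len (A0, B0, AB) t W := by
  unfold Typ TypS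
  constructor
  · rintro ⟨h1, h2, h3, h4⟩
    obtain ⟨t2, ht2⟩ := (K_le_iff _ _ _).1 h2
    obtain ⟨t3, ht3⟩ := (K_le_iff _ _ _).1 h3
    obtain ⟨t4, ht4⟩ := exists_unif (Idx.zip AB)
      (fun r t => Kle t r.2.1 (sel r.1 W) () ∧ Kle t r.2.2 W (sel r.1 W))
      (fun r t t' htt h => ⟨Kle_mono htt h.1, Kle_mono htt h.2⟩)
      (fun r hr => by
        obtain ⟨ta, hta⟩ := (K_le_iff _ _ _).1 (h4 r hr).1
        obtain ⟨tb, htb⟩ := (K_le_iff _ _ _).1 (h4 r hr).2
        exact ⟨max ta tb, Kle_mono (le_max_left _ _) hta, Kle_mono (le_max_right _ _) htb⟩)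
    refine ⟨max t2 (max t3 t4), h1, Kle_mono (by omega) ht2, Kle_mono (by omega) ht3, ?_⟩
    intro r hr
    exact ⟨Kle_mono (by omega) (ht4 r hr).1, Kle_mono (by omega) (ht4 r hr).2⟩
  · rintro ⟨t, h1, h2, h3, h4⟩
    exact ⟨h1, (K_le_iff _ _ _).2 ⟨t, h2⟩, (K_le_iff _ _ _).2 ⟨t, h3⟩,
      fun r hr => ⟨(K_le_iff _ _ _).2 ⟨t, (h4 r hr).1⟩, (K_le_iff _ _ _).2 ⟨t, (h4 r hr).2⟩⟩⟩

theorem primrec_zip_const (Idx : List (List ℕ)) :
    Primrec (fun AB : List (ℕ × ℕ) => Idx.zip AB) := by
  -- by induction on Idx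
  induction Idx with
  | nil =>
    refine (Primrec.const []).of_eq ?_
    intro AB; simp
  | cons a Idx ih =>
    have h : Primrec₂ (fun (_ : List (ℕ × ℕ)) (x : (ℕ × ℕ) × List (ℕ × ℕ)) =>
        (a, x.1) :: Idx.zip x.2) :=
      (Primrec.list_cons.comp (Primrec.pair (Primrec.const a) (Primrec.fst.comp Primrec.snd))
        (ih.comp (Primrec.snd.comp Primrec.snd))).to₂
    refine (Primrec.list_casesOn Primrec.id (Primrec.const []) h).of_eq ?_
    intro AB
    cases AB <;> rfl

theorem primrec_TypS (Idx : List (List ℕ)) (len : ℕ) :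
    PrimrecPred (fun x : (ℕ × ℕ × List (ℕ × ℕ)) × ℕ × List (List Bool) =>
      TypS Idx len x.1 x.2.1 x.2.2) := by
  unfold TypS
  have hg : Primrec (fun x : (ℕ × ℕ × List (ℕ × ℕ)) × ℕ × List (List Bool) => x.1) := Primrec.fst
  have ht : Primrec (fun x : (ℕ × ℕ × List (ℕ × ℕ)) × ℕ × List (List Bool) => x.2.1) :=
    Primrec.fst.comp Primrec.snd
  have hW : Primrec (fun x : (ℕ × ℕ × List (ℕ × ℕ)) × ℕ × List (List Bool) => x.2.2) :=
    Primrec.snd.comp Primrec.snd
  refine PrimrecPred.and ?_ (PrimrecPred.and ?_ (PrimrecPred.and ?_ ?_))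
  · exact Primrec.eq.comp (Primrec.list_length.comp hW) (Primrec.const len)
  · exact primrec_Kle.comp (Primrec.pair ht (Primrec.pair (Primrec.fst.comp hg)
      (Primrec.pair (primrec_hd.comp hW) (Primrec.const ()))))
  · exact primrec_Kle.comp (Primrec.pair ht (Primrec.pair (Primrec.fst.comp (Primrec.snd.comp hg))
      (Primrec.pair hW (primrec_hd.comp hW))))
  · have hR : PrimrecRel (fun (r : List ℕ × ℕ × ℕ) (y : ℕ × List (List Bool)) =>
        Kle y.1 r.2.1 (sel r.1 y.2) () ∧ Kle y.1 r.2.2 y.2 (sel r.1 y.2)) := by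
      have hr1 : Primrec (fun z : (List ℕ × ℕ × ℕ) × (ℕ × List (List Bool)) => z.1.1) :=
        Primrec.fst.comp Primrec.fst
      have hr2 : Primrec (fun z : (List ℕ × ℕ × ℕ) × (ℕ × List (List Bool)) => z.1.2.1) :=
        Primrec.fst.comp (Primrec.snd.comp Primrec.fst)
      have hr3 : Primrec (fun z : (List ℕ × ℕ × ℕ) × (ℕ × List (List Bool)) => z.1.2.2) :=
        Primrec.snd.comp (Primrec.snd.comp Primrec.fst)
      have hy1 : Primrec (fun z : (List ℕ × ℕ × ℕ) × (ℕ × List (List Bool)) => z.2.1) :=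
        Primrec.fst.comp Primrec.snd
      have hy2 : Primrec (fun z : (List ℕ × ℕ × ℕ) × (ℕ × List (List Bool)) => z.2.2) :=
        Primrec.snd.comp Primrec.snd
      have hs := primrec_sel.comp hr1 hy2
      refine PrimrecPred.and ?_ ?_
      · exact primrec_Kle.comp (Primrec.pair hy1 (Primrec.pair hr2
          (Primrec.pair hs (Primrec.const ()))))
      · exact primrec_Kle.comp (Primrec.pair hy1 (Primrec.pair hr3
          (Primrec.pair hy2 hs)))
    exact (hR.forall_mem_list).comp ((primrec_zip_const Idx).comp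
      (Primrec.snd.comp (Primrec.snd.comp hg))) (Primrec.pair ht hW)

section genlem
variable {γ α : Type*} [Primcodable γ] [Primcodable α] [DecidableEq α]

omit [DecidableEq α] in
theorem primrec_mem : PrimrecRel (fun (a : α) (L : List α) => a ∈ L) := by
  have := (PrimrecRel.exists_mem_list (R := fun (x : α) (a : α) => x = a) Primrec.eq)
  refine (this.swap).of_eq ?_
  intro a L
  simp [Function.swap]

theorem partrec_idxIn {en : γ → ℕ → Option α} (hen : Primrec₂ en) :
    Partrec (fun x : γ × α => idxIn (en x.1) x.2) := by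
  have hL : Primrec (fun y : (γ × α) × ℕ => collect (en y.1.1) y.2) :=
    (primrec_collect hen).comp (Primrec.fst.comp Primrec.fst) Primrec.snd
  have hx : Primrec (fun y : (γ × α) × ℕ => y.1.2) := Primrec.snd.comp Primrec.fst
  have h := Primrec.ite (primrec_mem.comp hx hL)
    (Primrec.option_some.comp (Primrec.list_idxOf.comp hx hL)) (Primrec.const none)
  exact Partrec.rfindOpt h.to_comp.to₂

theorem partrec_nth {en : γ → ℕ → Option α} (hen : Primrec₂ en) :
    Partrec (fun x : γ × ℕ => nth (en x.1) x.2) := by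
  have hL : Primrec (fun y : (γ × ℕ) × ℕ => collect (en y.1.1) y.2) :=
    (primrec_collect hen).comp (Primrec.fst.comp Primrec.fst) Primrec.snd
  have hx : Primrec (fun y : (γ × ℕ) × ℕ => y.1.2) := Primrec.snd.comp Primrec.fst
  have h := Primrec.list_getElem?.comp hL hx
  exact Partrec.rfindOpt h.to_comp.to₂

end genlem

/-! ### Enumerations used in the proof -/

section core

variable (Idx : List (List ℕ)) (len : ℕ)

/-- parameters of the typical set -/
abbrev GP := ℕ × ℕ × List (ℕ × ℕ)

/-- enumeration of the typical set -/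
def enS (x : GP × Unit) (t : ℕ) : Option (List (List Bool)) :=
  (decode (α := ℕ × List (List Bool)) t).bind fun z =>
    if TypS Idx len x.1 z.1 z.2 then some z.2 else none

theorem primrec_enS : Primrec₂ (enS Idx len) := by
  unfold enS
  refine Primrec.option_bind (Primrec.decode.comp Primrec.snd) ?_
  refine Primrec.ite ?_ ?_ (Primrec.const none)
  · exact (primrec_TypS Idx len).comp (Primrec.pair (Primrec.fst.comp (Primrec.fst.comp Primrec.fst))
      Primrec.snd)
  · exact Primrec.option_some.comp (Primrec.snd.comp Primrec.snd)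

theorem mem_enS (g : GP) (W : List (List Bool)) :
    (∃ t, enS Idx len (g, ()) t = some W) ↔ Typ Idx len g.1 g.2.1 g.2.2 W := by
  rw [Typ_iff]
  constructor
  · rintro ⟨t, ht⟩
    simp only [enS, Option.bind_eq_some_iff] at ht
    obtain ⟨z, _, hz⟩ := ht
    split_ifs at hz with h
    cases hz
    exact ⟨_, h⟩
  · rintro ⟨t, ht⟩
    refine ⟨encode (t, W), ?_⟩
    simp only [enS, encodek, Option.bind_some]
    rw [if_pos ht]

/-- enumeration of a section of the typical set -/
def enSec (x : GP × List Bool) (t : ℕ) : Option (List (List Bool)) :=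
  (enS Idx len (x.1, ()) t).bind fun W => if hd W = x.2 then some W else none

theorem primrec_enSec : Primrec₂ (enSec Idx len) := by
  unfold enSec
  refine Primrec.option_bind ?_ ?_
  · exact (primrec_enS Idx len).comp (Primrec.pair (Primrec.fst.comp Primrec.fst)
      (Primrec.const ())) Primrec.snd
  · refine Primrec.ite ?_ ?_ (Primrec.const none)
    · exact Primrec.eq.comp (primrec_hd.comp Primrec.snd)
        (Primrec.snd.comp (Primrec.fst.comp Primrec.fst))
    · exact Primrec.option_some.comp Primrec.snd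

theorem mem_enSec (g : GP) (ξ : List Bool) (W : List (List Bool)) :
    (∃ t, enSec Idx len (g, ξ) t = some W) ↔ (Typ Idx len g.1 g.2.1 g.2.2 W ∧ hd W = ξ) := by
  rw [← mem_enS]
  constructor
  · rintro ⟨t, ht⟩
    simp only [enSec, Option.bind_eq_some_iff] at ht
    obtain ⟨z, hz1, hz⟩ := ht
    split_ifs at hz with h
    cases hz
    exact ⟨⟨t, hz1⟩, h⟩
  · rintro ⟨⟨t, ht⟩, h⟩
    refine ⟨t, ?_⟩
    simp only [enSec, ht, Option.bind_some]
    rw [if_pos h]

/-- enumeration of the first components with large sections -/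
def enU (x : GP × ℕ) (t : ℕ) : Option (List Bool) :=
  (decode (α := ℕ × List Bool) t).bind fun z =>
    if 2 ^ x.2 ≤ (collect (enSec Idx len (x.1, z.2)) z.1).length then some z.2 else none

theorem primrec_pow : Primrec₂ (fun a b : ℕ => a ^ b) := Primrec₂.unpaired'.1 Nat.Primrec.pow

theorem primrec_enU : Primrec₂ (enU Idx len) := by
  unfold enU
  refine Primrec.option_bind (Primrec.decode.comp Primrec.snd) ?_
  refine Primrec.ite ?_ ?_ (Primrec.const none)
  · refine Primrec.nat_le.comp ?_ ?_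
    · exact primrec_pow.comp (Primrec.const 2) (Primrec.snd.comp (Primrec.fst.comp Primrec.fst))
    · refine Primrec.list_length.comp ((primrec_collect (primrec_enSec Idx len)).comp ?_ ?_)
      · exact Primrec.pair (Primrec.fst.comp (Primrec.fst.comp Primrec.fst))
          (Primrec.snd.comp Primrec.snd)
      · exact Primrec.fst.comp Primrec.snd
  · exact Primrec.option_some.comp (Primrec.snd.comp Primrec.snd)

theorem mem_enU (g : GP) (τ : ℕ) (ξ : List Bool) :
    (∃ t, enU Idx len (g, τ) t = some ξ) ↔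
      ∃ F : Finset (List (List Bool)), (∀ W ∈ F, Typ Idx len g.1 g.2.1 g.2.2 W ∧ hd W = ξ) ∧
        2 ^ τ ≤ F.card := by
  constructor
  · rintro ⟨t, ht⟩
    simp only [enU, Option.bind_eq_some_iff] at ht
    obtain ⟨z, _, hz⟩ := ht
    split_ifs at hz with h
    cases hz
    refine ⟨(collect (enSec Idx len (g, z.2)) z.1).toFinset, ?_, ?_⟩
    · intro W hW
      rw [List.mem_toFinset, mem_collect] at hW
      obtain ⟨i, _, hi⟩ := hW
      exact (mem_enSec _ _ _ _ _).1 ⟨i, hi⟩
    · rwa [List.toFinset_card_of_nodup (nodup_collect _ _)]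
  · rintro ⟨F, hF, hcard⟩
    have : ∃ N, ∀ W ∈ F, W ∈ collect (enSec Idx len (g, ξ)) N := by
      have hS : ∀ W ∈ F, ∃ t, enSec Idx len (g, ξ) t = some W :=
        fun W hW => (mem_enSec _ _ _ _ _).2 (hF W hW)
      choose! h hh using hS
      exact ⟨(F.sup h) + 1, fun a ha => (mem_collect _ _ _).2
        ⟨h a, Nat.lt_succ_of_le (Finset.le_sup ha), hh a ha⟩⟩
    obtain ⟨N, hN⟩ := this
    refine ⟨encode (N, ξ), ?_⟩
    simp only [enU, encodek, Option.bind_some]
    rw [if_pos]
    calc 2 ^ τ ≤ F.card := hcard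
      _ ≤ (collect (enSec Idx len (g, ξ)) N).toFinset.card :=
        Finset.card_le_card (fun a ha => List.mem_toFinset.2 (hN a ha))
      _ ≤ _ := List.toFinset_card_le _

/-- enumeration of simple strings -/
def enX (m : ℕ) (t : ℕ) : Option (List Bool) :=
  (decode (α := ℕ × List Bool) t).bind fun z => if Kle z.1 m z.2 () then some z.2 else none

theorem primrec_enX : Primrec₂ enX := by
  unfold enX
  refine Primrec.option_bind (Primrec.decode.comp Primrec.snd) ?_
  refine Primrec.ite ?_ ?_ (Primrec.const none)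
  · exact primrec_Kle.comp (Primrec.pair (Primrec.fst.comp Primrec.snd)
      (Primrec.pair (Primrec.fst.comp Primrec.fst) (Primrec.pair (Primrec.snd.comp Primrec.snd)
        (Primrec.const ()))))
  · exact Primrec.option_some.comp (Primrec.snd.comp Primrec.snd)

theorem mem_enX (m : ℕ) (ξ : List Bool) : (∃ t, enX m t = some ξ) ↔ K ξ () ≤ m := by
  rw [K_le_iff]
  constructor
  · rintro ⟨t, ht⟩
    simp only [enX, Option.bind_eq_some_iff] at ht
    obtain ⟨z, _, hz⟩ := ht
    split_ifs at hz with h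
    cases hz
    exact ⟨_, h⟩
  · rintro ⟨t, ht⟩
    refine ⟨encode (t, ξ), ?_⟩
    simp only [enX, encodek, Option.bind_some]
    rw [if_pos ht]

/-- parameters of the transfer maps: `(g, τ, m, r, ρ)` -/
abbrev PP := GP × ℕ × ℕ × ℕ × ℕ

attribute [local irreducible] idxIn nth collect

/-- general transfer bound -/
theorem transfer {α β γ₁ γ₂ : Type*} [Primcodable α] [Primcodable β] [Primcodable γ₁]
    [Primcodable γ₂] [DecidableEq α] [DecidableEq β] {en1 : γ₁ → ℕ → Option α}
    {en2 : γ₂ → ℕ → Option β} (h1 : Primrec₂ en1) (h2 : Primrec₂ en2) {P : Type*} [Primcodable P]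
    (G1 : P → γ₁) (G2 : P → γ₂) (F : P → ℕ → ℕ) (hG1 : Primrec G1) (hG2 : Primrec G2)
    (hF : Primrec₂ F) :
    ∃ c : ℕ, ∀ (q : P) (a : α) (b : β) (i : ℕ),
    (∃ t, (collect (en1 (G1 q)) t)[i]? = some a) →
    (∃ t, (collect (en2 (G2 q)) t)[F q i]? = some b) →
    K b a ≤ 2 * Nat.size (encode q) + c := by
  let φ : P × List Bool × α →. β := fun x =>
    (idxIn (en1 (G1 x.1)) x.2.2).bind fun i => nth (en2 (G2 x.1)) (F x.1 i)
  have hφ : Partrec φ := by
    have e1 : Partrec (fun x : P × List Bool × α => idxIn (en1 (G1 x.1)) x.2.2) := by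
      have e : Computable (fun x : P × List Bool × α => (G1 x.1, x.2.2)) :=
        Computable.pair (hG1.to_comp.comp Computable.fst) (Computable.snd.comp Computable.snd)
      exact (partrec_idxIn h1).comp e
    have e2 : Partrec (fun x : (P × List Bool × α) × ℕ =>
        nth (en2 (G2 x.1.1)) (F x.1.1 x.2)) := by
      have e3 : Primrec (fun x : (P × List Bool × α) × ℕ => G2 x.1.1) :=
        hG2.comp (Primrec.fst.comp Primrec.fst)
      have e4 : Primrec (fun x : (P × List Bool × α) × ℕ => F x.1.1 x.2) :=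
        hF.comp (Primrec.fst.comp Primrec.fst) Primrec.snd
      exact (partrec_nth h2).comp (Primrec.pair e3 e4).to_comp
    exact Partrec.bind e1 e2
  obtain ⟨c, hc⟩ := K_param φ hφ
  refine ⟨c, fun q a b i h1 h2 => ?_⟩
  obtain ⟨t, ht⟩ := h1
  have := hc q [] a b (by
    simp only [φ, Part.mem_bind_iff]
    exact ⟨i, mem_idxIn _ _ _ _ ht, (mem_nth _ _ _).2 h2⟩)
  simpa using this

theorem fwd : ∃ c : ℕ, ∀ (q : PP) (x' ξ : List Bool) (i : ℕ),
    (∃ t, (collect (enX q.2.2.1) t)[i]? = some x') →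
    (∃ t, (collect (enU Idx len (q.1, q.2.1)) t)[i / 2 ^ q.2.2.2.1]? = some ξ) →
    K ξ x' ≤ 2 * Nat.size (encode q) + c :=
  transfer primrec_enX (primrec_enU Idx len) (fun q : PP => q.2.2.1) (fun q => (q.1, q.2.1))
    (fun q i => i / 2 ^ q.2.2.2.1)
    (Primrec.fst.comp (Primrec.snd.comp Primrec.snd))
    (Primrec.pair Primrec.fst (Primrec.fst.comp Primrec.snd))
    (Primrec.nat_div.comp Primrec.snd (primrec_pow.comp (Primrec.const 2)
      (Primrec.fst.comp (Primrec.snd.comp (Primrec.snd.comp (Primrec.snd.comp Primrec.fst))))))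

theorem bwd : ∃ c : ℕ, ∀ (q : PP) (ξ x' : List Bool) (i : ℕ),
    (∃ t, (collect (enU Idx len (q.1, q.2.1)) t)[i]? = some ξ) →
    (∃ t, (collect (enX q.2.2.1) t)[i * 2 ^ q.2.2.2.1 + q.2.2.2.2]? = some x') →
    K x' ξ ≤ 2 * Nat.size (encode q) + c :=
  transfer (primrec_enU Idx len) primrec_enX (fun q : PP => (q.1, q.2.1)) (fun q => q.2.2.1)
    (fun q i => i * 2 ^ q.2.2.2.1 + q.2.2.2.2)
    (Primrec.pair Primrec.fst (Primrec.fst.comp Primrec.snd))
    (Primrec.fst.comp (Primrec.snd.comp Primrec.snd))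
    (Primrec.nat_add.comp (Primrec.nat_mul.comp Primrec.snd (primrec_pow.comp (Primrec.const 2)
      (Primrec.fst.comp (Primrec.snd.comp (Primrec.snd.comp (Primrec.snd.comp Primrec.fst))))))
      (Primrec.snd.comp (Primrec.snd.comp (Primrec.snd.comp (Primrec.snd.comp Primrec.fst)))))

end core

/-! ### Counting -/

theorem count_large {α β : Type*} [DecidableEq α] (F : Finset β) (h : β → α)
    (m B0 Kz e1 e3 : ℕ) (hF : 2 ^ (Kz - e1) ≤ F.card)
    (hsec : ∀ ξ, (F.filter (fun W => h W = ξ)).card < 2 ^ (B0 + 1))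
    (hproj : (F.image h).card < 2 ^ (m + 1)) (hk : m + B0 ≤ Kz + e3) :
    ∃ U : Finset α, (∀ ξ ∈ U, 2 ^ (B0 - (e1 + e3 + 2)) ≤ (F.filter (fun W => h W = ξ)).card) ∧
      2 ^ (m - (e1 + e3 + 2)) ≤ U.card := by
  classical
  set e2 := e1 + e3 + 2 with he2
  set τ := B0 - e2 with hτ
  refine ⟨(F.image h).filter (fun ξ => 2 ^ τ ≤ (F.filter (fun W => h W = ξ)).card), ?_, ?_⟩
  · intro ξ hξ
    exact (Finset.mem_filter.1 hξ).2
  set U := (F.image h).filter (fun ξ => 2 ^ τ ≤ (F.filter (fun W => h W = ξ)).card) with hU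
  set V := (F.image h).filter (fun ξ => ¬ 2 ^ τ ≤ (F.filter (fun W => h W = ξ)).card) with hV
  have hsum : F.card = ∑ ξ ∈ U, (F.filter (fun W => h W = ξ)).card
      + ∑ ξ ∈ V, (F.filter (fun W => h W = ξ)).card := by
    rw [Finset.card_eq_sum_card_image h F]
    exact (Finset.sum_filter_add_sum_filter_not _ _ _).symm
  have hUs : ∑ ξ ∈ U, (F.filter (fun W => h W = ξ)).card ≤ U.card * 2 ^ (B0 + 1) := by
    rw [← smul_eq_mul]
    exact Finset.sum_le_card_nsmul _ _ _ (fun ξ _ => (hsec ξ).le)
  have hVc : V.card ≤ (F.image h).card := Finset.card_filter_le _ _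
  have hFpos : 0 < F.card := lt_of_lt_of_le (by positivity) hF
  have hpos_of : ∀ X, 0 < X → X ≤ U.card * 2 ^ (B0 + 1) → 0 < U.card := by
    intro X hX hle
    by_contra hcon
    have : U.card = 0 := by omega
    rw [this, zero_mul] at hle
    omega
  by_cases hτ0 : τ = 0
  · have hVe : ∑ ξ ∈ V, (F.filter (fun W => h W = ξ)).card = 0 := by
      apply Finset.sum_eq_zero
      intro ξ hξ
      have h1 := (Finset.mem_filter.1 hξ).2
      rw [hτ0, pow_zero] at h1
      omega
    have hle : F.card ≤ U.card * 2 ^ (B0 + 1) := by omega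
    by_cases hme : m ≤ e2
    · have : m - e2 = 0 := by omega
      rw [this, pow_zero]
      exact hpos_of _ hFpos hle
    · push Not at hme
      have h1 : 2 ^ (m - e2) * 2 ^ (B0 + 1) ≤ U.card * 2 ^ (B0 + 1) := by
        refine le_trans ?_ (hF.trans hle)
        rw [← pow_add]
        exact Nat.pow_le_pow_right (by norm_num) (by omega)
      exact Nat.le_of_mul_le_mul_right h1 (by positivity)
  · have hB : B0 = τ + e2 := by omega
    have hVs : ∑ ξ ∈ V, (F.filter (fun W => h W = ξ)).card ≤ V.card * 2 ^ τ := by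
      rw [← smul_eq_mul]
      refine Finset.sum_le_card_nsmul _ _ _ (fun ξ hξ => ?_)
      have := (Finset.mem_filter.1 hξ).2
      omega
    have hVs2 : V.card * 2 ^ τ ≤ 2 ^ (m + 1 + τ) := by
      rw [pow_add]
      exact Nat.mul_le_mul_right _ (by omega)
    have hKe : m + τ + 2 ≤ Kz - e1 := by omega
    have hpow : 2 ^ (m + 1 + τ) + 2 ^ (Kz - e1 - 1) ≤ 2 ^ (Kz - e1) := by
      have h1 : 2 ^ (Kz - e1) = 2 ^ (Kz - e1 - 1) + 2 ^ (Kz - e1 - 1) := by
        have : Kz - e1 = (Kz - e1 - 1) + 1 := by omega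
        conv_lhs => rw [this]
        rw [pow_succ]; ring
      have h2 : 2 ^ (m + 1 + τ) ≤ 2 ^ (Kz - e1 - 1) :=
        Nat.pow_le_pow_right (by norm_num) (by omega)
      omega
    have hle : 2 ^ (Kz - e1 - 1) ≤ U.card * 2 ^ (B0 + 1) := by omega
    by_cases hme : m ≤ e2
    · have : m - e2 = 0 := by omega
      rw [this, pow_zero]
      exact hpos_of _ (by positivity) hle
    · push Not at hme
      have h1 : 2 ^ (m - e2) * 2 ^ (B0 + 1) ≤ U.card * 2 ^ (B0 + 1) := by
        refine le_trans ?_ hle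
        rw [← pow_add]
        exact Nat.pow_le_pow_right (by norm_num) (by omega)
      exact Nat.le_of_mul_le_mul_right h1 (by positivity)

theorem exists_large (Idx : List (List ℕ)) (len : ℕ) : ∃ c, ∀ (g : GP) (Z : List (List Bool)),
    Typ Idx len g.1 g.2.1 g.2.2 Z →
    ∃ F : Finset (List (List Bool)), (∀ W ∈ F, Typ Idx len g.1 g.2.1 g.2.2 W) ∧
      2 ^ (K Z () - (2 * Nat.size (encode g) + c)) ≤ F.card := by
  obtain ⟨c, hc⟩ := K_index (primrec_enS Idx len)
  refine ⟨c + 1, fun g Z hZ => ?_⟩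
  by_cases hsmall : K Z () ≤ 2 * Nat.size (encode g) + (c + 1)
  · refine ⟨{Z}, ?_, ?_⟩
    · intro W hW
      rw [Finset.mem_singleton] at hW
      rwa [hW]
    · have : K Z () - (2 * Nat.size (encode g) + (c + 1)) = 0 := by omega
      rw [this]; simp
  · push Not at hsmall
    by_contra hcon
    push Not at hcon
    set M' := K Z () - (2 * Nat.size (encode g) + (c + 1)) with hM'
    have h1 := hc g () M' (by
      intro S hS
      have := hcon S (fun W hW => (mem_enS Idx len g W).1 (hS W hW))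
      omega) Z ((mem_enS Idx len g Z).2 hZ)
    omega

theorem exists_index {α : Type*} [DecidableEq α] (e : ℕ → Option α) (a : α)
    (h : ∃ t, e t = some a) : ∃ (t i : ℕ), (collect e t)[i]? = some a := by
  obtain ⟨t, ht⟩ := h
  have hmem : a ∈ collect e (t + 1) := (mem_collect _ _ _).2 ⟨t, by omega, ht⟩
  obtain ⟨i, hi, hia⟩ := List.getElem_of_mem hmem
  exact ⟨t + 1, i, by rw [List.getElem?_eq_getElem hi, hia]⟩

theorem exists_nth_of_card {α : Type*} [DecidableEq α] (e : ℕ → Option α) (U : Finset α)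
    (hU : ∀ a ∈ U, ∃ t, e t = some a) (i : ℕ) (hi : i < U.card) :
    ∃ (t : ℕ) (a : α), (collect e t)[i]? = some a := by
  have : ∃ N, ∀ a ∈ U, a ∈ collect e N := by
    choose! h hh using hU
    exact ⟨(U.sup h) + 1, fun a ha => (mem_collect _ _ _).2
      ⟨h a, Nat.lt_succ_of_le (Finset.le_sup ha), hh a ha⟩⟩
  obtain ⟨N, hN⟩ := this
  have h1 : U.card ≤ (collect e N).length :=
    (Finset.card_le_card (fun a ha => List.mem_toFinset.2 (hN a ha))).trans
      (List.toFinset_card_le _)
  exact ⟨N, (collect e N)[i]'(by omega), List.getElem?_eq_getElem _⟩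

theorem collect_getElem?_mem {α : Type*} [DecidableEq α] (e : ℕ → Option α) (t i : ℕ) (a : α)
    (h : (collect e t)[i]? = some a) : ∃ t, e t = some a := by
  obtain ⟨hi, hia⟩ := List.getElem?_eq_some_iff.1 h
  have hmem : a ∈ collect e t := hia ▸ List.getElem_mem hi
  obtain ⟨j, _, hj⟩ := (mem_collect _ _ _).1 hmem
  exact ⟨j, hj⟩

/-! ### Sizes of parameters -/

theorem size_encode_list (l : List (ℕ × ℕ)) (n : ℕ) (h : ∀ p ∈ l, p.1 ≤ n ∧ p.2 ≤ n) :
    Nat.size (encode l) ≤ 4 ^ l.length * (2 * Nat.size n + 1) := by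
  induction l with
  | nil => simp
  | cons a l ih =>
    have h1 := ih (fun p hp => h p (List.mem_cons_of_mem _ hp))
    have h2 := h a List.mem_cons_self
    rw [encode_list_cons, List.length_cons]
    have h3 : Nat.size (encode a) ≤ 2 * Nat.size n := by
      rw [encode_prod_val]
      simp only [encode_nat]
      refine (size_pair_le _ _).trans ?_
      have := size_mono h2.1
      have := size_mono h2.2
      omega
    have h4 : Nat.size (Nat.succ (Nat.pair (encode a) (encode l))) ≤
        Nat.size (Nat.pair (encode a) (encode l)) + 1 := by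
      rw [Nat.size_le, pow_succ]
      have := Nat.lt_size_self (Nat.pair (encode a) (encode l))
      have h5 : 0 < 2 ^ Nat.size (Nat.pair (encode a) (encode l)) := by positivity
      omega
    have h6 := size_pair_le (encode a) (encode l)
    have h7 : 2 * Nat.size n + 1 ≤ 4 ^ l.length * (2 * Nat.size n + 1) :=
      Nat.le_mul_of_pos_left _ (by positivity)
    have h8 : 4 ^ (l.length + 1) * (2 * Nat.size n + 1) =
        4 * (4 ^ l.length * (2 * Nat.size n + 1)) := by ring
    omega

theorem mem_zip_map {ι κ : Type*} (L : List ι) (f : ι → κ) (r : ι × κ) (h : r ∈ L.zip (L.map f)) :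
    r.1 ∈ L ∧ r.2 = f r.1 := by
  induction L with
  | nil => simp at h
  | cons a L ih =>
    simp only [List.map_cons, List.zip_cons_cons, List.mem_cons] at h
    rcases h with rfl | h
    · simp
    · obtain ⟨h1, h2⟩ := ih h
      exact ⟨List.mem_cons_of_mem _ h1, h2⟩

theorem zip_map_mem {ι κ : Type*} (L : List ι) (f : ι → κ) (i : ι) (h : i ∈ L) :
    (i, f i) ∈ L.zip (L.map f) := by
  induction L with
  | nil => simp at h
  | cons a L ih =>
    simp only [List.map_cons, List.zip_cons_cons, List.mem_cons]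
    rcases List.mem_cons.1 h with rfl | h
    · left; rfl
    · right; exact ih h

/-- replacing the first component -/
theorem replace_bound (idx : List ℕ) : ∃ c : ℕ, ∀ (W : List (List Bool)) (x' : List Bool),
    0 < W.length →
    K (sel idx (W.set 0 x')) () ≤ K (sel idx W) () + K x' (hd W)
      + 2 * Nat.size (K (sel idx W) ()) + c := by
  by_cases h0 : 0 ∈ idx
  · obtain ⟨c1, hc1⟩ := K_chain0 (α := List (List Bool)) (β := List (List Bool))
    let rep : List (List Bool) → List Bool → List (List Bool) := fun V x =>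
      (idx.zip V).map (fun r => if r.1 = 0 then x else r.2)
    have hrep : Primrec₂ rep := by
      have hz : Primrec (fun V : List (List Bool) => idx.zip V) := by
        clear h0 rep
        induction idx with
        | nil => exact (Primrec.const []).of_eq (fun V => by simp)
        | cons a idx ih =>
          have h : Primrec₂ (fun (_ : List (List Bool)) (x : List Bool × List (List Bool)) =>
              (a, x.1) :: idx.zip x.2) :=
            (Primrec.list_cons.comp (Primrec.pair (Primrec.const a) (Primrec.fst.comp Primrec.snd))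
              (ih.comp (Primrec.snd.comp Primrec.snd))).to₂
          refine (Primrec.list_casesOn Primrec.id (Primrec.const []) h).of_eq ?_
          intro V
          cases V <;> rfl
      have h2 : Primrec₂ (fun (y : List (List Bool) × List Bool) (r : ℕ × List Bool) =>
          if r.1 = 0 then y.2 else r.2) :=
        Primrec.ite (Primrec.eq.comp (Primrec.fst.comp Primrec.snd) (Primrec.const 0))
          (Primrec.snd.comp Primrec.fst) (Primrec.snd.comp Primrec.snd)
      exact Primrec.list_map (hz.comp Primrec.fst) h2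
    obtain ⟨c2, hc2⟩ := K_comp (fun (x : List Bool) (V : List (List Bool)) => rep V x)
      (hrep.comp Primrec.snd Primrec.fst).to_comp.to₂
      (fun V : List (List Bool) => V.getD (idx.idxOf 0) [])
      ((Primrec.list_getD []).comp Primrec.id (Primrec.const _)).to_comp
    refine ⟨c1 + c2, fun W x' hW => ?_⟩
    have h1 := hc1 (sel idx W) (sel idx (W.set 0 x'))
    have h2 := hc2 x' (sel idx W)
    have h3 : rep (sel idx W) x' = sel idx (W.set 0 x') := by
      simp only [rep, sel]
      clear h0 hc2 h2 h1 hrep rep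
      induction idx with
      | nil => simp
      | cons a idx ih =>
        simp only [List.map_cons, List.zip_cons_cons, List.cons.injEq]
        refine ⟨?_, ih⟩
        by_cases ha : a = 0
        · subst ha
          simp [List.getD_eq_getElem?_getD, hW]
        · rw [if_neg ha]
          simp [List.getD_eq_getElem?_getD, Ne.symm ha]
    have h4 : (sel idx W).getD (idx.idxOf 0) [] = hd W := by
      have hlt : idx.idxOf 0 < idx.length := List.idxOf_lt_length_of_mem h0
      unfold sel hd
      rw [List.getD_eq_getElem?_getD, List.getElem?_map, List.getElem?_eq_getElem hlt]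
      simp
    rw [h3, h4] at h2
    omega
  · refine ⟨0, fun W x' _ => ?_⟩
    have h3 : sel idx (W.set 0 x') = sel idx W := by
      unfold sel
      apply List.map_congr_left
      intro a ha
      have : a ≠ 0 := fun h => h0 (h ▸ ha)
      simp [List.getD_eq_getElem?_getD, Ne.symm this]
    rw [h3]
    omega

/-! ### The core theorem -/

theorem size_encode_PP (g : GP) (τ md r ρ X : ℕ) (hg : Nat.size (encode g) ≤ X)
    (hτ : Nat.size τ ≤ X) (hmd : Nat.size md ≤ X) (hr : Nat.size r ≤ X) (hρ : Nat.size ρ ≤ X) :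
    Nat.size (encode ((g, τ, md, r, ρ) : PP)) ≤ 16 * X := by
  have e : encode ((g, τ, md, r, ρ) : PP) =
      Nat.pair (encode g) (Nat.pair τ (Nat.pair md (Nat.pair r ρ))) := rfl
  rw [e]
  have h1 := size_pair_le r ρ
  have h2 := size_pair_le md (Nat.pair r ρ)
  have h3 := size_pair_le τ (Nat.pair md (Nat.pair r ρ))
  have h4 := size_pair_le (encode g) (Nat.pair τ (Nat.pair md (Nat.pair r ρ)))
  omega

theorem coreA (Idx : List (List ℕ)) (len : ℕ) (hlen : 0 < len) : ∃ c : ℕ,
    ∀ (Z : List (List Bool)) (x' : List Bool) (n d : ℕ), Z.length = len →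
    (∀ idx ∈ Idx, K (sel idx Z) () ≤ n ∧ K Z (sel idx Z) ≤ n) →
    K Z () ≤ n → K (hd Z) () ≤ n → K Z (hd Z) ≤ n →
    K x' () ≤ K (hd Z) () + d → K (hd Z) () ≤ K x' () + d →
    ∃ Z' : List (List Bool), Z'.length = len ∧ hd Z' = x' ∧
      ∀ idx ∈ Idx, K (sel idx Z') () ≤ K (sel idx Z) () + c * (Nat.size n + d + 1) ∧
        K (sel idx Z) () ≤ K (sel idx Z') () + c * (Nat.size n + d + 1) := by
  classical
  obtain ⟨cI, hI⟩ := exists_large Idx len
  obtain ⟨c3, h3⟩ := K_hard0 (α := List Bool) (β := List (List Bool)) hd primrec_hd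
  obtain ⟨cc, hcc⟩ := K_chain0 (α := List Bool) (β := List (List Bool))
  obtain ⟨ccx, hccx⟩ := K_chain0 (α := List Bool) (β := List Bool)
  obtain ⟨cf, hf⟩ := fwd Idx len
  obtain ⟨cb, hb⟩ := bwd Idx len
  obtain ⟨ch, hh⟩ := exists_unif Idx (fun idx c => ∀ W : List (List Bool),
    K (sel idx W) () + K W (sel idx W) ≤ K W () + 6 * Nat.size (K W ()) + c)
    (fun i c c' hc h W => (h W).trans (by omega))
    (fun idx _ => K_hard0 (sel idx) (primrec_sel.comp (Primrec.const idx) Primrec.id))
  obtain ⟨ce, he⟩ := K_chain0 (α := List (List Bool)) (β := List (List Bool))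
  obtain ⟨cr, hr⟩ := exists_unif Idx (fun idx c => ∀ (W : List (List Bool)) (x' : List Bool),
    0 < W.length → K (sel idx (W.set 0 x')) () ≤ K (sel idx W) () + K x' (hd W)
      + 2 * Nat.size (K (sel idx W) ()) + c)
    (fun i c c' hc h W x' hW => (h W x' hW).trans (by omega))
    (fun idx _ => replace_bound idx)
  set k := Idx.length with hk
  set g0 := 16 * 4 ^ k with hg0
  refine ⟨100000 * g0 + 100000 + 1000 * (cI + c3 + cc + ccx + cf + cb + ch + ce + cr), ?_⟩
  intro Z x' n d hZlen hAB hZn hm hB hxd hdx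
  -- abbreviations
  set L := Nat.size n + d + 1 with hL
  set m := K (hd Z) () with hmdef
  set B0 := K Z (hd Z) with hB0
  set Kz := K Z () with hKz
  set AB := Idx.map (fun idx => (K (sel idx Z) (), K Z (sel idx Z))) with hABdef
  set g : GP := (m, B0, AB) with hg
  set G := Nat.size (encode g) with hG
  have hGle : G ≤ g0 * L := by
    have e : encode g = Nat.pair m (Nat.pair B0 (encode AB)) := rfl
    have e1 := size_encode_list AB n (by
      intro p hp
      rw [hABdef, List.mem_map] at hp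
      obtain ⟨idx, hidx, rfl⟩ := hp
      exact hAB idx hidx)
    have e2 : AB.length = k := by rw [hABdef]; simp [hk]
    rw [e2] at e1
    have e3 := size_pair_le B0 (encode AB)
    have e4 := size_pair_le m (Nat.pair B0 (encode AB))
    have e5 := size_mono hm
    have e6 := size_mono hB
    have e7 : Nat.size n + 1 ≤ L := by omega
    have e8 : 4 ^ k * (2 * Nat.size n + 1) ≤ 4 ^ k * (2 * L) :=
      Nat.mul_le_mul_left _ (by omega)
    have e9 : L ≤ 4 ^ k * L := Nat.le_mul_of_pos_left _ (by positivity)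
    have e10 : 4 ^ k * (2 * L) = 2 * (4 ^ k * L) := by ring
    have e11 : g0 * L = 16 * (4 ^ k * L) := by rw [hg0]; ring
    rw [hG, e]
    omega
  have hTypZ : Typ Idx len g.1 g.2.1 g.2.2 Z := by
    refine ⟨hZlen, le_rfl, le_rfl, ?_⟩
    intro r hr
    obtain ⟨_, hr2⟩ := mem_zip_map Idx _ r hr
    rw [hr2]
    exact ⟨le_rfl, le_rfl⟩
  obtain ⟨F, hF1, hF2⟩ := hI g Z hTypZ
  set e1 := 2 * Nat.size (encode g) + cI with he1
  set e3 := 6 * Nat.size Kz + c3 with he3
  have hsK : Nat.size Kz ≤ Nat.size n := size_mono hZn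
  have hk3 : m + B0 ≤ Kz + e3 := by
    have h3Z := h3 Z
    rw [← hKz, ← hmdef, ← hB0] at h3Z
    omega
  obtain ⟨U, hU1, hU2⟩ := count_large F hd m B0 Kz e1 e3 hF2 (by
      intro ξ
      exact card_le ξ B0 _ (by
        intro W hW
        rw [Finset.mem_filter] at hW
        have := (hF1 W hW.1).2.2.1
        rw [hW.2] at this
        exact this)) (by
      refine card_le () m _ ?_
      intro ξ hξ
      rw [Finset.mem_image] at hξ
      obtain ⟨W, hW, rfl⟩ := hξ
      exact (hF1 W hW).2.1) hk3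
  set e2 := e1 + e3 + 2 with he2
  set τ := B0 - e2 with hτ
  -- locate x'
  set md := m + d with hmd
  obtain ⟨t1, i1, hi1⟩ := exists_index (enX md) x' ((mem_enX md x').2 hxd)
  have hi1lt : i1 < 2 ^ (md + 1) := by
    have h1 := card_le () md (collect (enX md) t1).toFinset (by
      intro a ha
      rw [List.mem_toFinset, mem_collect] at ha
      obtain ⟨j, _, hj⟩ := ha
      exact (mem_enX md a).1 ⟨j, hj⟩)
    rw [List.toFinset_card_of_nodup (nodup_collect _ _)] at h1
    have h2 := (List.getElem?_eq_some_iff.1 hi1).1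
    omega
  set r := e2 + d + 1 with hrdef
  have hidiv : i1 / 2 ^ r < U.card := by
    refine lt_of_lt_of_le ?_ hU2
    rw [Nat.div_lt_iff_lt_mul (by positivity), ← pow_add]
    exact lt_of_lt_of_le hi1lt (Nat.pow_le_pow_right (by norm_num) (by omega))
  obtain ⟨t2, ξ, hξ⟩ := exists_nth_of_card (enU Idx len (g, τ)) U (by
    intro ξ hξ
    rw [mem_enU]
    refine ⟨F.filter (fun W => hd W = ξ), ?_, hU1 ξ hξ⟩
    intro W hW
    rw [Finset.mem_filter] at hW
    exact ⟨hF1 W hW.1, hW.2⟩) (i1 / 2 ^ r) hidiv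
  -- parameter sizes
  set ρ := i1 % 2 ^ r with hρ
  have hsizes : ∀ ρ' : ℕ, Nat.size ρ' ≤ r → Nat.size (encode ((g, τ, md, r, ρ') : PP)) ≤
      16 * (G + 2 * L + r) := by
    intro ρ' hρ'
    have a1 : Nat.size τ ≤ Nat.size n := size_mono (by omega)
    have a2 : Nat.size md ≤ Nat.size n + d + 1 := by
      have b1 := size_add_le m d
      have b2 := size_mono hm
      have b3 := size_le_self d
      rw [hmd]
      omega
    have a3 := size_le_self r
    exact size_encode_PP g τ md r ρ' _ (by omega) (by omega) (by omega) (by omega) (by omega)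
  have hKξ : K ξ x' ≤ 2 * (16 * (G + 2 * L + r)) + cf := by
    have a1 := hf (g, τ, md, r, 0) x' ξ i1 ⟨t1, hi1⟩ ⟨t2, hξ⟩
    have a2 := hsizes 0 (by simp)
    omega
  have hKx : K x' ξ ≤ 2 * (16 * (G + 2 * L + r)) + cb := by
    have a1 := hb (g, τ, md, r, ρ) ξ x' (i1 / 2 ^ r) ⟨t2, hξ⟩ ⟨t1, by
      show (collect (enX md) t1)[i1 / 2 ^ r * 2 ^ r + i1 % 2 ^ r]? = some x'
      rw [Nat.div_add_mod']
      exact hi1⟩
    have a2 := hsizes ρ (by
      rw [Nat.size_le]
      exact Nat.mod_lt _ (by positivity))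
    omega
  -- choose W in the section of ξ
  obtain ⟨Fξ, hFξ1, hFξ2⟩ := (mem_enU Idx len g τ ξ).1 (collect_getElem?_mem _ _ _ _ hξ)
  obtain ⟨W, hWF, hWτ⟩ : ∃ W ∈ Fξ, τ ≤ K W ξ := by
    by_contra hcon
    push Not at hcon
    have := card_lt ξ τ Fξ hcon
    omega
  obtain ⟨hWtyp, hWhd⟩ := hFξ1 W hWF
  obtain ⟨hWlen, hWm, hWB, hWAB⟩ := hWtyp
  have hWm' : K ξ () ≤ m := by rw [← hWhd]; exact hWm
  have hWB' : K W ξ ≤ B0 := by rw [← hWhd]; exact hWB
  -- lower bound for K W
  have hKW_up : K W () ≤ 4 * n + cc := by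
    have a1 := hcc ξ W
    have a2 := size_le_self (K ξ ())
    omega
  have hKW_size : Nat.size (K W ()) ≤ Nat.size n + 4 + cc := by
    have a1 := size_mono hKW_up
    have a2 := size_add_le (4 * n) cc
    have a3 := size_mul_le 4 n
    have a4 : Nat.size 4 = 3 := by decide
    have a5 := size_le_self cc
    omega
  have hKW_low : K ξ () + τ ≤ K W () + 6 * (Nat.size n + 4 + cc) + c3 := by
    have a1 := h3 W
    rw [hWhd] at a1
    omega
  have hxξ : K x' () ≤ K ξ () + K x' ξ + 2 * Nat.size n + ccx := by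
    have a1 := hccx ξ x'
    have a2 : Nat.size (K ξ ()) ≤ Nat.size n := size_mono (by omega)
    omega
  have hKz_up : Kz ≤ m + B0 + 2 * Nat.size n + cc := by
    have a1 := hcc (hd Z) Z
    rw [← hKz, ← hmdef, ← hB0] at a1
    have a2 : Nat.size m ≤ Nat.size n := size_mono (by omega)
    omega
  refine ⟨W.set 0 x', by rw [List.length_set]; exact hWlen, ?_, ?_⟩
  · unfold hd
    rw [List.getD_eq_getElem?_getD, List.getElem?_set]
    simp [show 0 < W.length by omega]
  intro idx hidx
  have hmem := zip_map_mem Idx (fun idx => (K (sel idx Z) (), K Z (sel idx Z))) idx hidx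
  obtain ⟨hA1, hA2⟩ := hWAB _ hmem
  simp only at hA1 hA2
  obtain ⟨hn1, hn2⟩ := hAB idx hidx
  have s1 : Nat.size (K (sel idx W) ()) ≤ Nat.size n := size_mono (by omega)
  have b1 := he (sel idx W) W
  have b2 := hh idx hidx Z
  rw [← hKz] at b2
  have b3 := hr idx hidx W x' (by omega)
  rw [hWhd] at b3
  have b4 := hr idx hidx (W.set 0 x') ξ (by rw [List.length_set]; omega)
  have hset : (W.set 0 x').set 0 ξ = W := by
    rw [List.set_set]
    obtain ⟨w, W', rfl⟩ : ∃ w W', W = w :: W' := by
      cases W with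
      | nil => simp at hWlen; omega
      | cons w W' => exact ⟨w, W', rfl⟩
    simp only [List.set_cons_zero]
    rw [← hWhd]; rfl
  have hhd' : hd (W.set 0 x') = x' := by
    unfold hd
    rw [List.getD_eq_getElem?_getD, List.getElem?_set]
    simp [show 0 < W.length by omega]
  rw [hset, hhd'] at b4
  -- size of K (sel idx W')
  have hL1 : Nat.size n ≤ L := by omega
  have hr_le : r ≤ 2 * G + cI + 6 * Nat.size n + c3 + d + 3 := by omega
  set D := 2 * (16 * (G + 2 * L + r)) with hD
  have hup : K (sel idx (W.set 0 x')) () ≤ K (sel idx Z) () + D + cb + 2 * Nat.size n + cr := by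
    omega
  have s2 : Nat.size (K (sel idx (W.set 0 x')) ()) ≤ Nat.size n + (D + cb + 2 * Nat.size n + cr) + 2 := by
    have a1 : K (sel idx (W.set 0 x')) () ≤ n + (D + cb + 2 * Nat.size n + cr) := by omega
    have a2 := size_mono a1
    have a3 := size_add_le n (D + cb + 2 * Nat.size n + cr)
    have a4 := size_le_self (D + cb + 2 * Nat.size n + cr)
    omega
  -- final estimates
  have hdist : (100000 * g0 + 100000 + 1000 * (cI + c3 + cc + ccx + cf + cb + ch + ce + cr)) * L
      = 100000 * (g0 * L) + 100000 * L +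
        1000 * ((cI + c3 + cc + ccx + cf + cb + ch + ce + cr) * L) := by ring
  have hcL : cI + c3 + cc + ccx + cf + cb + ch + ce + cr ≤
      (cI + c3 + cc + ccx + cf + cb + ch + ce + cr) * L :=
    Nat.le_mul_of_pos_right _ (by omega)
  rw [hdist]
  have hsKz : Nat.size Kz ≤ Nat.size n := hsK
  constructor
  · omega
  · omega

end Pool.Agent.Helper760.Kolm
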