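import Mathlib
import Pool.Agent.Helper760.Kolm

set_option autoImplicit false

namespace Pool.Agent.Helper760.OracleNF

open Encodable

/-- the first `k` values of the oracle -/
def pre (g : ℕ → ℕ) (k : ℕ) : List ℕ := (List.range k).map g

@[simp] theorem length_pre (g : ℕ → ℕ) (k : ℕ) : (pre g k).length = k := by simp [pre]

theorem pre_succ (g : ℕ → ℕ) (k : ℕ) : pre g (k + 1) = pre g k ++ [g k] := by
  simp [pre, List.range_succ]

theorem pre_le (g : ℕ → ℕ) {k k' : ℕ} (h : k ≤ k') : pre g k <+: pre g k' := by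
  induction k', h using Nat.le_induction with
  | base => exact List.prefix_rfl
  | succ n _ ih => rw [pre_succ]; exact ih.trans (List.prefix_append _ _)

theorem take_pre (g : ℕ → ℕ) {k k' : ℕ} (h : k ≤ k') : (pre g k').take k = pre g k := by
  have h1 := pre_le g h
  rw [List.prefix_iff_eq_take] at h1
  rw [length_pre] at h1
  exact h1.symm

theorem getElem?_pre (g : ℕ → ℕ) (i k m : ℕ) : (pre g k)[i]? = some m ↔ i < k ∧ g i = m := by
  unfold pre
  rw [List.getElem?_map]
  by_cases h : i < k
  · rw [List.getElem?_range h]; simp [h]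
  · rw [List.getElem?_eq_none (by simpa using Nat.le_of_not_lt h)]; simp [h]

theorem getElem?_ext {σ τ : List ℕ} (h : σ <+: τ) {i m : ℕ} (hm : σ[i]? = some m) :
    τ[i]? = some m := by
  obtain ⟨ρ, rfl⟩ := h
  rw [List.getElem?_append_left]
  · exact hm
  · exact (List.getElem?_eq_some_iff.1 hm).1

theorem exists_unif (m : ℕ) (P : ℕ → ℕ → Prop) (hP : ∀ j k k', k ≤ k' → P j k → P j k')
    (h : ∀ j < m, ∃ k, P j k) : ∃ K, ∀ j < m, P j K := by
  induction m with
  | zero => exact ⟨0, by omega⟩
  | succ m ih =>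
    obtain ⟨K, hK⟩ := ih (fun j hj => h j (by omega))
    obtain ⟨k, hk⟩ := h m (by omega)
    refine ⟨max K k, fun j hj => ?_⟩
    rcases Nat.lt_succ_iff_lt_or_eq.1 hj with hj | rfl
    · exact hP _ _ _ (le_max_left _ _) (hK j hj)
    · exact hP _ _ _ (le_max_right _ _) hk

/-- condition of the bounded search -/
def Q (F : List ℕ → ℕ → Option ℕ) (σ : List ℕ) (a n : ℕ) : Prop :=
  F σ (Nat.pair a n) = some 0 ∧
    ∀ j ∈ List.range n, F σ (Nat.pair a j) ≠ some 0 ∧ F σ (Nat.pair a j) ≠ none

instance (F : List ℕ → ℕ → Option ℕ) (σ : List ℕ) (a n : ℕ) : Decidable (Q F σ a n) := by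
  unfold Q; infer_instance

/-- bounded search -/
def srch (F : List ℕ → ℕ → Option ℕ) (σ : List ℕ) (a : ℕ) : Option ℕ :=
  ((List.range σ.length).filter (fun n => Q F σ a n)).head?

theorem Q_unique (F : List ℕ → ℕ → Option ℕ) (σ : List ℕ) (a n n' : ℕ) (h : Q F σ a n)
    (h' : Q F σ a n') : n = n' := by
  rcases lt_trichotomy n n' with hlt | heq | hgt
  · exact absurd h.1 (h'.2 n (List.mem_range.2 hlt)).1
  · exact heq
  · exact absurd h'.1 (h.2 n' (List.mem_range.2 hgt)).1

theorem srch_eq (F : List ℕ → ℕ → Option ℕ) (σ : List ℕ) (a n : ℕ) :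
    srch F σ a = some n ↔ n < σ.length ∧ Q F σ a n := by
  unfold srch
  constructor
  · intro h
    have h1 := List.mem_of_head? h
    rw [List.mem_filter] at h1
    exact ⟨List.mem_range.1 h1.1, by simpa using h1.2⟩
  · rintro ⟨h1, h2⟩
    have hm : n ∈ (List.range σ.length).filter (fun n => Q F σ a n) := by
      rw [List.mem_filter]; exact ⟨List.mem_range.2 h1, by simpa using h2⟩
    cases hh : ((List.range σ.length).filter (fun n => Q F σ a n)).head? with
    | none => rw [List.head?_eq_none_iff] at hh; rw [hh] at hm; simp at hm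
    | some n' =>
      have h3 := List.mem_of_head? hh
      rw [List.mem_filter] at h3
      rw [Q_unique F σ a n n' h2 (by simpa using h3.2)]

theorem primrec_Q {F : List ℕ → ℕ → Option ℕ} (hF : Primrec₂ F) :
    PrimrecRel (fun (n : ℕ) (z : List ℕ × ℕ) => Q F z.1 z.2 n) := by
  unfold Q
  have hP : Primrec₂ (fun (j : ℕ) (z : List ℕ × ℕ) => F z.1 (Nat.pair z.2 j)) :=
    hF.comp (Primrec.fst.comp Primrec.snd)
      (Primrec₂.natPair.comp (Primrec.snd.comp Primrec.snd) Primrec.fst)
  have hR : PrimrecRel (fun (j : ℕ) (z : List ℕ × ℕ) =>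
      F z.1 (Nat.pair z.2 j) ≠ some 0 ∧ F z.1 (Nat.pair z.2 j) ≠ none) := by
    refine PrimrecPred.and ?_ ?_
    · exact (Primrec.eq.comp hP (Primrec.const (some 0))).not
    · exact (Primrec.eq.comp hP (Primrec.const none)).not
  refine PrimrecPred.and ?_ ?_
  · exact Primrec.eq.comp hP (Primrec.const (some 0))
  · exact (hR.forall_mem_list).comp (Primrec.list_range.comp Primrec.fst) Primrec.snd

theorem primrec_srch {F : List ℕ → ℕ → Option ℕ} (hF : Primrec₂ F) : Primrec₂ (srch F) := by
  unfold srch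
  refine Primrec.list_head?.comp ?_
  exact ((primrec_Q hF).listFilter).comp
    (Primrec.list_range.comp (Primrec.list_length.comp Primrec.fst)) Primrec.id

/-- primitive recursion with partial values -/
def prc (F1 F2 : List ℕ → ℕ → Option ℕ) (σ : List ℕ) (a n : ℕ) : Option ℕ :=
  Nat.rec (F1 σ a) (fun y IH => IH.bind (fun i => F2 σ (Nat.pair a (Nat.pair y i)))) n

theorem prc_succ (F1 F2 : List ℕ → ℕ → Option ℕ) (σ : List ℕ) (a n : ℕ) :
    prc F1 F2 σ a (n + 1) = (prc F1 F2 σ a n).bind
      (fun i => F2 σ (Nat.pair a (Nat.pair n i))) := rfl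

theorem primrec_prc {F1 F2 : List ℕ → ℕ → Option ℕ} (h1 : Primrec₂ F1) (h2 : Primrec₂ F2) :
    Primrec (fun z : List ℕ × (ℕ × ℕ) => prc F1 F2 z.1 z.2.1 z.2.2) := by
  unfold prc
  have hb : Primrec₂ (fun (z : List ℕ × (ℕ × ℕ)) (w : ℕ × Option ℕ) =>
      w.2.bind (fun i => F2 z.1 (Nat.pair z.2.1 (Nat.pair w.1 i)))) := by
    refine Primrec.option_bind (Primrec.snd.comp Primrec.snd) ?_
    refine h2.comp (Primrec.fst.comp (Primrec.fst.comp Primrec.fst)) ?_
    refine Primrec₂.natPair.comp
      (Primrec.fst.comp (Primrec.snd.comp (Primrec.fst.comp Primrec.fst))) ?_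
    exact Primrec₂.natPair.comp (Primrec.fst.comp (Primrec.snd.comp Primrec.fst)) Primrec.snd
  have ha : Primrec (fun z : List ℕ × (ℕ × ℕ) => F1 z.1 z.2.1) :=
    h1.comp Primrec.fst (Primrec.fst.comp Primrec.snd)
  exact Primrec.nat_rec' (Primrec.snd.comp Primrec.snd) ha hb

/-- monotone in the known part of the oracle -/
def Mon (F : List ℕ → ℕ → Option ℕ) : Prop :=
  ∀ σ τ n m, σ <+: τ → F σ n = some m → F τ n = some m

theorem mem_rfind' (p : ℕ → Part ℕ) (n : ℕ) :
    n ∈ Nat.rfind (fun n => (fun m => decide (m = 0)) <$> p n) ↔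
      0 ∈ p n ∧ ∀ j < n, ∃ v, v ≠ 0 ∧ v ∈ p j := by
  refine (Nat.mem_rfind (p := fun n => (fun m => decide (m = 0)) <$> p n)).trans ?_
  constructor
  · rintro ⟨h1, h2⟩
    refine ⟨?_, ?_⟩
    · simpa using h1
    · intro j hj
      have := h2 hj
      simp only [Part.map_eq_map, Part.mem_map_iff, decide_eq_false_iff_not] at this
      obtain ⟨v, hv1, hv2⟩ := this
      exact ⟨v, hv2, hv1⟩
  · rintro ⟨h1, h2⟩
    refine ⟨?_, ?_⟩
    · simpa using h1
    · intro j hj
      obtain ⟨v, hv1, hv2⟩ := h2 j hj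
      simp only [Part.map_eq_map, Part.mem_map_iff, decide_eq_false_iff_not]
      exact ⟨v, hv2, hv1⟩

theorem normal_form (g : ℕ → ℕ) (f : ℕ →. ℕ) (hf : Nat.RecursiveIn {(g : ℕ →. ℕ)} f) :
    ∃ F : List ℕ → ℕ → Option ℕ, Primrec₂ F ∧ Mon F ∧
      (∀ n m, m ∈ f n ↔ ∃ k, F (pre g k) n = some m) := by
  induction hf with
  | zero =>
    refine ⟨fun _ _ => some 0, Primrec.const _, fun _ _ _ _ _ h => h, fun n m => ?_⟩
    constructor
    · intro h
      have : m = 0 := Part.mem_some_iff.1 h
      exact ⟨0, by simp [this]⟩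
    · rintro ⟨k, hk⟩
      simp only [Option.some.injEq] at hk
      subst hk
      exact Part.mem_some _
  | succ =>
    refine ⟨fun _ n => some (n + 1), Primrec.option_some.comp (Primrec.succ.comp Primrec.snd),
      fun _ _ _ _ _ h => h, fun n m => ?_⟩
    constructor
    · intro h
      have : m = n + 1 := Part.mem_some_iff.1 h
      exact ⟨0, by simp [this]⟩
    · rintro ⟨k, hk⟩
      simp only [Option.some.injEq] at hk
      subst hk
      exact Part.mem_some _
  | left =>
    refine ⟨fun _ n => some n.unpair.1,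
      Primrec.option_some.comp (Primrec.fst.comp (Primrec.unpair.comp Primrec.snd)),
      fun _ _ _ _ _ h => h, fun n m => ?_⟩
    constructor
    · intro h
      have : m = n.unpair.1 := Part.mem_some_iff.1 h
      exact ⟨0, by simp [this]⟩
    · rintro ⟨k, hk⟩
      simp only [Option.some.injEq] at hk
      subst hk
      exact Part.mem_some _
  | right =>
    refine ⟨fun _ n => some n.unpair.2,
      Primrec.option_some.comp (Primrec.snd.comp (Primrec.unpair.comp Primrec.snd)),
      fun _ _ _ _ _ h => h, fun n m => ?_⟩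
    constructor
    · intro h
      have : m = n.unpair.2 := Part.mem_some_iff.1 h
      exact ⟨0, by simp [this]⟩
    · rintro ⟨k, hk⟩
      simp only [Option.some.injEq] at hk
      subst hk
      exact Part.mem_some _
  | oracle g' hg' =>
    rw [Set.mem_singleton_iff] at hg'
    subst hg'
    refine ⟨fun σ n => σ[n]?, Primrec.list_getElem?, fun σ τ n m h hm => getElem?_ext h hm,
      fun n m => ?_⟩
    constructor
    · intro h
      have : m = g n := Part.mem_some_iff.1 h
      exact ⟨n + 1, (getElem?_pre g n (n + 1) m).2 ⟨by omega, this.symm⟩⟩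
    · rintro ⟨k, hk⟩
      have := ((getElem?_pre g n k m).1 hk).2
      subst this
      exact Part.mem_some _
  | @pair f h _ _ ihf ihh =>
    obtain ⟨F1, hp1, hm1, hc1⟩ := ihf
    obtain ⟨F2, hp2, hm2, hc2⟩ := ihh
    refine ⟨fun σ n => (F1 σ n).bind (fun a => (F2 σ n).map (fun b => Nat.pair a b)), ?_, ?_, ?_⟩
    · refine Primrec.option_bind hp1 ?_
      refine Primrec.option_map (hp2.comp (Primrec.fst.comp Primrec.fst)
        (Primrec.snd.comp Primrec.fst)) ?_
      exact Primrec₂.natPair.comp (Primrec.snd.comp Primrec.fst) Primrec.snd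
    · intro σ τ n m hst h
      simp only [Option.bind_eq_some_iff, Option.map_eq_some_iff] at h ⊢
      obtain ⟨a, ha, b, hb, rfl⟩ := h
      exact ⟨a, hm1 _ _ _ _ hst ha, b, hm2 _ _ _ _ hst hb, rfl⟩
    · intro n m
      have hL : m ∈ (Nat.pair <$> f n <*> h n) ↔ ∃ a ∈ f n, ∃ b ∈ h n, Nat.pair a b = m := by
        simp [Seq.seq]
      rw [hL]
      constructor
      · rintro ⟨a, ha, b, hb, rfl⟩
        obtain ⟨k1, hk1⟩ := (hc1 n a).1 ha
        obtain ⟨k2, hk2⟩ := (hc2 n b).1 hb
        refine ⟨max k1 k2, ?_⟩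
        simp only [Option.bind_eq_some_iff, Option.map_eq_some_iff]
        exact ⟨a, hm1 _ _ _ _ (pre_le g (le_max_left _ _)) hk1, b,
          hm2 _ _ _ _ (pre_le g (le_max_right _ _)) hk2, rfl⟩
      · rintro ⟨k, hk⟩
        simp only [Option.bind_eq_some_iff, Option.map_eq_some_iff] at hk
        obtain ⟨a, ha, b, hb, rfl⟩ := hk
        exact ⟨a, (hc1 n a).2 ⟨k, ha⟩, b, (hc2 n b).2 ⟨k, hb⟩, rfl⟩
  | @comp f h _ _ ihf ihh =>
    obtain ⟨F1, hp1, hm1, hc1⟩ := ihf
    obtain ⟨F2, hp2, hm2, hc2⟩ := ihh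
    refine ⟨fun σ n => (F2 σ n).bind (fun b => F1 σ b), ?_, ?_, ?_⟩
    · exact Primrec.option_bind hp2 (hp1.comp (Primrec.fst.comp Primrec.fst) Primrec.snd)
    · intro σ τ n m hst h
      simp only [Option.bind_eq_some_iff] at h ⊢
      obtain ⟨a, ha, hb⟩ := h
      exact ⟨a, hm2 _ _ _ _ hst ha, hm1 _ _ _ _ hst hb⟩
    · intro n m
      have hL : m ∈ (h n >>= f) ↔ ∃ a ∈ h n, m ∈ f a := Part.mem_bind_iff
      rw [hL]
      constructor
      · rintro ⟨a, ha, hb⟩
        obtain ⟨k1, hk1⟩ := (hc2 n a).1 ha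
        obtain ⟨k2, hk2⟩ := (hc1 a m).1 hb
        refine ⟨max k1 k2, ?_⟩
        simp only [Option.bind_eq_some_iff]
        exact ⟨a, hm2 _ _ _ _ (pre_le g (le_max_left _ _)) hk1,
          hm1 _ _ _ _ (pre_le g (le_max_right _ _)) hk2⟩
      · rintro ⟨k, hk⟩
        simp only [Option.bind_eq_some_iff] at hk
        obtain ⟨a, ha, hb⟩ := hk
        exact ⟨a, (hc2 n a).2 ⟨k, ha⟩, (hc1 a m).2 ⟨k, hb⟩⟩
  | @prec f h _ _ ihf ihh =>
    obtain ⟨F1, hp1, hm1, hc1⟩ := ihf
    obtain ⟨F2, hp2, hm2, hc2⟩ := ihh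
    have hmon : ∀ σ τ a n m, σ <+: τ → prc F1 F2 σ a n = some m → prc F1 F2 τ a n = some m := by
      intro σ τ a n m hst
      induction n generalizing m with
      | zero => exact hm1 _ _ _ _ hst
      | succ n ih =>
        rw [prc_succ, prc_succ]
        intro hh
        simp only [Option.bind_eq_some_iff] at hh ⊢
        obtain ⟨i, hi, hh⟩ := hh
        exact ⟨i, ih i hi, hm2 _ _ _ _ hst hh⟩
    refine ⟨fun σ p => prc F1 F2 σ p.unpair.1 p.unpair.2, ?_, ?_, ?_⟩
    · exact (primrec_prc hp1 hp2).comp (Primrec.pair Primrec.fst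
        (Primrec.pair (Primrec.fst.comp (Primrec.unpair.comp Primrec.snd))
          (Primrec.snd.comp (Primrec.unpair.comp Primrec.snd))))
    · intro σ τ n m hst h
      exact hmon _ _ _ _ _ hst h
    · intro p m
      have key : ∀ (a n m : ℕ), (m ∈ (Nat.rec (f a) (fun y IH => do
          let i ← IH
          h (Nat.pair a (Nat.pair y i))) n : Part ℕ)) ↔
          ∃ k, prc F1 F2 (pre g k) a n = some m := by
        intro a n
        induction n with
        | zero => intro m; exact hc1 a m
        | succ n ih =>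
          intro m
          constructor
          · intro hh
            have hh' := Part.mem_bind_iff.1 hh
            obtain ⟨i, hi, hh⟩ := hh'
            obtain ⟨k1, hk1⟩ := (ih i).1 hi
            obtain ⟨k2, hk2⟩ := (hc2 _ m).1 hh
            refine ⟨max k1 k2, ?_⟩
            rw [prc_succ]
            simp only [Option.bind_eq_some_iff]
            exact ⟨i, hmon _ _ _ _ _ (pre_le g (le_max_left _ _)) hk1,
              hm2 _ _ _ _ (pre_le g (le_max_right _ _)) hk2⟩
          · rintro ⟨k, hk⟩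
            rw [prc_succ] at hk
            simp only [Option.bind_eq_some_iff] at hk
            obtain ⟨i, hi, hh⟩ := hk
            exact Part.mem_bind_iff.2 ⟨i, (ih i).2 ⟨k, hi⟩, (hc2 _ m).2 ⟨k, hh⟩⟩
      exact key p.unpair.1 p.unpair.2 m
  | @rfind f _ ihf =>
    obtain ⟨F1, hp1, hm1, hc1⟩ := ihf
    refine ⟨srch F1, primrec_srch hp1, ?_, ?_⟩
    · intro σ τ a n hst h
      rw [srch_eq] at h ⊢
      refine ⟨lt_of_lt_of_le h.1 hst.length_le, hm1 _ _ _ _ hst h.2.1, ?_⟩
      intro j hj
      have hj' := h.2.2 j hj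
      cases hv : F1 σ (Nat.pair a j) with
      | none => exact absurd hv hj'.2
      | some v =>
        rw [hv] at hj'
        rw [hm1 _ _ _ _ hst hv]
        exact hj'
    · intro a n
      have hL : n ∈ (Nat.rfind fun n => (fun m => decide (m = 0)) <$> f (Nat.pair a n)) ↔
          0 ∈ f (Nat.pair a n) ∧ ∀ j < n, ∃ v, v ≠ 0 ∧ v ∈ f (Nat.pair a j) :=
        mem_rfind' (fun n => f (Nat.pair a n)) n
      rw [hL]
      constructor
      · rintro ⟨h1, h2⟩
        obtain ⟨k1, hk1⟩ := (hc1 _ _).1 h1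
        have h3 : ∀ j < n, ∃ k, ∃ v, v ≠ 0 ∧ F1 (pre g k) (Nat.pair a j) = some v := by
          intro j hj
          obtain ⟨v, hv1, hv2⟩ := h2 j hj
          obtain ⟨k, hk⟩ := (hc1 _ _).1 hv2
          exact ⟨k, v, hv1, hk⟩
        obtain ⟨K, hK⟩ := exists_unif n
          (fun j k => ∃ v, v ≠ 0 ∧ F1 (pre g k) (Nat.pair a j) = some v)
          (fun j k k' hkk ⟨v, hv, hv'⟩ => ⟨v, hv, hm1 _ _ _ _ (pre_le g hkk) hv'⟩) h3
        refine ⟨max (n + 1) (max k1 K), ?_⟩
        rw [srch_eq]
        refine ⟨by rw [length_pre]; omega, ?_, ?_⟩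
        · exact hm1 _ _ _ _ (pre_le g (by omega)) hk1
        · intro j hj
          obtain ⟨v, hv, hv'⟩ := hK j (List.mem_range.1 hj)
          have h4 := hm1 _ _ _ _
            (pre_le g (show K ≤ max (n + 1) (max k1 K) by omega)) hv'
          rw [h4]
          refine ⟨?_, by simp⟩
          simpa using hv
      · rintro ⟨k, hk⟩
        rw [srch_eq] at hk
        refine ⟨(hc1 _ _).2 ⟨k, hk.2.1⟩, ?_⟩
        intro j hj
        have hj' := hk.2.2 j (List.mem_range.2 hj)
        cases hv : F1 (pre g k) (Nat.pair a j) with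
        | none => exact absurd hv hj'.2
        | some v =>
          refine ⟨v, ?_, (hc1 _ _).2 ⟨k, hv⟩⟩
          rintro rfl
          exact hj'.1 hv

/-! ### The converse -/

section
variable (g : ℕ → ℕ)

theorem recIn_primrec {h : ℕ → ℕ} (hh : Primrec h) :
    Nat.RecursiveIn {(g : ℕ →. ℕ)} (fun n => Part.some (h n)) :=
  Nat.Primrec.recursiveIn (Primrec.nat_iff.1 hh)

theorem recIn_comp {f h : ℕ → ℕ} (hf : Nat.RecursiveIn {(g : ℕ →. ℕ)} (fun n => Part.some (f n)))
    (hh : Nat.RecursiveIn {(g : ℕ →. ℕ)} (fun n => Part.some (h n))) :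
    Nat.RecursiveIn {(g : ℕ →. ℕ)} (fun n => Part.some (f (h n))) := by
  refine (Nat.RecursiveIn.comp hf hh).of_eq ?_
  intro n
  exact Part.bind_some _ _

theorem recIn_pair {f h : ℕ → ℕ} (hf : Nat.RecursiveIn {(g : ℕ →. ℕ)} (fun n => Part.some (f n)))
    (hh : Nat.RecursiveIn {(g : ℕ →. ℕ)} (fun n => Part.some (h n))) :
    Nat.RecursiveIn {(g : ℕ →. ℕ)} (fun n => Part.some (Nat.pair (f n) (h n))) := by
  refine (Nat.RecursiveIn.pair hf hh).of_eq ?_
  intro n
  simp [Seq.seq]

theorem recIn_oracle : Nat.RecursiveIn {(g : ℕ →. ℕ)} (fun n => Part.some (g n)) :=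
  Nat.RecursiveIn.oracle _ rfl

/-- one step of the construction of the known part of the oracle -/
def stp (z : ℕ) : ℕ :=
  encode (((decode (α := List ℕ) z.unpair.2).getD []) ++ [z.unpair.1])

theorem primrec_stp : Primrec stp := by
  unfold stp
  refine Primrec.encode.comp (Primrec.list_concat.comp ?_ (Primrec.fst.comp Primrec.unpair))
  exact Primrec.option_getD.comp (Primrec.decode.comp (Primrec.snd.comp Primrec.unpair))
    (Primrec.const [])

theorem recIn_pre : Nat.RecursiveIn {(g : ℕ →. ℕ)} (fun k => Part.some (encode (pre g k))) := by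
  have h1 : Nat.RecursiveIn {(g : ℕ →. ℕ)} (fun _ => Part.some (encode ([] : List ℕ))) :=
    recIn_primrec g (h := fun _ => encode ([] : List ℕ)) (Primrec.const (encode ([] : List ℕ)))
  have h2 : Nat.RecursiveIn {(g : ℕ →. ℕ)}
      (fun z => Part.some (stp (Nat.pair (g z.unpair.2.unpair.1) z.unpair.2.unpair.2))) := by
    have e1 : Primrec (fun z : ℕ => z.unpair.2.unpair.1) :=
      Primrec.fst.comp (Primrec.unpair.comp (Primrec.snd.comp Primrec.unpair))
    have e2 : Primrec (fun z : ℕ => z.unpair.2.unpair.2) :=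
      Primrec.snd.comp (Primrec.unpair.comp (Primrec.snd.comp Primrec.unpair))
    have e3 := recIn_comp g (f := g) (h := fun z : ℕ => z.unpair.2.unpair.1)
      (recIn_oracle g) (recIn_primrec g e1)
    have e4 := recIn_pair g (f := fun z => g z.unpair.2.unpair.1)
      (h := fun z : ℕ => z.unpair.2.unpair.2) e3 (recIn_primrec g e2)
    exact recIn_comp g (f := stp)
      (h := fun z => Nat.pair (g z.unpair.2.unpair.1) z.unpair.2.unpair.2)
      (recIn_primrec g primrec_stp) e4
  have h3 := Nat.RecursiveIn.prec h1 h2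
  have h4 : Nat.RecursiveIn {(g : ℕ →. ℕ)} (fun n => Part.some (Nat.pair 0 n)) :=
    recIn_primrec g (h := fun n => Nat.pair 0 n)
      (Primrec₂.natPair.comp (Primrec.const 0) Primrec.id)
  have key : ∀ k : ℕ, (Nat.rec (Part.some (encode ([] : List ℕ)))
      (fun y IH => IH >>= fun i => Part.some (stp (Nat.pair
        (g (Nat.pair 0 (Nat.pair y i)).unpair.2.unpair.1)
        (Nat.pair 0 (Nat.pair y i)).unpair.2.unpair.2))) k : Part ℕ) =
        Part.some (encode (pre g k)) := by
    intro k
    induction k with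
    | zero => rfl
    | succ k ih =>
      refine Eq.trans (congrArg (fun z : Part ℕ => z >>= fun i =>
        Part.some (stp (Nat.pair (g (Nat.pair 0 (Nat.pair k i)).unpair.2.unpair.1)
          (Nat.pair 0 (Nat.pair k i)).unpair.2.unpair.2))) ih) ?_
      refine (Part.bind_some _ _).trans ?_
      simp only [Nat.unpair_pair, stp, encodek, Option.getD_some, pre_succ]
  refine (Nat.RecursiveIn.comp h3 h4).of_eq ?_
  intro k
  refine (Part.bind_some _ _).trans ?_
  have hu : Nat.unpair (Nat.pair 0 k) = (0, k) := Nat.unpair_pair 0 k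
  rw [hu]
  exact key k

/-- a stepped evaluation with access to the known part of the oracle is recursive in the oracle -/
theorem recIn_of_stepped {α σ : Type*} [Primcodable α] [Primcodable σ]
    {F : List ℕ → α → Option σ} (hF : Primrec₂ F) :
    RecursiveIn {(g : ℕ →. ℕ)} (fun a => Nat.rfindOpt (fun k => F (pre g k) a)) := by
  -- the evaluation on numbers
  let h : ℕ → ℕ := fun z => encode ((decode (α := List ℕ) z.unpair.1).bind fun s =>
    (decode (α := α) z.unpair.2).bind fun a => F s a)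
  have hh : Primrec h := by
    refine Primrec.encode.comp ?_
    refine Primrec.option_bind (Primrec.decode.comp (Primrec.fst.comp Primrec.unpair)) ?_
    refine Primrec.option_bind
      (Primrec.decode.comp (Primrec.snd.comp (Primrec.unpair.comp Primrec.fst))) ?_
    exact hF.comp (Primrec.snd.comp Primrec.fst) Primrec.snd
  -- with the known part of the oracle filled in, input `pair a k`
  let H : ℕ → ℕ := fun z => h (Nat.pair (encode (pre g z.unpair.2)) z.unpair.1)
  have hH : Nat.RecursiveIn {(g : ℕ →. ℕ)} (fun z => Part.some (H z)) := by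
    have e1 : Primrec (fun z : ℕ => z.unpair.2) := Primrec.snd.comp Primrec.unpair
    have e2 : Primrec (fun z : ℕ => z.unpair.1) := Primrec.fst.comp Primrec.unpair
    have e3 := recIn_comp g (f := fun k => encode (pre g k)) (h := fun z : ℕ => z.unpair.2)
      (recIn_pre g) (recIn_primrec g e1)
    have e4 := recIn_pair g (f := fun z : ℕ => encode (pre g z.unpair.2))
      (h := fun z : ℕ => z.unpair.1) e3 (recIn_primrec g e2)
    exact recIn_comp g (f := h)
      (h := fun z : ℕ => Nat.pair (encode (pre g z.unpair.2)) z.unpair.1)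
      (recIn_primrec g hh) e4
  have hH1 : Nat.RecursiveIn {(g : ℕ →. ℕ)} (fun z => Part.some (1 - H z)) := by
    have e1 : Primrec (fun z : ℕ => 1 - z) := Primrec.nat_sub.comp (Primrec.const 1) Primrec.id
    exact recIn_comp g (f := fun z : ℕ => 1 - z) (h := H) (recIn_primrec g e1) hH
  have hR := Nat.RecursiveIn.rfind hH1
  have hid : Nat.RecursiveIn {(g : ℕ →. ℕ)} (fun n => Part.some n) :=
    recIn_primrec g Primrec.id
  have hP := Nat.RecursiveIn.pair hid hR
  have hE : Nat.RecursiveIn {(g : ℕ →. ℕ)} (fun z => Part.some (H z - 1)) := by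
    have e1 : Primrec (fun z : ℕ => z - 1) := Primrec.nat_sub.comp Primrec.id (Primrec.const 1)
    exact recIn_comp g (f := fun z : ℕ => z - 1) (h := H) (recIn_primrec g e1) hH
  have hC := Nat.RecursiveIn.comp hE hP
  refine hC.of_eq ?_
  intro n
  apply Part.ext
  intro m
  have hHv : ∀ k, H (Nat.pair n k) = encode ((decode (α := α) n).bind fun a => F (pre g k) a) := by
    intro k
    simp only [H, h, Nat.unpair_pair, encodek, Option.bind_some]
  have hL : m ∈ ((Nat.pair <$> (Part.some n) <*> (Nat.rfind fun k =>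
      (fun m => decide (m = 0)) <$> (Part.some (1 - H (Nat.pair n k))))) >>=
        fun z => Part.some (H z - 1)) ↔
      ∃ k, k ∈ (Nat.rfind fun k => (fun m => decide (m = 0)) <$> (Part.some (1 - H (Nat.pair n k))))
        ∧ m = H (Nat.pair n k) - 1 := by
    simp [Seq.seq]
  refine Iff.trans hL ?_
  have hS : ∀ k, k ∈ (Nat.rfind fun k => (fun m => decide (m = 0)) <$>
      (Part.some (1 - H (Nat.pair n k)))) ↔
      H (Nat.pair n k) ≠ 0 ∧ ∀ j < k, H (Nat.pair n j) = 0 := by
    intro k
    refine (mem_rfind' (fun k => Part.some (1 - H (Nat.pair n k))) k).trans ?_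
    simp only [Part.mem_some_iff]
    constructor
    · rintro ⟨h1, h2⟩
      refine ⟨by omega, fun j hj => ?_⟩
      obtain ⟨v, hv, hv'⟩ := h2 j hj
      omega
    · rintro ⟨h1, h2⟩
      refine ⟨by omega, fun j hj => ⟨1, by omega, ?_⟩⟩
      rw [h2 j hj]
  refine (exists_congr (fun k => and_congr_left' (hS k))).trans ?_
  simp only [hHv]
  cases hd : decode (α := α) n with
  | none =>
    simp
  | some a =>
    simp only [Option.bind_some, Part.coe_some, Part.bind_some, Part.mem_map_iff]
    have hO : ∀ b, b ∈ Nat.rfindOpt (fun k => F (pre g k) a) ↔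
        ∃ k, F (pre g k) a = some b ∧ ∀ j < k, F (pre g j) a = none := by
      intro b
      unfold Nat.rfindOpt
      rw [Part.mem_bind_iff]
      constructor
      · rintro ⟨k, hk, hb⟩
        have hk' := (Nat.mem_rfind).1 hk
        refine ⟨k, by simpa using hb, ?_⟩
        intro j hj
        have := hk'.2 hj
        simpa using this
      · rintro ⟨k, hk, hj⟩
        refine ⟨k, ?_, by simp [hk]⟩
        refine (Nat.mem_rfind).2 ⟨?_, ?_⟩
        · simp [hk]
        · intro j hj'
          simp [hj j hj']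
    simp only [hO]
    constructor
    · rintro ⟨k, ⟨h1, h2⟩, rfl⟩
      cases hk : F (pre g k) a with
      | none => rw [hk] at h1; exact absurd rfl h1
      | some b =>
        refine ⟨b, ⟨k, hk, ?_⟩, ?_⟩
        · intro j hj
          have := h2 j hj
          cases hjj : F (pre g j) a with
          | none => rfl
          | some b' => rw [hjj] at this; simp at this
        · simp
    · rintro ⟨b, ⟨k, hk, h2⟩, rfl⟩
      refine ⟨k, ⟨by rw [hk]; simp, fun j hj => by rw [h2 j hj]; simp⟩, by rw [hk]; simp⟩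

end

end Pool.Agent.Helper760.OracleNF
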