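import Mathlib
import Pool.Agent.Helper760.Kolm

set_option autoImplicit false

namespace Pool.Agent.Helper760.OracleSim

open Pool.Agent.Helper760.Kolm Encodable

/-- an event: `(true, p, v)` is a commitment, `(false, π, s)` is a served request -/
abbrev Ev := Bool × List Bool × List Bool

/-- state: current class of conditions and history of events -/
abbrev St := List (List Bool) × List Ev

/-- size of the child classes of a class at depth `i` -/
def csz (n i : ℕ) : ℕ := 2 ^ ((2 * n + 4) * (2 ^ (n + 2) - (i + 1)))

/-- number of reserved blocks -/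
def rsv (n : ℕ) : ℕ := 2 ^ (2 * n + 2)

/-- all pairs of strings of length at most `n` -/
def prs (n : ℕ) : List (List Bool × List Bool) :=
  (allLe n).flatMap (fun a => (allLe n).map (fun b => (a, b)))

/-- index of an element -/
def ix {α : Type*} [DecidableEq α] (a : α) (L : List α) : ℕ :=
  @List.idxOf α instBEqOfDecidableEq a L

/-- `p` has been used with tag `b` -/
def used (b : Bool) (p : List Bool) (h : List Ev) : Prop := ∃ e ∈ h, e.1 = b ∧ e.2.1 = p

instance (b : Bool) (p : List Bool) (h : List Ev) : Decidable (used b p h) := by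
  unfold used; infer_instance

/-- elements outside of the reserved blocks -/
def rst (n : ℕ) (st : St) : List (List Bool) := st.1.drop (rsv n * csz n st.2.length)

/-- the reserved block number `j` -/
def blk (n : ℕ) (st : St) (j : ℕ) : List (List Bool) :=
  (st.1.drop (j * csz n st.2.length)).take (csz n st.2.length)

section
variable (F : ℕ → List Bool × List Bool → Option (List Bool))

/-- conditions on which program `p` has given `v` by time `t` -/
def flt (t : ℕ) (p v : List Bool) (L : List (List Bool)) : List (List Bool) :=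
  L.filter (fun x => F t (p, x) = some v)

/-- candidate commitment number `k` -/
def cand (n k : ℕ) (st : St) : Option St :=
  (decode (α := ℕ × List Bool × List Bool) k).bind fun z =>
    if z.2.1.length ≤ n ∧ z.2.2.length ≤ n ∧ ¬ used true z.2.1 st.2 ∧
        csz n st.2.length ≤ (flt F z.1 z.2.1 z.2.2 (rst n st)).length then
      some ((flt F z.1 z.2.1 z.2.2 (rst n st)).take (csz n st.2.length),
        st.2 ++ [(true, z.2.1, z.2.2)])
    else none

/-- first candidate with number at most `k` -/
def fst' (n k : ℕ) (st : St) : Option St :=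
  ((List.range (k + 1)).filterMap (fun i => cand F n i st)).head?

/-- serving a request -/
def serve (n : ℕ) (st : St) (r : List Bool × List Bool) : St :=
  (blk n st (ix r (prs n)), st.2 ++ [(false, r.1, r.2)])

/-- first unserved request -/
def unserved (n : ℕ) (st : St) (reqs : List (List Bool × List Bool)) :
    Option (List Bool × List Bool) :=
  (reqs.filter (fun r => r.1.length ≤ n ∧ r.2.length ≤ n ∧ ¬ used false r.1 st.2)).head?

/-- one step of the main process -/
def stepX (n : ℕ) (reqs : List (List Bool × List Bool)) (k : ℕ) (st : St) : St :=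
  (fst' F n k st).getD (((unserved n st reqs).map (serve n st)).getD st)

/-- one step of the trace of a condition `x` -/
def stepT (n : ℕ) (x : List Bool) (k : ℕ) (st : St) : St :=
  if ix x st.1 < rsv n * csz n st.2.length then
    (((prs n)[ix x st.1 / csz n st.2.length]?).map (serve n st)).getD st
  else (fst' F n k st).getD st

/-- initial state -/
def init (n : ℕ) : St := (allLen ((2 * n + 4) * 2 ^ (n + 2)), [])

/-- trace of a condition -/
def tr (n : ℕ) (x : List Bool) (k : ℕ) : St :=
  Nat.rec (init n) (fun k st => stepT F n x k st) k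

/-- lookup of a program in a history -/
def look (b : Bool) (p : List Bool) (h : List Ev) : Option (List Bool) :=
  (h.filterMap (fun e => if e.1 = b ∧ e.2.1 = p then some e.2.2 else none)).head?

end

/-! ### Primitive recursiveness -/

theorem primrec_pow : Primrec₂ (fun a b : ℕ => a ^ b) := Primrec₂.unpaired'.1 Nat.Primrec.pow

theorem primrec_csz : Primrec₂ csz := by
  unfold csz
  refine primrec_pow.comp (Primrec.const 2) ?_
  refine Primrec.nat_mul.comp ?_ ?_
  · exact Primrec.nat_add.comp (Primrec.nat_mul.comp (Primrec.const 2) Primrec.fst)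
      (Primrec.const 4)
  · exact Primrec.nat_sub.comp (primrec_pow.comp (Primrec.const 2)
      (Primrec.nat_add.comp Primrec.fst (Primrec.const 2)))
      (Primrec.nat_add.comp Primrec.snd (Primrec.const 1))

theorem primrec_rsv : Primrec rsv := by
  unfold rsv
  exact primrec_pow.comp (Primrec.const 2)
    (Primrec.nat_add.comp (Primrec.nat_mul.comp (Primrec.const 2) Primrec.id) (Primrec.const 2))

theorem primrec_prs : Primrec prs := by
  unfold prs
  have h1 : Primrec₂ (fun (n : ℕ) (a : List Bool) => (allLe n).map (fun b => (a, b))) := by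
    have h2 : Primrec₂ (fun (x : ℕ × List Bool) (b : List Bool) => (x.2, b)) :=
      (Primrec.pair (Primrec.snd.comp Primrec.fst) Primrec.snd)
    exact Primrec.list_map (primrec_allLe.comp Primrec.fst) h2
  exact Primrec.list_flatMap primrec_allLe h1

theorem primrec_ix {α : Type*} [Primcodable α] [DecidableEq α] :
    Primrec₂ (fun (a : α) (L : List α) => ix a L) := Primrec.list_idxOf

theorem primrec_used : PrimrecPred (fun x : Bool × List Bool × List Ev => used x.1 x.2.1 x.2.2) := by
  unfold used
  have hR : PrimrecRel (fun (e : Ev) (y : Bool × List Bool) => e.1 = y.1 ∧ e.2.1 = y.2) := by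
    refine PrimrecPred.and ?_ ?_
    · exact Primrec.eq.comp (Primrec.fst.comp Primrec.fst) (Primrec.fst.comp Primrec.snd)
    · exact Primrec.eq.comp (Primrec.fst.comp (Primrec.snd.comp Primrec.fst))
        (Primrec.snd.comp Primrec.snd)
  exact (hR.exists_mem_list).comp (Primrec.snd.comp Primrec.snd)
    (Primrec.pair Primrec.fst (Primrec.fst.comp Primrec.snd))

theorem primrec_rst : Primrec₂ rst := by
  unfold rst
  refine Primrec.list_drop.comp ?_ (Primrec.fst.comp Primrec.snd)
  exact Primrec.nat_mul.comp (primrec_rsv.comp Primrec.fst)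
    (primrec_csz.comp Primrec.fst (Primrec.list_length.comp (Primrec.snd.comp Primrec.snd)))

theorem primrec_blk : Primrec (fun x : ℕ × St × ℕ => blk x.1 x.2.1 x.2.2) := by
  unfold blk
  have hc : Primrec (fun x : ℕ × St × ℕ => csz x.1 x.2.1.2.length) :=
    primrec_csz.comp Primrec.fst
      (Primrec.list_length.comp (Primrec.snd.comp (Primrec.fst.comp Primrec.snd)))
  refine Primrec.list_take.comp hc (Primrec.list_drop.comp ?_ ?_)
  · exact Primrec.nat_mul.comp (Primrec.snd.comp Primrec.snd) hc
  · exact Primrec.fst.comp (Primrec.fst.comp Primrec.snd)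

theorem primrec_serve : Primrec (fun x : (ℕ × St) × (List Bool × List Bool) =>
    serve x.1.1 x.1.2 x.2) := by
  unfold serve
  have hn : Primrec (fun x : (ℕ × St) × (List Bool × List Bool) => x.1.1) :=
    Primrec.fst.comp Primrec.fst
  have hs : Primrec (fun x : (ℕ × St) × (List Bool × List Bool) => x.1.2) :=
    Primrec.snd.comp Primrec.fst
  refine Primrec.pair ?_ ?_
  · exact primrec_blk.comp (Primrec.pair hn (Primrec.pair hs
      (primrec_ix.comp Primrec.snd (primrec_prs.comp hn))))
  · refine Primrec.list_concat.comp (Primrec.snd.comp hs) ?_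
    exact Primrec.pair (Primrec.const false) (Primrec.pair (Primrec.fst.comp Primrec.snd)
      (Primrec.snd.comp Primrec.snd))

theorem primrec_look : Primrec (fun x : Bool × List Bool × List Ev => look x.1 x.2.1 x.2.2) := by
  unfold look
  refine Primrec.list_head?.comp ?_
  refine Primrec.listFilterMap (Primrec.snd.comp Primrec.snd) ?_
  refine Primrec.ite (PrimrecPred.and ?_ ?_) ?_ (Primrec.const none)
  · exact Primrec.eq.comp (Primrec.fst.comp Primrec.snd) (Primrec.fst.comp Primrec.fst)
  · exact Primrec.eq.comp (Primrec.fst.comp (Primrec.snd.comp Primrec.snd))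
      (Primrec.fst.comp (Primrec.snd.comp Primrec.fst))
  · exact Primrec.option_some.comp (Primrec.snd.comp (Primrec.snd.comp Primrec.snd))

theorem primrec_unserved : Primrec (fun x : (ℕ × St) × List (List Bool × List Bool) =>
    unserved x.1.1 x.1.2 x.2) := by
  unfold unserved
  refine Primrec.list_head?.comp ?_
  have hR : PrimrecRel (fun (r : List Bool × List Bool) (y : ℕ × St) =>
      r.1.length ≤ y.1 ∧ r.2.length ≤ y.1 ∧ ¬ used false r.1 y.2.2) := by
    refine PrimrecPred.and ?_ (PrimrecPred.and ?_ (PrimrecPred.not ?_))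
    · exact Primrec.nat_le.comp (Primrec.list_length.comp (Primrec.fst.comp Primrec.fst))
        (Primrec.fst.comp Primrec.snd)
    · exact Primrec.nat_le.comp (Primrec.list_length.comp (Primrec.snd.comp Primrec.fst))
        (Primrec.fst.comp Primrec.snd)
    · exact primrec_used.comp (Primrec.pair (Primrec.const false)
        (Primrec.pair (Primrec.fst.comp Primrec.fst)
          (Primrec.snd.comp (Primrec.snd.comp Primrec.snd))))
  exact (hR.listFilter).comp Primrec.snd Primrec.fst

section
variable {F : ℕ → List Bool × List Bool → Option (List Bool)} (hF : Primrec₂ F)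
include hF

theorem primrec_flt : Primrec (fun x : (ℕ × List Bool × List Bool) × List (List Bool) =>
    flt F x.1.1 x.1.2.1 x.1.2.2 x.2) := by
  unfold flt
  have hR : PrimrecRel (fun (x : List Bool) (y : ℕ × List Bool × List Bool) =>
      F y.1 (y.2.1, x) = some y.2.2) := by
    refine Primrec.eq.comp ?_ ?_
    · exact hF.comp (Primrec.fst.comp Primrec.snd)
        (Primrec.pair (Primrec.fst.comp (Primrec.snd.comp Primrec.snd)) Primrec.fst)
    · exact Primrec.option_some.comp (Primrec.snd.comp (Primrec.snd.comp Primrec.snd))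
  exact (hR.listFilter).comp Primrec.snd Primrec.fst

theorem primrec_cand : Primrec (fun x : (ℕ × St) × ℕ => cand F x.1.1 x.2 x.1.2) := by
  unfold cand
  refine Primrec.option_bind (Primrec.decode.comp Primrec.snd) ?_
  have hn : Primrec (fun x : ((ℕ × St) × ℕ) × (ℕ × List Bool × List Bool) => x.1.1.1) :=
    Primrec.fst.comp (Primrec.fst.comp Primrec.fst)
  have hs : Primrec (fun x : ((ℕ × St) × ℕ) × (ℕ × List Bool × List Bool) => x.1.1.2) :=
    Primrec.snd.comp (Primrec.fst.comp Primrec.fst)
  have hh : Primrec (fun x : ((ℕ × St) × ℕ) × (ℕ × List Bool × List Bool) => x.1.1.2.2) :=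
    Primrec.snd.comp hs
  have hp : Primrec (fun x : ((ℕ × St) × ℕ) × (ℕ × List Bool × List Bool) => x.2.2.1) :=
    Primrec.fst.comp (Primrec.snd.comp Primrec.snd)
  have hv : Primrec (fun x : ((ℕ × St) × ℕ) × (ℕ × List Bool × List Bool) => x.2.2.2) :=
    Primrec.snd.comp (Primrec.snd.comp Primrec.snd)
  have hc : Primrec (fun x : ((ℕ × St) × ℕ) × (ℕ × List Bool × List Bool) =>
      csz x.1.1.1 x.1.1.2.2.length) := primrec_csz.comp hn (Primrec.list_length.comp hh)
  have hf : Primrec (fun x : ((ℕ × St) × ℕ) × (ℕ × List Bool × List Bool) =>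
      flt F x.2.1 x.2.2.1 x.2.2.2 (rst x.1.1.1 x.1.1.2)) :=
    (primrec_flt hF).comp (Primrec.pair Primrec.snd (primrec_rst.comp hn hs))
  refine Primrec.ite (PrimrecPred.and ?_ (PrimrecPred.and ?_ (PrimrecPred.and ?_ ?_))) ?_
    (Primrec.const none)
  · exact Primrec.nat_le.comp (Primrec.list_length.comp hp) hn
  · exact Primrec.nat_le.comp (Primrec.list_length.comp hv) hn
  · exact (primrec_used.comp (Primrec.pair (Primrec.const true) (Primrec.pair hp hh))).not
  · exact Primrec.nat_le.comp hc (Primrec.list_length.comp hf)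
  · exact Primrec.option_some.comp (Primrec.pair (Primrec.list_take.comp hc hf)
      (Primrec.list_concat.comp hh (Primrec.pair (Primrec.const true) (Primrec.pair hp hv))))

attribute [local irreducible] cand ix prs csz rsv rst blk flt used

theorem primrec_fst' : Primrec (fun x : (ℕ × St) × ℕ => fst' F x.1.1 x.2 x.1.2) := by
  unfold fst'
  have h1 : Primrec₂ (fun (x : (ℕ × St) × ℕ) (i : ℕ) => cand F x.1.1 i x.1.2) :=
    (primrec_cand hF).comp (Primrec.pair (Primrec.fst.comp Primrec.fst) Primrec.snd)
  have h2 : Primrec (fun x : (ℕ × St) × ℕ => List.range (x.2 + 1)) :=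
    Primrec.list_range.comp (Primrec.succ.comp Primrec.snd)
  exact Primrec.list_head?.comp (Primrec.listFilterMap h2 h1)

theorem primrec_stepX : Primrec (fun x : (ℕ × St) × (ℕ × List (List Bool × List Bool)) =>
    stepX F x.1.1 x.2.2 x.2.1 x.1.2) := by
  unfold stepX
  have h1 : Primrec (fun x : (ℕ × St) × (ℕ × List (List Bool × List Bool)) =>
      fst' F x.1.1 x.2.1 x.1.2) :=
    (primrec_fst' hF).comp (Primrec.pair Primrec.fst (Primrec.fst.comp Primrec.snd))
  have h2 : Primrec (fun x : (ℕ × St) × (ℕ × List (List Bool × List Bool)) =>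
      unserved x.1.1 x.1.2 x.2.2) :=
    primrec_unserved.comp (Primrec.pair Primrec.fst (Primrec.snd.comp Primrec.snd))
  have h3 : Primrec₂ (fun (x : (ℕ × St) × (ℕ × List (List Bool × List Bool)))
      (r : List Bool × List Bool) => serve x.1.1 x.1.2 r) :=
    primrec_serve.comp (Primrec.pair (Primrec.fst.comp Primrec.fst) Primrec.snd)
  exact Primrec.option_getD.comp h1 (Primrec.option_getD.comp (Primrec.option_map h2 h3)
    (Primrec.snd.comp Primrec.fst))

theorem primrec_stepT : Primrec (fun x : (ℕ × List Bool) × (ℕ × St) =>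
    stepT F x.1.1 x.1.2 x.2.1 x.2.2) := by
  unfold stepT
  have hn : Primrec (fun x : (ℕ × List Bool) × (ℕ × St) => x.1.1) := Primrec.fst.comp Primrec.fst
  have hx : Primrec (fun x : (ℕ × List Bool) × (ℕ × St) => x.1.2) := Primrec.snd.comp Primrec.fst
  have hs : Primrec (fun x : (ℕ × List Bool) × (ℕ × St) => x.2.2) := Primrec.snd.comp Primrec.snd
  have hc : Primrec (fun x : (ℕ × List Bool) × (ℕ × St) => csz x.1.1 x.2.2.2.length) :=
    primrec_csz.comp hn (Primrec.list_length.comp (Primrec.snd.comp hs))
  have hi : Primrec (fun x : (ℕ × List Bool) × (ℕ × St) => ix x.1.2 x.2.2.1) :=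
    primrec_ix.comp hx (Primrec.fst.comp hs)
  have h1 : Primrec (fun x : (ℕ × List Bool) × (ℕ × St) => fst' F x.1.1 x.2.1 x.2.2) :=
    (primrec_fst' hF).comp (Primrec.pair (Primrec.pair hn hs) (Primrec.fst.comp Primrec.snd))
  have h2 : Primrec (fun x : (ℕ × List Bool) × (ℕ × St) =>
      (prs x.1.1)[ix x.1.2 x.2.2.1 / csz x.1.1 x.2.2.2.length]?) :=
    Primrec.list_getElem?.comp (primrec_prs.comp hn) (Primrec.nat_div.comp hi hc)
  have h3 : Primrec₂ (fun (x : (ℕ × List Bool) × (ℕ × St))
      (r : List Bool × List Bool) => serve x.1.1 x.2.2 r) :=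
    primrec_serve.comp (Primrec.pair (Primrec.pair (hn.comp Primrec.fst) (hs.comp Primrec.fst))
      Primrec.snd)
  refine Primrec.ite ?_ ?_ ?_
  · exact Primrec.nat_lt.comp hi (Primrec.nat_mul.comp (primrec_rsv.comp hn) hc)
  · exact Primrec.option_getD.comp (Primrec.option_map h2 h3) hs
  · exact Primrec.option_getD.comp h1 hs

omit hF in
theorem primrec_init : Primrec init := by
  unfold init
  refine Primrec.pair (primrec_allLen.comp ?_) (Primrec.const [])
  refine Primrec.nat_mul.comp ?_ ?_
  · exact Primrec.nat_add.comp (Primrec.nat_mul.comp (Primrec.const 2) Primrec.id)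
      (Primrec.const 4)
  · exact primrec_pow.comp (Primrec.const 2) (Primrec.nat_add.comp Primrec.id (Primrec.const 2))

theorem primrec_tr : Primrec₂ (fun (x : ℕ × List Bool) (k : ℕ) => tr F x.1 x.2 k) := by
  unfold tr
  have h : Primrec₂ (fun (x : (ℕ × List Bool) × ℕ) (y : ℕ × St) => stepT F x.1.1 x.1.2 y.1 y.2) :=
    (primrec_stepT hF).comp (Primrec.pair (Primrec.fst.comp Primrec.fst) Primrec.snd)
  exact Primrec.nat_rec' Primrec.snd (primrec_init.comp (Primrec.fst.comp Primrec.fst)) h

end

end Pool.Agent.Helper760.OracleSim
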