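import Mathlib
import Pool.Agent.Helper760.OracleSim

set_option autoImplicit false

namespace Pool.Agent.Helper760.OracleSim

open Pool.Agent.Helper760.Kolm Encodable

theorem csz_pos (n i : ℕ) : 0 < csz n i := by unfold csz; positivity

theorem pow_eq_csz (n i : ℕ) (h : i < 2 ^ (n + 2)) :
    2 ^ ((2 * n + 4) * (2 ^ (n + 2) - i)) = 2 ^ (2 * n + 4) * csz n i := by
  unfold csz
  rw [← pow_add]
  congr 1
  have : 2 ^ (n + 2) - i = (2 ^ (n + 2) - (i + 1)) + 1 := by omega
  rw [this]; ring

theorem rsv_mul (n i : ℕ) : 2 ^ (2 * n + 4) * csz n i = 4 * (rsv n * csz n i) := by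
  unfold rsv
  have : 2 ^ (2 * n + 4) = 4 * 2 ^ (2 * n + 2) := by
    rw [show 2 * n + 4 = (2 * n + 2) + 2 by ring, pow_add]; ring
  rw [this]; ring

theorem length_prs_lt (n : ℕ) : (prs n).length < rsv n := by
  have h1 : (prs n).length = (allLe n).length * (allLe n).length := by
    unfold prs
    simp [List.length_flatMap]
  have h2 := length_allLe n
  have h3 : rsv n = 2 ^ (n + 1) * 2 ^ (n + 1) := by
    unfold rsv
    rw [← pow_add]; congr 1; ring
  rw [h1, h3, ← h2]
  nlinarith

theorem mem_prs (n : ℕ) (r : List Bool × List Bool) :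
    r ∈ prs n ↔ r.1.length ≤ n ∧ r.2.length ≤ n := by
  unfold prs
  simp only [List.mem_flatMap, List.mem_map, mem_allLe]
  constructor
  · rintro ⟨a, ha, b, hb, rfl⟩; exact ⟨ha, hb⟩
  · rintro ⟨h1, h2⟩; exact ⟨r.1, h1, r.2, h2, rfl⟩

section ixl
variable {α : Type*} [DecidableEq α]

theorem ix_lt {a : α} {L : List α} (h : a ∈ L) : ix a L < L.length := by
  unfold ix
  exact List.idxOf_lt_length_of_mem h

theorem getElem?_ix {a : α} {L : List α} (h : a ∈ L) : L[ix a L]? = some a := by
  rw [List.getElem?_eq_getElem (ix_lt h)]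
  unfold ix
  exact congrArg some (List.getElem_idxOf _)

theorem ix_eq {a : α} {L : List α} (hL : L.Nodup) {i : ℕ} (h : L[i]? = some a) : ix a L = i := by
  have hm : a ∈ L := List.mem_of_getElem? h
  have h1 := getElem?_ix hm
  have h2 := ix_lt hm
  rw [← h] at h1
  exact (List.getElem?_inj h2 hL).1 h1

theorem ix_block {a : α} {L : List α} (hL : L.Nodup) {j M : ℕ} (hM : 0 < M)
    (h : a ∈ (L.drop (j * M)).take M) : ix a L / M = j ∧ ix a L < (j + 1) * M := by
  obtain ⟨i, hi⟩ := List.mem_iff_getElem?.1 h
  rw [List.getElem?_take] at hi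
  split_ifs at hi with hiM
  rw [List.getElem?_drop] at hi
  have h1 := ix_eq hL hi
  rw [h1]
  constructor
  · rw [Nat.add_comm, Nat.add_mul_div_right _ _ hM, Nat.div_eq_of_lt hiM]; simp
  · nlinarith

theorem ix_drop {a : α} {L : List α} (hL : L.Nodup) {R : ℕ} (h : a ∈ L.drop R) :
    R ≤ ix a L := by
  obtain ⟨i, hi⟩ := List.mem_iff_getElem?.1 h
  rw [List.getElem?_drop] at hi
  rw [ix_eq hL hi]
  omega

end ixl

/-- the invariant of the process -/
structure Good (F : ℕ → List Bool × List Bool → Option (List Bool)) (n : ℕ) (st : St) : Prop where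
  nd : st.1.Nodup
  len : st.1.length = 2 ^ ((2 * n + 4) * (2 ^ (n + 2) - st.2.length))
  ndh : (st.2.map (fun e => (e.1, e.2.1))).Nodup
  prog : ∀ e ∈ st.2, e.2.1.length ≤ n
  comm : ∀ e ∈ st.2, e.1 = true → ∀ x ∈ st.1, ∃ t, F t (e.2.1, x) = some e.2.2
  isz : ∀ x ∈ st.1, x.length = (2 * n + 4) * 2 ^ (n + 2)

section
variable {F : ℕ → List Bool × List Bool → Option (List Bool)} {n : ℕ}

theorem Good.hlen {st : St} (h : Good F n st) : st.2.length < 2 ^ (n + 2) := by
  have h1 : (st.2.map (fun e => (e.1, e.2.1))).length ≤
      ([true, false].flatMap (fun b => (allLe n).map (fun p => (b, p)))).length := by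
    refine (h.ndh.subperm ?_).length_le
    intro y hy
    rw [List.mem_map] at hy
    obtain ⟨e, he, rfl⟩ := hy
    have h2 := h.prog e he
    simp only [List.flatMap_cons, List.flatMap_nil, List.append_nil, List.mem_append,
      List.mem_map, mem_allLe]
    cases hb : e.1 with
    | true => left; exact ⟨e.2.1, h2, by simp⟩
    | false => right; exact ⟨e.2.1, h2, by simp⟩
  have h3 := length_allLe n
  simp only [List.length_map, List.flatMap_cons, List.flatMap_nil, List.append_nil,
    List.length_append] at h1
  have h4 : 2 ^ (n + 2) = 2 * 2 ^ (n + 1) := by ring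
  omega

theorem Good.len' {st : St} (h : Good F n st) : st.1.length = 4 * (rsv n * csz n st.2.length) := by
  rw [h.len, pow_eq_csz _ _ h.hlen, rsv_mul]

theorem good_init : Good F n (init n) := by
  constructor
  · exact nodup_allLen _
  · simp [init, length_allLen]
  · simp [init]
  · simp [init]
  · simp [init]
  · intro x hx
    exact (mem_allLen _ _).1 hx

theorem not_used_nodup {b : Bool} {p : List Bool} {h : List Ev} (v : List Bool)
    (hn : (h.map (fun e => (e.1, e.2.1))).Nodup) (hu : ¬ used b p h) :
    ((h ++ [(b, p, v)]).map (fun e => (e.1, e.2.1))).Nodup := by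
  rw [List.map_append, List.nodup_append]
  refine ⟨hn, by simp, ?_⟩
  intro y hy z hz hyz
  simp only [List.map_cons, List.map_nil, List.mem_singleton] at hz
  rw [List.mem_map] at hy
  obtain ⟨e, he, rfl⟩ := hy
  rw [hz] at hyz
  simp only [Prod.mk.injEq] at hyz
  exact hu ⟨e, he, hyz.1, hyz.2⟩

theorem good_serve {st : St} (h : Good F n st) (r : List Bool × List Bool)
    (h1 : r.1.length ≤ n) (h2 : r.2.length ≤ n) (h3 : ¬ used false r.1 st.2) :
    Good F n (serve n st r) ∧ ∀ x ∈ (serve n st r).1, x ∈ st.1 := by
  have hsub : ∀ x ∈ (serve n st r).1, x ∈ st.1 := by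
    intro x hx
    exact List.mem_of_mem_drop (List.mem_of_mem_take hx)
  have hr : r ∈ prs n := (mem_prs n r).2 ⟨h1, h2⟩
  have hj := ix_lt hr
  have hj2 := length_prs_lt n
  refine ⟨⟨?_, ?_, ?_, ?_, ?_, ?_⟩, hsub⟩
  · exact (h.nd.sublist (List.drop_sublist _ _)).sublist (List.take_sublist _ _)
  · have hl := h.len'
    have hc : (serve n st r).1.length = csz n st.2.length := by
      unfold serve blk
      simp only [List.length_take, List.length_drop]
      rw [hl]
      have h5 : (ix r (prs n) + 1) * csz n st.2.length ≤ rsv n * csz n st.2.length :=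
        Nat.mul_le_mul_right _ (by omega)
      have h6 : (ix r (prs n) + 1) * csz n st.2.length =
        ix r (prs n) * csz n st.2.length + csz n st.2.length := by ring
      omega
    rw [hc]
    unfold serve csz
    simp
  · exact not_used_nodup r.2 h.ndh h3
  · intro e he
    unfold serve at he
    simp only [List.mem_append, List.mem_singleton] at he
    rcases he with he | rfl
    · exact h.prog e he
    · exact h1
  · intro e he hb x hx
    unfold serve at he
    simp only [List.mem_append, List.mem_singleton] at he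
    rcases he with he | rfl
    · exact h.comm e he hb x (hsub x hx)
    · simp at hb
  · intro x hx
    exact h.isz x (hsub x hx)

theorem cand_eq {k : ℕ} {st st' : St} (hc : cand F n k st = some st') :
    ∃ t p v, p.length ≤ n ∧ v.length ≤ n ∧ ¬ used true p st.2 ∧
      csz n st.2.length ≤ (flt F t p v (rst n st)).length ∧
      st' = ((flt F t p v (rst n st)).take (csz n st.2.length), st.2 ++ [(true, p, v)]) := by
  unfold cand at hc
  simp only [Option.bind_eq_some_iff] at hc
  obtain ⟨z, _, hz⟩ := hc
  split_ifs at hz with hcond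
  simp only [Option.some.injEq] at hz
  exact ⟨z.1, z.2.1, z.2.2, hcond.1, hcond.2.1, hcond.2.2.1, hcond.2.2.2, hz.symm⟩

theorem good_cand {k : ℕ} {st st' : St} (h : Good F n st) (hc : cand F n k st = some st') :
    Good F n st' ∧ (∀ x ∈ st'.1, x ∈ rst n st) ∧ st.2 <+: st'.2 ∧
      st'.2.length = st.2.length + 1 := by
  obtain ⟨t, p, v, hp, hv, hu, hl, rfl⟩ := cand_eq hc
  have hsub : ∀ x ∈ (flt F t p v (rst n st)).take (csz n st.2.length), x ∈ rst n st := by
    intro x hx
    exact List.mem_of_mem_filter (List.mem_of_mem_take hx)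
  have hsub' : ∀ x ∈ (flt F t p v (rst n st)).take (csz n st.2.length), x ∈ st.1 := by
    intro x hx
    exact List.mem_of_mem_drop (hsub x hx)
  refine ⟨⟨?_, ?_, ?_, ?_, ?_, ?_⟩, hsub, List.prefix_append _ _, by simp⟩
  · refine List.Nodup.sublist (List.take_sublist _ _) ?_
    exact (h.nd.sublist (List.drop_sublist _ _)).sublist List.filter_sublist
  · simp only [List.length_take]
    rw [min_eq_left hl]
    unfold csz
    simp
  · exact not_used_nodup v h.ndh hu
  · intro e he
    simp only [List.mem_append, List.mem_singleton] at he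
    rcases he with he | rfl
    · exact h.prog e he
    · exact hp
  · intro e he hb x hx
    simp only [List.mem_append, List.mem_singleton] at he
    rcases he with he | rfl
    · exact h.comm e he hb x (hsub' x hx)
    · have hx' := List.mem_of_mem_take hx
      unfold flt at hx'
      rw [List.mem_filter] at hx'
      exact ⟨t, by simpa using hx'.2⟩
  · intro x hx
    exact h.isz x (hsub' x hx)

theorem fst'_cand {k : ℕ} {st st' : St} (h : fst' F n k st = some st') :
    ∃ i ≤ k, cand F n i st = some st' := by
  unfold fst' at h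
  have h1 := List.mem_of_head? h
  rw [List.mem_filterMap] at h1
  obtain ⟨i, hi, hc⟩ := h1
  rw [List.mem_range] at hi
  exact ⟨i, by omega, hc⟩

theorem fst'_mono {k k' : ℕ} (hk : k ≤ k') {st st' : St} (h : fst' F n k st = some st') :
    fst' F n k' st = some st' := by
  unfold fst' at h ⊢
  obtain ⟨d, rfl⟩ := Nat.exists_eq_add_of_le hk
  rw [show k + d + 1 = (k + 1) + d by ring, List.range_add, List.filterMap_append,
    List.head?_append, h]
  rfl

theorem fst'_none {k i : ℕ} (hi : i ≤ k) {st : St} (h : fst' F n k st = none) :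
    cand F n i st = none := by
  unfold fst' at h
  rw [List.head?_eq_none_iff, List.filterMap_eq_nil_iff] at h
  exact h i (List.mem_range.2 (by omega))

theorem unserved_spec {st : St} {reqs : List (List Bool × List Bool)} {r : List Bool × List Bool}
    (h : unserved n st reqs = some r) :
    r ∈ reqs ∧ r.1.length ≤ n ∧ r.2.length ≤ n ∧ ¬ used false r.1 st.2 := by
  unfold unserved at h
  have h1 := List.mem_of_head? h
  rw [List.mem_filter] at h1
  have h2 := h1.2
  simp only [decide_eq_true_eq] at h2
  exact ⟨h1.1, h2⟩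

/-- the possible moves of the main process -/
theorem stepX_cases (reqs : List (List Bool × List Bool)) (k : ℕ) (st : St) :
    (∃ st', fst' F n k st = some st' ∧ stepX F n reqs k st = st') ∨
    (fst' F n k st = none ∧ ∃ r, unserved n st reqs = some r ∧
      stepX F n reqs k st = serve n st r) ∨
    (fst' F n k st = none ∧ unserved n st reqs = none ∧ stepX F n reqs k st = st) := by
  unfold stepX
  cases h : fst' F n k st with
  | some st' => left; exact ⟨st', rfl, rfl⟩
  | none =>
    right
    cases h2 : unserved n st reqs with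
    | some r => left; exact ⟨rfl, r, rfl, rfl⟩
    | none => right; exact ⟨rfl, rfl, rfl⟩

theorem good_stepX {reqs : List (List Bool × List Bool)} {k : ℕ} {st : St} (h : Good F n st) :
    Good F n (stepX F n reqs k st) ∧ (∀ x ∈ (stepX F n reqs k st).1, x ∈ st.1) ∧
      st.2 <+: (stepX F n reqs k st).2 ∧
      (stepX F n reqs k st = st ∨ (stepX F n reqs k st).2.length = st.2.length + 1) := by
  rcases stepX_cases reqs k st with ⟨st', h1, h2⟩ | ⟨_, r, h1, h2⟩ | ⟨_, _, h2⟩
  · rw [h2]
    obtain ⟨i, _, hi⟩ := fst'_cand h1
    obtain ⟨g1, g2, g3, g4⟩ := good_cand h hi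
    exact ⟨g1, fun x hx => List.mem_of_mem_drop (g2 x hx), g3, Or.inr g4⟩
  · rw [h2]
    obtain ⟨_, h4, h5, h6⟩ := unserved_spec h1
    obtain ⟨g1, g2⟩ := good_serve h r h4 h5 h6
    exact ⟨g1, g2, List.prefix_append _ _, Or.inr (by simp [serve])⟩
  · rw [h2]
    exact ⟨h, fun x hx => hx, List.prefix_rfl, Or.inl rfl⟩

end

/-! ### The trace follows the main process -/

section
variable {F : ℕ → List Bool × List Bool → Option (List Bool)} {n : ℕ}

theorem tr_succ (x : List Bool) (k : ℕ) : tr F n x (k + 1) = stepT F n x k (tr F n x k) := rfl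

/-- waiting for the commitment -/
theorem wait {x : List Bool} {st st' : St} (h : Good F n st) (hx : x ∈ rst n st) {k k' : ℕ}
    (hk' : tr F n x k' = st) (hk : fst' F n k st = some st') : ∃ k'', tr F n x k'' = st' := by
  classical
  have hix : ¬ ix x st.1 < rsv n * csz n st.2.length := by
    have := ix_drop h.nd hx
    omega
  have hex : ∃ j, (fst' F n (k' + j) st).isSome := by
    refine ⟨k, ?_⟩
    rw [fst'_mono (Nat.le_add_left k k') hk]; rfl
  have hmin : ∀ m < Nat.find hex, ¬ (fst' F n (k' + m) st).isSome := fun m hm =>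
    Nat.find_min hex hm
  have hspec := Nat.find_spec hex
  have hst : ∀ j ≤ Nat.find hex, tr F n x (k' + j) = st := by
    intro j
    induction j with
    | zero => intro _; exact hk'
    | succ j ih =>
      intro hj
      have h1 := ih (by omega)
      have h2 := hmin j (show j < Nat.find hex by omega)
      rw [show k' + (j + 1) = (k' + j) + 1 by ring, tr_succ, h1]
      unfold stepT
      rw [if_neg hix]
      have h3 : fst' F n (k' + j) st = none := by
        cases h4 : fst' F n (k' + j) st with
        | none => rfl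
        | some _ => rw [h4] at h2; simp at h2
      rw [h3]; rfl
  refine ⟨k' + Nat.find hex + 1, ?_⟩
  rw [tr_succ, hst _ le_rfl]
  unfold stepT
  rw [if_neg hix]
  cases h4 : fst' F n (k' + Nat.find hex) st with
  | none => rw [h4] at hspec; simp at hspec
  | some st'' =>
    rcases le_total k (k' + Nat.find hex) with hle | hle
    · have := fst'_mono hle hk
      rw [h4] at this
      simp only [Option.some.injEq] at this
      simp [this]
    · have := fst'_mono hle h4
      rw [hk] at this
      simp only [Option.some.injEq] at this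
      simp [this]

/-- following a served request -/
theorem follow {x : List Bool} {st : St} (h : Good F n st) {r : List Bool × List Bool}
    (h1 : r.1.length ≤ n) (h2 : r.2.length ≤ n) (hx : x ∈ (serve n st r).1) {k' : ℕ}
    (hk' : tr F n x k' = st) : tr F n x (k' + 1) = serve n st r := by
  have hr : r ∈ prs n := (mem_prs n r).2 ⟨h1, h2⟩
  have hj := ix_lt hr
  have hj2 := length_prs_lt n
  have hb := ix_block h.nd (csz_pos n st.2.length) hx
  have hix : ix x st.1 < rsv n * csz n st.2.length := by
    have h5 : (ix r (prs n) + 1) * csz n st.2.length ≤ rsv n * csz n st.2.length :=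
      Nat.mul_le_mul_right _ (by omega)
    omega
  rw [tr_succ, hk']
  unfold stepT
  rw [if_pos hix, hb.1, getElem?_ix hr]
  rfl

/-- the histories of a trace only grow -/
theorem tr_grow (x : List Bool) {k k' : ℕ} (h : k ≤ k') :
    (tr F n x k).2 <+: (tr F n x k').2 := by
  induction k', h using Nat.le_induction with
  | base => exact List.prefix_rfl
  | succ k' _ ih =>
    refine ih.trans ?_
    rw [tr_succ]
    unfold stepT
    split_ifs
    · cases h1 : (prs n)[ix x (tr F n x k').1 / csz n (tr F n x k').2.length]? with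
      | none => simp
      | some r => simp [serve]
    · cases h1 : fst' F n k' (tr F n x k') with
      | none => simp
      | some st' =>
        obtain ⟨i, _, hi⟩ := fst'_cand h1
        obtain ⟨t, p, v, _, _, _, _, rfl⟩ := cand_eq hi
        simp

theorem look_grow {b : Bool} {p v : List Bool} {h h' : List Ev} (hh : h <+: h')
    (hv : look b p h = some v) : look b p h' = some v := by
  obtain ⟨ρ, rfl⟩ := hh
  unfold look at hv ⊢
  rw [List.filterMap_append, List.head?_append, hv]
  rfl

theorem look_mem {b : Bool} {p v : List Bool} {h : List Ev} (hv : look b p h = some v) :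
    (b, p, v) ∈ h := by
  unfold look at hv
  have h1 := List.mem_of_head? hv
  rw [List.mem_filterMap] at h1
  obtain ⟨e, he, hc⟩ := h1
  split_ifs at hc with hcond
  simp only [Option.some.injEq] at hc
  have : e = (b, p, v) := by
    rw [← hcond.1, ← hcond.2, ← hc]
  rw [← this]; exact he

theorem look_of_used {b : Bool} {p : List Bool} {h : List Ev} (hu : used b p h) :
    ∃ v, look b p h = some v := by
  obtain ⟨e, he, h1, h2⟩ := hu
  unfold look
  cases hh : (h.filterMap (fun e => if e.1 = b ∧ e.2.1 = p then some e.2.2 else none)).head? with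
  | some v => exact ⟨v, rfl⟩
  | none =>
    rw [List.head?_eq_none_iff, List.filterMap_eq_nil_iff] at hh
    have := hh e he
    rw [if_pos ⟨h1, h2⟩] at this
    simp at this

end

/-! ### Counting -/

section
variable {F : ℕ → List Bool × List Bool → Option (List Bool)} {n : ℕ}

theorem exists_good {st : St} (h : Good F n st)
    (hmono : ∀ t t' a s, t ≤ t' → F t a = some s → F t' a = some s)
    (hc : ∀ k, cand F n k st = none) :
    ∃ x ∈ st.1, ∀ p v t, p.length ≤ n → v.length ≤ n → ¬ used true p st.2 →
      F t (p, x) ≠ some v := by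
  classical
  by_contra hcon
  push Not at hcon
  -- a common number of steps
  have h1 : ∃ T, ∀ x ∈ rst n st, ∃ r ∈ prs n, ¬ used true r.1 st.2 ∧ F T (r.1, x) = some r.2 := by
    have hrec : ∀ L : List (List Bool), (∀ x ∈ L, x ∈ st.1) →
        ∃ T, ∀ x ∈ L, ∃ r ∈ prs n, ¬ used true r.1 st.2 ∧ F T (r.1, x) = some r.2 := by
      intro L
      induction L with
      | nil => intro _; exact ⟨0, by simp⟩
      | cons y L ih =>
        intro hL
        obtain ⟨T, hT⟩ := ih (fun x hx => hL x (List.mem_cons_of_mem _ hx))
        obtain ⟨p, v, t, hp, hv, hu, hF⟩ := hcon y (hL y List.mem_cons_self)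
        refine ⟨max T t, ?_⟩
        intro x hx
        rcases List.mem_cons.1 hx with rfl | hx
        · exact ⟨(p, v), (mem_prs n _).2 ⟨hp, hv⟩, hu, hmono _ _ _ _ (le_max_right _ _) hF⟩
        · obtain ⟨r, hr, hu, hF⟩ := hT x hx
          exact ⟨r, hr, hu, hmono _ _ _ _ (le_max_left _ _) hF⟩
    exact hrec _ (fun x hx => List.mem_of_mem_drop hx)
  obtain ⟨T, hT⟩ := h1
  have hex : ∀ x : List Bool, ∃ r : List Bool × List Bool, x ∈ rst n st →
      (r ∈ prs n ∧ ¬ used true r.1 st.2 ∧ F T (r.1, x) = some r.2) := by
    intro x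
    by_cases hx : x ∈ rst n st
    · obtain ⟨r, hr⟩ := hT x hx
      exact ⟨r, fun _ => hr⟩
    · exact ⟨([], []), fun hx' => absurd hx' hx⟩
  choose f hf using hex
  have hnd : (rst n st).Nodup := h.nd.sublist (List.drop_sublist _ _)
  have hM := csz_pos n st.2.length
  have hlen : (rst n st).length = 3 * (rsv n * csz n st.2.length) := by
    unfold rst
    rw [List.length_drop, h.len']
    omega
  have hcard : (rst n st).toFinset.card = (rst n st).length := List.toFinset_card_of_nodup hnd
  have hcp : (prs n).toFinset.card ≤ (prs n).length := List.toFinset_card_le _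
  have hlt := length_prs_lt n
  have hmul : (prs n).toFinset.card * csz n st.2.length < (rst n st).toFinset.card := by
    rw [hcard, hlen]
    have : (prs n).toFinset.card * csz n st.2.length ≤ rsv n * csz n st.2.length :=
      Nat.mul_le_mul_right _ (by omega)
    have hpos : 0 < rsv n * csz n st.2.length := Nat.mul_pos (by omega) hM
    omega
  obtain ⟨r, hr, hfib⟩ := Finset.exists_lt_card_fiber_of_mul_lt_card_of_maps_to
    (f := f) (s := (rst n st).toFinset) (t := (prs n).toFinset)
    (fun x hx => by
      rw [List.mem_toFinset] at hx ⊢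
      exact (hf x hx).1) hmul
  rw [List.mem_toFinset] at hr
  -- some element in the fiber shows that the program is not used
  have hne : ((rst n st).toFinset.filter (fun x => f x = r)).Nonempty := by
    rw [← Finset.card_pos]; omega
  obtain ⟨x0, hx0⟩ := hne
  rw [Finset.mem_filter, List.mem_toFinset] at hx0
  have hu : ¬ used true r.1 st.2 := by
    have := (hf x0 hx0.1).2.1
    rw [hx0.2] at this
    exact this
  have hle : ((rst n st).toFinset.filter (fun x => f x = r)).card ≤
      (flt F T r.1 r.2 (rst n st)).length := by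
    rw [← List.toFinset_card_of_nodup (show (flt F T r.1 r.2 (rst n st)).Nodup from
      hnd.sublist List.filter_sublist)]
    apply Finset.card_le_card
    intro x hx
    rw [Finset.mem_filter, List.mem_toFinset] at hx
    rw [List.mem_toFinset]
    unfold flt
    rw [List.mem_filter]
    have := (hf x hx.1).2.2
    rw [hx.2] at this
    exact ⟨hx.1, by simpa using this⟩
  have hrp := (mem_prs n r).1 hr
  have hcc := hc (encode ((T, r.1, r.2) : ℕ × List Bool × List Bool))
  unfold cand at hcc
  rw [encodek] at hcc
  simp only [Option.bind_some] at hcc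
  rw [if_pos ⟨hrp.1, hrp.2, hu, by omega⟩] at hcc
  simp at hcc

end

end Pool.Agent.Helper760.OracleSim
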