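import Mathlib
import Pool.Agent.Helper760.OracleSim2
import Pool.Agent.Helper760.OracleNF

set_option autoImplicit false

namespace Pool.Agent.Helper760.OracleSim

open Pool.Agent.Helper760.Kolm Pool.Agent.Helper760.OracleNF Encodable

/-- requests visible with a known part of the oracle -/
def reqsOf (G : List ℕ → List Bool → Option (List Bool)) (n : ℕ) (σ : List ℕ) :
    List (List Bool × List Bool) :=
  (allLe n).filterMap (fun π => (G σ π).map (fun s => (π, s)))

/-- state of the main process after as many steps as there are known values of the oracle -/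
def runS (F : ℕ → List Bool × List Bool → Option (List Bool))
    (G : List ℕ → List Bool → Option (List Bool)) (n : ℕ) (σ : List ℕ) : St :=
  Nat.rec (init n) (fun k st => stepX F n (reqsOf G n (σ.take k)) k st) σ.length

/-- state of the main process after `k` steps -/
def runX (F : ℕ → List Bool × List Bool → Option (List Bool))
    (G : List ℕ → List Bool → Option (List Bool)) (g : ℕ → ℕ) (n k : ℕ) : St :=
  Nat.rec (init n) (fun k st => stepX F n (reqsOf G n (pre g k)) k st) k

attribute [local irreducible] stepX tr look allLe init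

theorem runX_succ (F : ℕ → List Bool × List Bool → Option (List Bool))
    (G : List ℕ → List Bool → Option (List Bool)) (g : ℕ → ℕ) (n k : ℕ) :
    runX F G g n (k + 1) = stepX F n (reqsOf G n (pre g k)) k (runX F G g n k) := rfl

theorem runS_pre (F : ℕ → List Bool × List Bool → Option (List Bool))
    (G : List ℕ → List Bool → Option (List Bool)) (g : ℕ → ℕ) (n k : ℕ) :
    runS F G n (pre g k) = runX F G g n k := by
  have key : ∀ j ≤ k, (Nat.rec (init n)
      (fun i st => stepX F n (reqsOf G n ((pre g k).take i)) i st) j : St) = runX F G g n j := by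
    intro j
    induction j with
    | zero => intro _; rfl
    | succ j ih =>
      intro hj
      have h1 := ih (by omega)
      rw [runX_succ, ← h1, ← take_pre g (show j ≤ k by omega)]
  have h2 := key k le_rfl
  unfold runS
  rw [length_pre]
  exact h2

section
variable {F : ℕ → List Bool × List Bool → Option (List Bool)} (hF : Primrec₂ F)
variable {G : List ℕ → List Bool → Option (List Bool)} (hG : Primrec₂ G)

include hG in
theorem primrec_reqsOf : Primrec₂ (fun (n : ℕ) (σ : List ℕ) => reqsOf G n σ) := by
  unfold reqsOf
  refine Primrec.listFilterMap (primrec_allLe.comp Primrec.fst) ?_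
  refine Primrec.option_map (hG.comp (Primrec.snd.comp Primrec.fst) Primrec.snd) ?_
  exact Primrec.pair (Primrec.snd.comp Primrec.fst) Primrec.snd

attribute [local irreducible] reqsOf

include hF hG in
theorem primrec_runS : Primrec₂ (fun (n : ℕ) (σ : List ℕ) => runS F G n σ) := by
  unfold runS
  have hstep : Primrec₂ (fun (x : ℕ × List ℕ) (y : ℕ × St) =>
      stepX F x.1 (reqsOf G x.1 (x.2.take y.1)) y.1 y.2) := by
    have h1 : Primrec (fun z : (ℕ × List ℕ) × (ℕ × St) => z.1.1) := Primrec.fst.comp Primrec.fst
    have h2 : Primrec (fun z : (ℕ × List ℕ) × (ℕ × St) => z.1.2.take z.2.1) :=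
      Primrec.list_take.comp (Primrec.fst.comp Primrec.snd) (Primrec.snd.comp Primrec.fst)
    have h3 : Primrec (fun z : (ℕ × List ℕ) × (ℕ × St) => reqsOf G z.1.1 (z.1.2.take z.2.1)) :=
      (primrec_reqsOf hG).comp h1 h2
    exact (primrec_stepX hF).comp (Primrec.pair (Primrec.pair h1 (Primrec.snd.comp Primrec.snd))
      (Primrec.pair (Primrec.fst.comp Primrec.snd) h3))
  exact Primrec.nat_rec' (Primrec.list_length.comp Primrec.snd) (primrec_init.comp Primrec.fst)
    hstep

end

section
variable {F : ℕ → List Bool × List Bool → Option (List Bool)}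
variable {G : List ℕ → List Bool → Option (List Bool)} {g : ℕ → ℕ} {n : ℕ}

theorem good_runX (k : ℕ) : Good F n (runX F G g n k) := by
  induction k with
  | zero => exact good_init
  | succ k ih => rw [runX_succ]; exact (good_stepX ih).1

theorem runX_grow {k k' : ℕ} (h : k ≤ k') : (runX F G g n k).2 <+: (runX F G g n k').2 := by
  induction k', h using Nat.le_induction with
  | base => exact List.prefix_rfl
  | succ k' _ ih => rw [runX_succ]; exact ih.trans (good_stepX (good_runX k')).2.2.1

/-- served requests are true -/
theorem runX_served {V : List Bool →. List Bool}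
    (hV : ∀ p s, s ∈ V p ↔ ∃ k, G (pre g k) p = some s) (k : ℕ) :
    ∀ e ∈ (runX F G g n k).2, e.1 = false → e.2.2 ∈ V e.2.1 := by
  induction k with
  | zero => intro e he; simp [runX, init] at he
  | succ k ih =>
    intro e he hb
    rw [runX_succ] at he
    rcases stepX_cases (F := F) (n := n) (reqsOf G n (pre g k)) k (runX F G g n k) with
      ⟨st', h1, h2⟩ | ⟨_, r, h1, h2⟩ | ⟨_, _, h2⟩
    · rw [h2] at he
      obtain ⟨i, _, hi⟩ := fst'_cand h1
      obtain ⟨t, p, v, _, _, _, _, rfl⟩ := cand_eq hi
      simp only [List.mem_append, List.mem_singleton] at he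
      rcases he with he | rfl
      · exact ih e he hb
      · simp at hb
    · rw [h2] at he
      unfold serve at he
      simp only [List.mem_append, List.mem_singleton] at he
      rcases he with he | rfl
      · exact ih e he hb
      · have h3 := (unserved_spec h1).1
        unfold reqsOf at h3
        rw [List.mem_filterMap] at h3
        obtain ⟨π, _, h4⟩ := h3
        rw [Option.map_eq_some_iff] at h4
        obtain ⟨s, hs, rfl⟩ := h4
        exact (hV _ _).2 ⟨k, hs⟩
    · rw [h2] at he
      exact ih e he hb

/-- the trace of a surviving condition passes through every state of the main process -/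
theorem tracked (k : ℕ) : ∀ x ∈ (runX F G g n k).1, ∃ k', tr F n x k' = runX F G g n k := by
  induction k with
  | zero =>
    intro x _
    refine ⟨0, ?_⟩
    unfold tr
    rfl
  | succ k ih =>
    intro x hx
    rw [runX_succ] at hx ⊢
    have hg := good_runX (F := F) (G := G) (g := g) (n := n) k
    rcases stepX_cases (F := F) (n := n) (reqsOf G n (pre g k)) k (runX F G g n k) with
      ⟨st', h1, h2⟩ | ⟨_, r, h1, h2⟩ | ⟨_, _, h2⟩
    · rw [h2] at hx ⊢
      obtain ⟨i, _, hi⟩ := fst'_cand h1
      obtain ⟨g1, g2, g3, g4⟩ := good_cand hg hi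
      have hx' := g2 x hx
      obtain ⟨k', hk'⟩ := ih x (List.mem_of_mem_drop hx')
      exact wait hg hx' hk' h1
    · rw [h2] at hx ⊢
      obtain ⟨_, h4, h5, h6⟩ := unserved_spec h1
      obtain ⟨k', hk'⟩ := ih x ((good_serve hg r h4 h5 h6).2 x hx)
      exact ⟨k' + 1, follow hg h4 h5 hx hk'⟩
    · rw [h2] at hx ⊢
      exact ih x hx

/-- the main process stabilizes -/
theorem stabilizes : ∃ K, ∀ k ≥ K, runX F G g n k = runX F G g n K := by
  by_contra hcon
  push Not at hcon
  have hne : ∀ K, ∃ k ≥ K, (runX F G g n K).2.length < (runX F G g n k).2.length := by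
    intro K
    by_contra hc
    push Not at hc
    obtain ⟨k, hk, hkne⟩ := hcon K
    apply hkne
    have : ∀ k ≥ K, runX F G g n k = runX F G g n K := by
      intro k hk
      induction k, hk using Nat.le_induction with
      | base => rfl
      | succ k hk ih =>
        rcases (good_stepX (F := F) (n := n) (reqs := reqsOf G n (pre g k)) (k := k)
          (good_runX (F := F) (G := G) (g := g) (n := n) k)).2.2.2 with h | h
        · rw [← runX_succ] at h
          rw [h]
          exact ih
        · exfalso
          rw [← runX_succ] at h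
          have h1 := hc (k + 1) (by omega)
          have h2 := (runX_grow (F := F) (G := G) (g := g) (n := n) hk).length_le
          omega
    exact this k hk
  have hlarge : ∀ m, ∃ k, m ≤ (runX F G g n k).2.length := by
    intro m
    induction m with
    | zero => exact ⟨0, Nat.zero_le _⟩
    | succ m ih =>
      obtain ⟨k, hk⟩ := ih
      obtain ⟨k', _, hk'⟩ := hne k
      exact ⟨k', by omega⟩
  obtain ⟨k, hk⟩ := hlarge (2 ^ (n + 2))
  have := (good_runX (F := F) (G := G) (g := g) (n := n) k).hlen
  omega

/-- the core of the simulation -/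
theorem core {D : List Bool → List Bool →. List Bool} {V : List Bool →. List Bool}
    (hF1 : ∀ a s, s ∈ D a.1 a.2 ↔ ∃ t, F t a = some s)
    (hF2 : ∀ t t' a s, t ≤ t' → F t a = some s → F t' a = some s)
    (hV : ∀ p s, s ∈ V p ↔ ∃ k, G (pre g k) p = some s)
    (hG2 : ∀ k k' p s, k ≤ k' → G (pre g k) p = some s → G (pre g k') p = some s) (n : ℕ) :
    ∃ x : List Bool, x.length = (2 * n + 4) * 2 ^ (n + 2) ∧
      (∀ π s, π.length ≤ n → s.length ≤ n → s ∈ V π →
        s ∈ Nat.rfindOpt (fun k => look false π (tr F n x k).2)) ∧
      (∀ p s, p.length ≤ n → s.length ≤ n → s ∈ D p x →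
        s ∈ Nat.rfindOpt (fun k => look true p (runX F G g n k).2)) := by
  obtain ⟨K, hK⟩ := stabilizes (F := F) (G := G) (g := g) (n := n)
  have hg := good_runX (F := F) (G := G) (g := g) (n := n) K
  -- no more candidates
  have hf : ∀ k ≥ K, fst' F n k (runX F G g n K) = none := by
    intro k hk
    cases h : fst' F n k (runX F G g n K) with
    | none => rfl
    | some st' =>
      exfalso
      have h1 : runX F G g n (k + 1) = st' := by
        rw [runX_succ, hK k hk]
        rcases stepX_cases (F := F) (n := n) (reqsOf G n (pre g k)) k (runX F G g n K) with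
          ⟨st'', h1, h2⟩ | ⟨h1, _⟩ | ⟨h1, _⟩
        · rw [h] at h1
          simp only [Option.some.injEq] at h1
          rw [h2, h1]
        · rw [h] at h1; simp at h1
        · rw [h] at h1; simp at h1
      obtain ⟨i, _, hi⟩ := fst'_cand h
      have h2 := (good_cand hg hi).2.2.2
      rw [← h1, hK (k + 1) (by omega)] at h2
      omega
  have hcand : ∀ i, cand F n i (runX F G g n K) = none := by
    intro i
    exact fst'_none (le_max_left i K) (hf (max i K) (le_max_right _ _))
  -- all requests are served
  have hun : ∀ k ≥ K, unserved n (runX F G g n K) (reqsOf G n (pre g k)) = none := by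
    intro k hk
    cases h : unserved n (runX F G g n K) (reqsOf G n (pre g k)) with
    | none => rfl
    | some r =>
      exfalso
      have h1 : runX F G g n (k + 1) = serve n (runX F G g n K) r := by
        rw [runX_succ, hK k hk]
        rcases stepX_cases (F := F) (n := n) (reqsOf G n (pre g k)) k (runX F G g n K) with
          ⟨st'', h1, h2⟩ | ⟨_, r', h1, h2⟩ | ⟨_, h1, _⟩
        · rw [hf k hk] at h1; simp at h1
        · rw [h] at h1
          simp only [Option.some.injEq] at h1
          rw [h2, h1]
        · rw [h] at h1; simp at h1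
      have h2 := congrArg (fun st : St => st.2.length) h1
      simp only [hK (k + 1) (by omega), serve, List.length_append, List.length_cons,
        List.length_nil] at h2
      omega
  obtain ⟨x, hx, hgood⟩ := exists_good hg hF2 hcand
  refine ⟨x, hg.isz x hx, ?_, ?_⟩
  · intro π s hπ hs hsV
    obtain ⟨k0, hk0⟩ := (hV π s).1 hsV
    have hk1 := hG2 k0 (max k0 K) π s (le_max_left _ _) hk0
    have hmem : (π, s) ∈ reqsOf G n (pre g (max k0 K)) := by
      unfold reqsOf
      rw [List.mem_filterMap]
      exact ⟨π, (mem_allLe n π).2 hπ, by rw [hk1]; rfl⟩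
    have hused : used false π (runX F G g n K).2 := by
      by_contra hnu
      have h1 := hun (max k0 K) (le_max_right _ _)
      unfold unserved at h1
      rw [List.head?_eq_none_iff, List.filter_eq_nil_iff] at h1
      have := h1 _ hmem
      simp only [decide_eq_true_eq] at this
      exact this ⟨hπ, hs, hnu⟩
    obtain ⟨s', hs'⟩ := look_of_used hused
    have h2 := runX_served (F := F) (n := n) hV K _ (look_mem hs') rfl
    have h3 : s' = s := Part.mem_unique h2 hsV
    subst h3
    obtain ⟨k', hk'⟩ := tracked (F := F) (G := G) (g := g) (n := n) K x hx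
    refine (Nat.rfindOpt_mono ?_).2 ⟨k', ?_⟩
    · intro a m n' hmn hm
      exact look_grow (tr_grow x hmn) hm
    · rw [hk']; exact hs'
  · intro p s hp hs hsD
    obtain ⟨t, ht⟩ := (hF1 (p, x) s).1 hsD
    have hused : used true p (runX F G g n K).2 := by
      by_contra hnu
      exact hgood p s t hp hs hnu ht
    obtain ⟨s', hs'⟩ := look_of_used hused
    obtain ⟨t', ht'⟩ := hg.comm _ (look_mem hs') rfl x hx
    have h3 : s' = s := Part.mem_unique ((hF1 (p, x) s').2 ⟨t', ht'⟩) hsD
    subst h3
    refine (Nat.rfindOpt_mono ?_).2 ⟨K, hs'⟩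
    intro a m n' hmn hm
    exact look_grow (runX_grow hmn) hm

end

end Pool.Agent.Helper760.OracleSim
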