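import Mathlib
import Pool.Agent.Helper760.OracleSim3

set_option autoImplicit false

namespace Pool.Agent.Helper760.OracleC

/-- `D p y` is the output of the decompressor `D` on program `p` and condition `y`. `D` is an
optimal conditional decompressor: it is partial recursive and simulates every partial recursive
conditional decompressor `E` with programs longer by at most a constant. -/
def OptimalCond (D : List Bool → List Bool →. List Bool) : Prop :=
  Partrec₂ D ∧ ∀ E : List Bool → List Bool →. List Bool, Partrec₂ E →
    ∃ c : ℕ, ∀ p y s : List Bool, s ∈ E p y → ∃ q : List Bool, s ∈ D q y ∧ q.length ≤ p.length + c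

/-- The infinite binary sequence `X` as an oracle function on numbers. -/
def oracleFn (X : ℕ → Bool) : ℕ →. ℕ := fun n => Part.some (X n).toNat

/-- `V` is an optimal decompressor with oracle `X`: it is partial recursive relative to `X` and
simulates every decompressor partial recursive relative to `X` with programs longer by at most a
constant. -/
def OptimalIn (X : ℕ → Bool) (V : List Bool →. List Bool) : Prop :=
  RecursiveIn {oracleFn X} V ∧ ∀ W : List Bool →. List Bool, RecursiveIn {oracleFn X} W →
    ∃ c : ℕ, ∀ p s : List Bool, s ∈ W p → ∃ q : List Bool, s ∈ V q ∧ q.length ≤ p.length + c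

/-- Conditional complexity `C(s | y)` with respect to the conditional decompressor `D`: the least
length of a program `p` with `D(p, y) = s`. -/
noncomputable def condC (D : List Bool → List Bool →. List Bool) (s y : List Bool) : ℕ :=
  sInf {m : ℕ | ∃ p : List Bool, s ∈ D p y ∧ p.length = m}

/-- Complexity `C^X(s)` with respect to the decompressor `V` (which uses the oracle `X`): the
least length of a program `p` with `V(p) = s`. -/
noncomputable def oracleC (V : List Bool →. List Bool) (s : List Bool) : ℕ :=
  sInf {m : ℕ | ∃ p : List Bool, s ∈ V p ∧ p.length = m}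

open Pool.Agent.Helper760.Kolm Pool.Agent.Helper760.OracleNF Pool.Agent.Helper760.OracleSim
open Encodable

section basic
variable {D : List Bool → List Bool →. List Bool} {V : List Bool →. List Bool} {X : ℕ → Bool}

theorem condC_le (s y p : List Bool) (h : s ∈ D p y) : condC D s y ≤ p.length :=
  Nat.sInf_le ⟨p, h, rfl⟩

theorem oracleC_le (s p : List Bool) (h : s ∈ V p) : oracleC V s ≤ p.length :=
  Nat.sInf_le ⟨p, h, rfl⟩

theorem condC_triv (hD : OptimalCond D) : ∃ c : ℕ, ∀ s y, condC D s y ≤ s.length + c := by
  obtain ⟨c, hc⟩ := hD.2 (fun p _ => Part.some p)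
    (Partrec.comp (Partrec.some (α := List Bool)) Computable.fst)
  refine ⟨c, fun s y => ?_⟩
  obtain ⟨q, hq, hl⟩ := hc s y s (Part.mem_some s)
  exact (condC_le s y q hq).trans hl

theorem condC_spec (hD : OptimalCond D) (s y : List Bool) :
    ∃ p, s ∈ D p y ∧ p.length = condC D s y := by
  obtain ⟨c, hc⟩ := hD.2 (fun p _ => Part.some p)
    (Partrec.comp (Partrec.some (α := List Bool)) Computable.fst)
  have h : {m : ℕ | ∃ p : List Bool, s ∈ D p y ∧ p.length = m}.Nonempty := by
    obtain ⟨q, hq, hl⟩ := hc s y s (Part.mem_some s)
    exact ⟨q.length, q, hq, rfl⟩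
  exact Nat.sInf_mem h

theorem oracleC_triv (hV : OptimalIn X V) : ∃ c : ℕ, ∀ s, oracleC V s ≤ s.length + c := by
  obtain ⟨c, hc⟩ := hV.2 (fun p => Part.some p) RecursiveIn.some
  refine ⟨c, fun s => ?_⟩
  obtain ⟨q, hq, hl⟩ := hc s s (Part.mem_some s)
  exact (oracleC_le s q hq).trans hl

theorem oracleC_spec (hV : OptimalIn X V) (s : List Bool) :
    ∃ p, s ∈ V p ∧ p.length = oracleC V s := by
  obtain ⟨c, hc⟩ := hV.2 (fun p => Part.some p) RecursiveIn.some
  have h : {m : ℕ | ∃ p : List Bool, s ∈ V p ∧ p.length = m}.Nonempty := by
    obtain ⟨q, hq, hl⟩ := hc s s (Part.mem_some s)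
    exact ⟨q.length, q, hq, rfl⟩
  exact Nat.sInf_mem h

end basic

theorem simulate (X : ℕ → Bool) (D : List Bool → List Bool →. List Bool) (hD : OptimalCond D)
    (V : List Bool →. List Bool) (hV : OptimalIn X V) :
    ∃ (x : ℕ → List Bool) (c : ℕ), (∀ n, (x n).length = (2 * n + 4) * 2 ^ (n + 2)) ∧
      ∀ n s, s.length ≤ n → condC D s (x n) ≤ oracleC V s + 2 * Nat.size n + c ∧
        oracleC V s ≤ condC D s (x n) + 2 * Nat.size n + c := by
  classical
  obtain ⟨F, hF0, hF1, hF2⟩ := exists_stepped (f := fun a : List Bool × List Bool => D a.1 a.2) hD.1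
  set g : ℕ → ℕ := fun n => (X n).toNat with hg
  have hgX : (g : ℕ →. ℕ) = oracleFn X := rfl
  obtain ⟨Fv, hFv0, hFv1, hFv2⟩ := normal_form g _ (by rw [hgX]; exact hV.1)
  set G : List ℕ → List Bool → Option (List Bool) := fun σ p => (Fv σ (encode p)).bind
    (fun m => decode (α := List Bool) m) with hG
  have hG0 : Primrec₂ G :=
    Primrec.option_bind (hFv0.comp Primrec.fst (Primrec.encode.comp Primrec.snd))
      (Primrec.decode.comp Primrec.snd)
  have hG1 : ∀ p s, s ∈ V p ↔ ∃ k, G (pre g k) p = some s := by
    intro p s
    have h1 : ∀ m, m ∈ (Part.bind (decode (α := List Bool) (encode p) : Option (List Bool))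
        fun a => (V a).map encode) ↔ ∃ s' ∈ V p, encode s' = m := by
      intro m
      rw [encodek]
      simp
    constructor
    · intro hs
      obtain ⟨k, hk⟩ := (hFv2 (encode p) (encode s)).1 ((h1 _).2 ⟨s, hs, rfl⟩)
      refine ⟨k, ?_⟩
      simp only [hG, hk, Option.bind_some, encodek]
    · rintro ⟨k, hk⟩
      simp only [hG, Option.bind_eq_some_iff] at hk
      obtain ⟨m, hm, hd⟩ := hk
      obtain ⟨s', hs', rfl⟩ := (h1 m).1 ((hFv2 (encode p) m).2 ⟨k, hm⟩)
      rw [encodek] at hd
      simp only [Option.some.injEq] at hd
      subst hd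
      exact hs'
  have hG2 : ∀ k k' p s, k ≤ k' → G (pre g k) p = some s → G (pre g k') p = some s := by
    intro k k' p s hkk h
    simp only [hG, Option.bind_eq_some_iff] at h ⊢
    obtain ⟨m, hm, hd⟩ := h
    exact ⟨m, hFv1 _ _ _ _ (pre_le g hkk) hm, hd⟩
  have hcore := fun n => core (D := D) (V := V) (F := F) (G := G) (g := g)
    (fun a s => hF1 a s) hF2 hG1 hG2 n
  choose x hx1 hx2 hx3 using hcore
  -- the decoder with the condition
  obtain ⟨c1, hc1⟩ := hD.2 (fun q y =>
      Nat.rfindOpt (fun k => look false (restOf q) (tr F (numOf q) y k).2)) (by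
    refine Partrec.rfindOpt ?_
    have h1 : Primrec (fun z : (List Bool × List Bool) × ℕ => (tr F (numOf z.1.1) z.1.2 z.2).2) :=
      Primrec.snd.comp ((primrec_tr hF0).comp (Primrec.pair
        (primrec_numOf.comp (Primrec.fst.comp Primrec.fst)) (Primrec.snd.comp Primrec.fst))
        Primrec.snd)
    have h2 : Primrec (fun z : (List Bool × List Bool) × ℕ => restOf z.1.1) :=
      primrec_restOf.comp (Primrec.fst.comp Primrec.fst)
    have h3 : Primrec (fun z : (List Bool × List Bool) × ℕ =>
        look false (restOf z.1.1) (tr F (numOf z.1.1) z.1.2 z.2).2) :=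
      primrec_look.comp (Primrec.pair (Primrec.const false) (Primrec.pair h2 h1))
    exact h3.to_comp.to₂)
  -- the decoder with the oracle
  obtain ⟨c2, hc2⟩ := hV.2 (fun q =>
      Nat.rfindOpt (fun k => look true (restOf q) (runS F G (numOf q) (pre g k)).2)) (by
    have h1 : Primrec (fun z : List ℕ × List Bool => (runS F G (numOf z.2) z.1).2) :=
      Primrec.snd.comp ((primrec_runS hF0 hG0).comp (primrec_numOf.comp Primrec.snd) Primrec.fst)
    have h3 : Primrec₂ (fun (σ : List ℕ) (q : List Bool) =>
        look true (restOf q) (runS F G (numOf q) σ).2) :=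
      primrec_look.comp (Primrec.pair (Primrec.const true)
        (Primrec.pair (primrec_restOf.comp Primrec.snd) h1))
    exact recIn_of_stepped g h3)
  obtain ⟨c3, hc3⟩ := condC_triv hD
  obtain ⟨c4, hc4⟩ := oracleC_triv hV
  refine ⟨x, c1 + c2 + c3 + c4 + 1, hx1, ?_⟩
  intro n s hs
  constructor
  · obtain ⟨π, hπ, hπl⟩ := oracleC_spec hV s
    by_cases hlen : π.length ≤ n
    · have h1 := hx2 n π s hlen hs hπ
      obtain ⟨q, hq, hql⟩ := hc1 (putNum n π) (x n) s (by
        simp only [numOf_putNum, restOf_putNum]
        exact h1)
      have h2 := condC_le s (x n) q hq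
      rw [length_putNum] at hql
      omega
    · have := hc3 s (x n)
      omega
  · obtain ⟨p, hp, hpl⟩ := condC_spec hD s (x n)
    by_cases hlen : p.length ≤ n
    · have h1 := hx3 n p s hlen hs hp
      obtain ⟨q, hq, hql⟩ := hc2 (putNum n p) s (by
        simp only [numOf_putNum, restOf_putNum, runS_pre]
        exact h1)
      have h2 := oracleC_le s q hq
      rw [length_putNum] at hql
      omega
    · have := hc4 s
      omega

theorem size_le_log (m : ℕ) (hm : 2 ≤ m) : (Nat.size m : ℝ) ≤ 3 * Real.log m := by
  have h1 : 2 ^ (Nat.size m - 1) ≤ m := by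
    have h2 : Nat.size m - 1 < Nat.size m := by
      have : 0 < Nat.size m := Nat.size_pos.2 (by omega)
      omega
    exact Nat.lt_size.1 h2
  have h3 : ((2 : ℝ) ^ (Nat.size m - 1)) ≤ m := by exact_mod_cast h1
  have h4 : ((Nat.size m - 1 : ℕ) : ℝ) * Real.log 2 ≤ Real.log m := by
    rw [← Real.log_pow]
    exact Real.log_le_log (by positivity) h3
  have h5 : ((Nat.size m - 1 : ℕ) : ℝ) = (Nat.size m : ℝ) - 1 := by
    have : 1 ≤ Nat.size m := Nat.size_pos.2 (by omega)
    push_cast [Nat.cast_sub this]
    ring
  rw [h5] at h4
  have h6 : Real.log 2 ≤ Real.log m :=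
    Real.log_le_log (by norm_num) (by exact_mod_cast hm)
  have h7 := Real.log_two_gt_d9
  nlinarith

/-- Optimal conditional decompressors exist. -/
theorem exists_optimalCond : ∃ D : List Bool → List Bool →. List Bool, OptimalCond D := by
  refine ⟨fun p y => (M p (encode y)).bind fun n => Part.ofOption (decode (α := List Bool) n),
    ?_, ?_⟩
  · exact Partrec.bind (partrec_M.comp Computable.fst (Computable.encode.comp Computable.snd))
      ((Computable.decode.comp Computable.snd).ofOption)
  · intro E hE
    obtain ⟨c, hc⟩ := M_opt (fun p y' => (Part.ofOption (decode (α := List Bool) y')).bind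
      fun y => (E p y).map encode) (by
        refine Partrec.bind (Computable.decode.comp Computable.snd).ofOption ?_
        refine Partrec.map ?_ (Computable.encode.comp Computable.snd).to₂
        exact hE.comp (Computable.fst.comp Computable.fst) Computable.snd)
    refine ⟨c + 1, fun p y s hs => ⟨List.replicate c true ++ false :: p, ?_, ?_⟩⟩
    · simp only [Part.mem_bind_iff]
      refine ⟨encode s, hc p (encode y) (encode s) ?_, by simp⟩
      simp only [encodek, Part.coe_some, Part.bind_some]
      exact Part.mem_map encode hs
    · simp; omega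

/-- one attempt of the universal decompressor with oracle -/
def att (σ : List ℕ) (q : List Bool) (j : ℕ) : Option (List Bool) :=
  (Nat.Partrec.Code.evaln σ.length (Denumerable.ofNat Nat.Partrec.Code (ones q))
    (encode (σ.take j, encode (afterOnes q)))).bind fun r =>
      (decode (α := Option ℕ) r).bind fun o => o.bind fun m => decode (α := List Bool) m

theorem primrec_att : Primrec (fun z : (List ℕ × List Bool) × ℕ => att z.1.1 z.1.2 z.2) := by
  unfold att
  refine Primrec.option_bind ?_ ?_
  · refine Nat.Partrec.Code.primrec_evaln.comp (Primrec.pair (Primrec.pair ?_ ?_) ?_)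
    · exact Primrec.list_length.comp (Primrec.fst.comp Primrec.fst)
    · exact (Primrec.ofNat Nat.Partrec.Code).comp
        (primrec_ones.comp (Primrec.snd.comp Primrec.fst))
    · refine Primrec.encode.comp (Primrec.pair ?_ ?_)
      · exact Primrec.list_take.comp Primrec.snd (Primrec.fst.comp Primrec.fst)
      · exact Primrec.encode.comp (primrec_afterOnes.comp (Primrec.snd.comp Primrec.fst))
  · refine Primrec.option_bind (Primrec.decode.comp Primrec.snd) ?_
    refine Primrec.option_bind Primrec.snd ?_
    exact Primrec.decode.comp Primrec.snd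

attribute [local irreducible] att

/-- Optimal decompressors with oracle `X` exist. -/
theorem exists_optimalIn (X : ℕ → Bool) : ∃ V : List Bool →. List Bool, OptimalIn X V := by
  set g : ℕ → ℕ := fun n => (X n).toNat with hg
  have hgX : (g : ℕ →. ℕ) = oracleFn X := rfl
  set U : List ℕ → List Bool → Option (List Bool) := fun σ q =>
    ((List.range (σ.length + 1)).filterMap (att σ q)).head? with hU
  have hU0 : Primrec₂ U := by
    refine Primrec.list_head?.comp ?_
    have h1 : Primrec (fun z : List ℕ × List Bool => List.range (z.1.length + 1)) :=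
      Primrec.list_range.comp (Primrec.succ.comp (Primrec.list_length.comp Primrec.fst))
    have h2 : Primrec₂ (fun (z : List ℕ × List Bool) (j : ℕ) => att z.1 z.2 j) := primrec_att
    exact Primrec.listFilterMap h1 h2
  refine ⟨fun q => Nat.rfindOpt (fun k => U (pre g k) q), ?_, ?_⟩
  · rw [← hgX]
    exact recIn_of_stepped g hU0
  · intro W hW
    rw [← hgX] at hW
    obtain ⟨Fw, hFw0, hFw1, hFw2⟩ := normal_form g _ hW
    have hcomp : Partrec (fun z : List ℕ × ℕ => (Part.some (Fw z.1 z.2) : Part (Option ℕ))) :=
      hFw0.to_comp.partrec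
    obtain ⟨cd, hcd⟩ := Nat.Partrec.Code.exists_code.1 hcomp
    refine ⟨encode cd + 1, fun p s hs => ⟨List.replicate (encode cd) true ++ false :: p, ?_, ?_⟩⟩
    · have hev : ∀ z : List ℕ × ℕ, cd.eval (encode z) = Part.some (encode (Fw z.1 z.2)) := by
        intro z
        rw [hcd]
        simp only [encodek, Part.coe_some, Part.bind_some, Part.map_some]
      have hval : ∀ m, m ∈ (Part.bind (decode (α := List Bool) (encode p) : Option (List Bool))
          fun a => (W a).map encode) ↔ ∃ s' ∈ W p, encode s' = m := by
        intro m
        rw [encodek]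
        simp
      -- soundness
      have hsound : ∀ k s', U (pre g k) (List.replicate (encode cd) true ++ false :: p) = some s' →
          s' = s := by
        intro k s' h
        have h1 := List.mem_of_head? h
        rw [List.mem_filterMap] at h1
        obtain ⟨j, hj, h2⟩ := h1
        rw [List.mem_range, length_pre] at hj
        unfold att at h2
        rw [ones_replicate, afterOnes_replicate, Denumerable.ofNat_encode,
          take_pre g (show j ≤ k by omega)] at h2
        simp only [Option.bind_eq_some_iff] at h2
        obtain ⟨r, hr, o, ho, m, hm, hd⟩ := h2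
        have h3 := Nat.Partrec.Code.evaln_sound hr
        rw [hev] at h3
        have h4 := Part.mem_some_iff.1 h3
        subst h4
        rw [encodek] at ho
        simp only [Option.some.injEq] at ho
        rw [← ho] at hm
        obtain ⟨s'', hs'', rfl⟩ := (hval m).1 ((hFw2 (encode p) m).2 ⟨j, hm⟩)
        rw [encodek] at hd
        simp only [Option.some.injEq] at hd
        subst hd
        exact Part.mem_unique hs'' hs
      -- completeness
      have hcomp2 : ∃ k s', U (pre g k) (List.replicate (encode cd) true ++ false :: p) =
          some s' := by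
        obtain ⟨j, hj⟩ := (hFw2 (encode p) (encode s)).1 ((hval _).2 ⟨s, hs, rfl⟩)
        have h1 : encode (Fw (pre g j) (encode p)) ∈ cd.eval (encode (pre g j, encode p)) := by
          rw [hev]; exact Part.mem_some _
        obtain ⟨t, ht⟩ := Nat.Partrec.Code.evaln_complete.1 h1
        refine ⟨max j t, ?_⟩
        have h2 : att (pre g (max j t)) (List.replicate (encode cd) true ++ false :: p) j =
            some s := by
          unfold att
          rw [ones_replicate, afterOnes_replicate, Denumerable.ofNat_encode, length_pre,
            take_pre g (le_max_left j t)]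
          have h3 := Nat.Partrec.Code.evaln_mono (le_max_right j t) ht
          have h4 : Nat.Partrec.Code.evaln (max j t) cd (encode (pre g j, encode p)) =
            some (encode (Fw (pre g j) (encode p))) := h3
          rw [h4]
          simp only [Option.bind_some, encodek, hj]
        cases hh : U (pre g (max j t)) (List.replicate (encode cd) true ++ false :: p) with
        | some s' => exact ⟨s', rfl⟩
        | none =>
          exfalso
          have h5 := List.head?_eq_none_iff.1 hh
          rw [List.filterMap_eq_nil_iff] at h5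
          have h6 := h5 j (by rw [List.mem_range, length_pre]; omega)
          rw [h2] at h6
          simp at h6
      obtain ⟨k, s', hk⟩ := hcomp2
      have hdom := (Nat.rfindOpt_dom (f := fun k =>
        U (pre g k) (List.replicate (encode cd) true ++ false :: p))).2 ⟨k, s', hk⟩
      have hmem := Part.get_mem hdom
      obtain ⟨k', hk'⟩ := Nat.rfindOpt_spec hmem
      have := hsound k' _ hk'
      rw [this] at hmem
      exact hmem
    · simp; omega

end Pool.Agent.Helper760.OracleC
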